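import Mathlib

/-!
# Weil-Petersson quasicircles and maximal discriminants: the definitions of MP_d3aff2_an
-/

set_option autoImplicit false

namespace Pool.Agent.Helper606.FW

open Complex Metric Set MeasureTheory Filter Topology

/-- Dirichlet energy `(1/π) ∫_Ω |∇u|² dA`. -/
noncomputable def dirichletEnergy (Ω : Set ℂ) (u : ℂ → ℝ) : ENNReal :=
  ENNReal.ofReal (1 / Real.pi) * ∫⁻ z in Ω, ENNReal.ofReal (‖fderiv ℝ u z‖ ^ 2)

/-- `η` is a Jordan curve in the plane. -/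
def IsJordanCurve (η : Set ℂ) : Prop :=
  ∃ γ : Circle → ℂ, Continuous γ ∧ Function.Injective γ ∧ Set.range γ = η

/-- `D` and `E` are the bounded and the unbounded component of the complement of `η`. -/
structure IsInOut (η D E : Set ℂ) : Prop where
  union : D ∪ E = ηᶜ
  disj : Disjoint D E
  openD : IsOpen D
  openE : IsOpen E
  connD : IsConnected D
  connE : IsConnected E
  bddD : Bornology.IsBounded D
  unbddE : ¬ Bornology.IsBounded E

/-- `f` is the normalised Riemann map of the unit disc onto `D`. -/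
structure IsInteriorMap (D : Set ℂ) (f : ℂ → ℂ) : Prop where
  diff : DifferentiableOn ℂ f (ball 0 1)
  inj : InjOn f (ball 0 1)
  image : f '' ball 0 1 = D
  zero : f 0 = 0
  deriv_pos : ∃ ρ : ℝ, 0 < ρ ∧ deriv f 0 = (ρ : ℂ)

/-- `g` is the normalised Riemann map of the exterior disc onto `E`, `g(z) = r z + O(1)`. -/
structure IsExteriorMap (E : Set ℂ) (g : ℂ → ℂ) (r : ℝ) : Prop where
  diff : DifferentiableOn ℂ g (closedBall 0 1)ᶜ
  inj : InjOn g (closedBall 0 1)ᶜ
  image : g '' (closedBall 0 1)ᶜ = E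
  pos : 0 < r
  norm : (fun z => g z - (r : ℂ) * z) =O[Bornology.cobounded ℂ] (fun _ => (1 : ℝ))

/-- Loewner energy `E_𝔻(log|f'|) + E_𝔻*(log|g'|) + 4 log (r/f'(0))`. -/
noncomputable def loewnerEnergy (f g : ℂ → ℂ) (r : ℝ) : EReal :=
  ((dirichletEnergy (ball 0 1) (fun z => Real.log ‖deriv f z‖)
    + dirichletEnergy (closedBall 0 1)ᶜ (fun z => Real.log ‖deriv g z‖) : ENNReal) : EReal)
    + ((4 * Real.log (r / (deriv f 0).re) : ℝ) : EReal)

/-- `η` is a Weil-Petersson quasicircle with `0` inside and of capacity `r`. -/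
def IsWeilPetersson (η : Set ℂ) (r : ℝ) : Prop :=
  IsJordanCurve η ∧ ∃ (D E : Set ℂ) (f g : ℂ → ℂ), IsInOut η D E ∧ (0 : ℂ) ∈ D ∧
    IsInteriorMap D f ∧ IsExteriorMap E g r ∧ loewnerEnergy f g r < ⊤

/-- the discriminants of `n`-tuples of points of `η` -/
def discSet (n : ℕ) (η : Set ℂ) : Set ℝ :=
  {x | ∃ w : Fin n → ℂ, (∀ j, w j ∈ η) ∧
    x = ∏ p ∈ (Finset.univ : Finset (Fin n × Fin n)).filter (fun p => p.1 < p.2),
      ‖w p.1 - w p.2‖ ^ 2}

/-- Maximal discriminant `Z_{n,∞}(η)`. -/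
noncomputable def maxDisc (n : ℕ) (η : Set ℂ) : ℝ := sSup (discSet n η)

/-- `F_n(η) = 8 log (Z_{n,∞}(η) / n^n)`. -/
noncomputable def FF (n : ℕ) (η : Set ℂ) : ℝ := 8 * Real.log (maxDisc n η / (n : ℝ) ^ n)

end Pool.Agent.Helper606.FW
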