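import Mathlib
import Pool.Agent.Helper606.FW.Stmt

set_option autoImplicit false

namespace Pool.Agent.Helper606.FW

open Complex Metric Set MeasureTheory Filter Topology

/-- Analytic maps of the unit disc, fixing `0`, with derivative `ε`-close to `1`. -/
structure Cls (ε : ℝ) (F : ℂ → ℂ) : Prop where
  diff : DifferentiableOn ℂ F (ball 0 1)
  zero : F 0 = 0
  der : ∀ z ∈ ball (0 : ℂ) 1, ‖deriv F z - 1‖ ≤ ε

/-- Plane maps `H` with `H - id` Lipschitz with constant `ε`. -/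
def Pl (ε : ℝ) (H : ℂ → ℂ) : Prop := ∀ z w : ℂ, ‖(H z - z) - (H w - w)‖ ≤ ε * ‖z - w‖

/-- `z ↦ (Y (z^m))^(1/m)`, the branch close to the identity. -/
noncomputable def rootOp (m : ℕ) (Y : ℂ → ℂ) : ℂ → ℂ :=
  fun z => z * Complex.exp (Complex.log (dslope Y 0 (z ^ m)) / m)

/-- Energy `∫ |F''/F'|^2` over the unit disc. -/
noncomputable def en (F : ℂ → ℂ) : ENNReal :=
  ∫⁻ z in ball (0 : ℂ) 1, ENNReal.ofReal (‖deriv (deriv F) z / deriv F z‖ ^ 2)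

/-- Disc automorphism sending `0` to `α`. -/
noncomputable def mob (α z : ℂ) : ℂ := (z + α) / (1 + (starRingEnd ℂ) α * z)

open Classical in
/-- the preimage of `a` under `F` in the disc of radius `2a` (if there is one). -/
noncomputable def preim (a : ℝ) (F : ℂ → ℂ) : ℂ :=
  if h : ∃ α : ℂ, ‖α‖ ≤ 2 * a ∧ F α = (a : ℂ) then h.choose else 0

/-- The interior step. -/
noncomputable def stepIn (a : ℝ) (F : ℂ → ℂ) : ℂ → ℂ := fun u => F (mob (preim a F) u) - (a : ℂ)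

/-- The exterior step. -/
noncomputable def stepEx (a : ℝ) (F : ℂ → ℂ) : ℂ → ℂ := fun u => F u / (1 - (a : ℂ) * F u)

/-- Abstract good step with parameter `a`. -/
structure Step (a : ℝ) (S : (ℂ → ℂ) → (ℂ → ℂ)) : Prop where
  cls : ∀ (ε : ℝ) (F : ℂ → ℂ), 0 ≤ ε → ε ≤ 1 / 8 → Cls ε F → Cls (2 * ε + 8 * a) (S F)
  en_le : ∀ F : ℂ → ℂ, Cls (1 / 8) F → en (S F) ≤ 2 * en F + ENNReal.ofReal (200 * a ^ 2)
  lip : ∀ (F G : ℂ → ℂ) (δ : ℝ), 0 ≤ δ → Cls (1 / 8) F → Cls (1 / 8) G →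
    (∀ z ∈ ball (0 : ℂ) 1, ‖F z - G z‖ ≤ δ) →
    ∀ z ∈ ball (0 : ℂ) 1, ‖S F z - S G z‖ ≤ 20 * δ

/-- The truncated sequences. -/
noncomputable def iter (m : ℕ) (S : ℕ → (ℂ → ℂ) → (ℂ → ℂ)) : ℕ → ℕ → (ℂ → ℂ)
  | 0, _ => fun z => z
  | j + 1, i => rootOp m (S i (iter m S j (i + 1)))

/-- the translation parameters -/
noncomputable def aa (i : ℕ) : ℝ := (1 / 10 ^ 6 : ℝ) ^ (i + 1)

/-- product of the mutual distances over ordered pairs. -/
noncomputable def DD (S : Finset ℂ) : ℝ := ∏ x ∈ S, ∏ y ∈ S.erase x, ‖x - y‖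

/-- orbit under the maps `z ↦ z^m + aa i`. -/
noncomputable def orb (m : ℕ) : ℕ → ℕ → ℂ → ℂ
  | _, 0, z => z
  | i, j + 1, z => orb m (i + 1) j (z ^ m + (aa i : ℂ))

/-- exterior function of a disc function -/
noncomputable def gg (h : ℂ → ℂ) : ℂ → ℂ := fun w => (h w⁻¹)⁻¹

end Pool.Agent.Helper606.FW
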