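import Pool.Agent.Helper606.FW.Defs

set_option autoImplicit false

namespace Pool.Agent.Helper606.FW
open Complex Metric Set MeasureTheory Filter Topology


theorem aa_facts (i : ℕ) : 0 < aa i ∧ aa i ≤ 1 / 10 ^ 6 ∧ aa (i + 1) = aa i / 10 ^ 6 := by
  refine ⟨?_, ?_, ?_⟩
  · unfold aa
    positivity
  · unfold aa
    calc (1 / 10 ^ 6 : ℝ) ^ (i + 1) = (1 / 10 ^ 6 : ℝ) ^ i * (1 / 10 ^ 6) := pow_succ _ _
      _ ≤ 1 * (1 / 10 ^ 6) := by
          apply mul_le_mul_of_nonneg_right _ (by positivity)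
          exact pow_le_one₀ (by positivity) (by norm_num)
      _ = 1 / 10 ^ 6 := one_mul _
  · unfold aa
    rw [pow_succ (1 / 10 ^ 6 : ℝ) (i + 1)]
    ring

end Pool.Agent.Helper606.FW
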