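import Pool.Agent.Helper606.FW.Defs

set_option autoImplicit false

namespace Pool.Agent.Helper606.FW
open Complex Metric Set MeasureTheory Filter Topology


theorem dd_disc_sum (S : Finset ℂ) (g : ℂ → ℝ) : ∏ x ∈ S, g x = ∏ i : Fin S.card, g (S.equivFin.symm i) := by
  rw [← Finset.prod_coe_sort]
  exact (Equiv.prod_comp S.equivFin.symm (fun x : S => g x)).symm

theorem dd_disc (S : Finset ℂ) (η : Set ℂ) (h : ∀ x ∈ S, x ∈ η) : DD S ∈ discSet S.card η := by
  refine ⟨fun j => (S.equivFin.symm j : ℂ), fun j => h _ (S.equivFin.symm j).2, ?_⟩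
  have h1 : DD S = ∏ x ∈ S, ∏ y ∈ S, (if x = y then 1 else ‖x - y‖) := by
    unfold DD
    refine Finset.prod_congr rfl (fun x hx => ?_)
    rw [← Finset.mul_prod_erase S _ hx, if_pos rfl, one_mul]
    refine Finset.prod_congr rfl (fun y hy => ?_)
    rw [if_neg (Finset.ne_of_mem_erase hy).symm]
  have h2 : DD S = ∏ i : Fin S.card, ∏ j : Fin S.card,
      (if i = j then 1 else ‖(S.equivFin.symm i : ℂ) - (S.equivFin.symm j : ℂ)‖) := by
    rw [h1, dd_disc_sum]
    refine Finset.prod_congr rfl (fun i _ => ?_)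
    rw [dd_disc_sum]
    refine Finset.prod_congr rfl (fun j _ => ?_)
    by_cases hij : i = j
    · rw [if_pos hij, if_pos (by rw [hij])]
    · rw [if_neg hij, if_neg]
      intro h3
      exact hij (S.equivFin.symm.injective (Subtype.ext h3))
  rw [h2, ← Fintype.prod_prod_type' (f := fun i j : Fin S.card => (if i = j then (1:ℝ) else ‖(S.equivFin.symm i : ℂ) - (S.equivFin.symm j : ℂ)‖))]
  have h4 : ∀ p : Fin S.card × Fin S.card,
      (if p.1 = p.2 then (1:ℝ) else ‖(S.equivFin.symm p.1 : ℂ) - (S.equivFin.symm p.2 : ℂ)‖) =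
      (if p.1 < p.2 then ‖(S.equivFin.symm p.1 : ℂ) - (S.equivFin.symm p.2 : ℂ)‖ else 1) *
      (if p.2 < p.1 then ‖(S.equivFin.symm p.1 : ℂ) - (S.equivFin.symm p.2 : ℂ)‖ else 1) := by
    intro p
    rcases lt_trichotomy p.1 p.2 with hp | hp | hp
    · rw [if_neg hp.ne, if_pos hp, if_neg (not_lt.2 hp.le), mul_one]
    · rw [if_pos hp, if_neg (by rw [hp]; exact lt_irrefl _), if_neg (by rw [hp]; exact lt_irrefl _), mul_one]
    · rw [if_neg hp.ne', if_neg (not_lt.2 hp.le), if_pos hp, one_mul]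
  rw [Finset.prod_congr rfl (fun p _ => h4 p), Finset.prod_mul_distrib]
  have h5 : ∏ p : Fin S.card × Fin S.card,
      (if p.2 < p.1 then ‖(S.equivFin.symm p.1 : ℂ) - (S.equivFin.symm p.2 : ℂ)‖ else (1:ℝ)) =
      ∏ p : Fin S.card × Fin S.card,
      (if p.1 < p.2 then ‖(S.equivFin.symm p.1 : ℂ) - (S.equivFin.symm p.2 : ℂ)‖ else (1:ℝ)) := by
    rw [← Equiv.prod_comp (Equiv.prodComm (Fin S.card) (Fin S.card))]
    refine Finset.prod_congr rfl (fun p _ => ?_)
    simp only [Equiv.prodComm_apply, Prod.fst_swap, Prod.snd_swap]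
    rw [norm_sub_rev]
  rw [h5, ← Finset.prod_mul_distrib, Finset.prod_filter]
  refine Finset.prod_congr rfl (fun p _ => ?_)
  split_ifs
  · rw [sq]
  · rw [one_mul]

end Pool.Agent.Helper606.FW
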