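import Pool.Agent.Helper606.FW.Defs

set_option autoImplicit false

namespace Pool.Agent.Helper606.FW
open Complex Metric Set MeasureTheory Filter Topology


theorem disc_bdd (n : ℕ) (η : Set ℂ) (h : Bornology.IsBounded η) : BddAbove (discSet n η) := by
  obtain ⟨R, hR⟩ := h.subset_closedBall 0
  refine ⟨∏ _p ∈ (Finset.univ : Finset (Fin n × Fin n)).filter (fun p => p.1 < p.2),
    (2 * R) ^ 2, ?_⟩
  rintro x ⟨w, hw, rfl⟩
  apply Finset.prod_le_prod
  · intro p _
    positivity
  · intro p _
    have h1 : ‖w p.1‖ ≤ R := by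
      have := hR (hw p.1)
      rwa [mem_closedBall_zero_iff] at this
    have h2 : ‖w p.2‖ ≤ R := by
      have := hR (hw p.2)
      rwa [mem_closedBall_zero_iff] at this
    have h3 : ‖w p.1 - w p.2‖ ≤ 2 * R := by
      refine (norm_sub_le _ _).trans ?_
      linarith
    exact pow_le_pow_left₀ (norm_nonneg _) h3 2

end Pool.Agent.Helper606.FW
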