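import Pool.Agent.Helper606.FW.Defs
import Pool.Agent.Helper606.FW.P_aa_facts

set_option autoImplicit false

namespace Pool.Agent.Helper606.FW
open Complex Metric Set MeasureTheory Filter Topology


theorem orb_bound_pow (m : ℕ) (hm : 3 ≤ m) (t : ℕ) (z : ℂ) (hz : ‖z‖ ≤ 2 * aa t) :
    ‖z ^ m‖ ≤ aa (t + 1) / 4 := by
  obtain ⟨h1, h2, h3⟩ := aa_facts t
  have h4 : 2 * aa t ≤ 1 := by
    have : (1 : ℝ) / 10 ^ 6 ≤ 1 / 2 := by norm_num
    linarith
  rw [norm_pow]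
  calc ‖z‖ ^ m ≤ (2 * aa t) ^ m := pow_le_pow_left₀ (norm_nonneg _) hz m
    _ ≤ (2 * aa t) ^ 3 := pow_le_pow_of_le_one (by positivity) h4 hm
    _ = 8 * (aa t * aa t) * aa t := by ring
    _ ≤ 8 * ((1 / 10 ^ 6) * (1 / 10 ^ 6)) * aa t := by
        refine mul_le_mul_of_nonneg_right ?_ h1.le
        refine mul_le_mul_of_nonneg_left ?_ (by norm_num)
        exact mul_le_mul h2 h2 h1.le (by norm_num)
    _ ≤ aa (t + 1) / 4 := by
        rw [h3]
        have : 8 * ((1 / 10 ^ 6) * (1 / 10 ^ 6)) ≤ (1 : ℝ) / 10 ^ 6 / 4 := by norm_num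
        calc 8 * ((1 / 10 ^ 6) * (1 / 10 ^ 6)) * aa t ≤ (1 : ℝ) / 10 ^ 6 / 4 * aa t :=
              mul_le_mul_of_nonneg_right this h1.le
          _ = aa t / 10 ^ 6 / 4 := by ring

theorem orb_bound (m : ℕ) (hm : 3 ≤ m) (j t : ℕ) (hj : 1 ≤ j) (z : ℂ) (hz : ‖z‖ ≤ 2 * aa t) :
    ‖orb m (t + 1) j z - (aa (t + j) : ℂ)‖ ≤ aa (t + j) / 4 := by
  induction j, hj using Nat.le_induction generalizing t z with
  | base =>
    show ‖(z ^ m + (aa (t + 1) : ℂ)) - (aa (t + 1) : ℂ)‖ ≤ aa (t + 1) / 4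
    rw [add_sub_cancel_right]
    exact orb_bound_pow m hm t z hz
  | succ j hj ih =>
    have hp := orb_bound_pow m hm t z hz
    have h1 := (aa_facts (t + 1)).1
    have h2 : ‖z ^ m + (aa (t + 1) : ℂ)‖ ≤ 2 * aa (t + 1) := by
      refine (norm_add_le _ _).trans ?_
      rw [Complex.norm_real, Real.norm_eq_abs, abs_of_pos h1]
      linarith
    have h3 := ih (t + 1) (z ^ m + (aa (t + 1) : ℂ)) h2
    have e : t + 1 + j = t + (j + 1) := by omega
    rw [e] at h3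
    exact h3

end Pool.Agent.Helper606.FW
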