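import Pool.Agent.Helper606.FW.Defs

set_option autoImplicit false

namespace Pool.Agent.Helper606.FW
open Complex Metric Set MeasureTheory Filter Topology


theorem dd_deriv (S : Finset ℂ) :
    DD S = ∏ x ∈ S, ‖deriv (fun z : ℂ => ∏ y ∈ S, (z - y)) x‖ := by
  unfold DD
  refine Finset.prod_congr rfl (fun x hx => ?_)
  have h1 : (fun z : ℂ => ∏ y ∈ S, (z - y)) = fun z => (z - x) * ∏ y ∈ S.erase x, (z - y) := by
    funext z
    exact (Finset.mul_prod_erase S (fun y => z - y) hx).symm
  have h2 : HasDerivAt (fun z : ℂ => z - x) 1 x := (hasDerivAt_id x).sub_const x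
  have h3 : DifferentiableAt ℂ (fun z : ℂ => ∏ y ∈ S.erase x, (z - y)) x := by
    fun_prop
  have h4 := h2.mul h3.hasDerivAt
  have h5 : deriv (fun z : ℂ => (z - x) * ∏ y ∈ S.erase x, (z - y)) x = ∏ y ∈ S.erase x, (x - y) := by
    have h6 := h4.deriv
    simp only [sub_self, zero_mul, add_zero, one_mul] at h6
    exact h6
  rw [h1, h5, norm_prod]

end Pool.Agent.Helper606.FW
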