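import Pool.Agent.Helper606.FW.Defs
import Pool.Agent.Helper606.FW.P_dd_deriv

set_option autoImplicit false

namespace Pool.Agent.Helper606.FW
open Complex Metric Set MeasureTheory Filter Topology


theorem pre_dd (m : ℕ) (hm : 1 ≤ m) (a : ℂ) (S T : Finset ℂ) (ha : a ∉ S)
    (h1 : T.card = m * S.card) (h2 : ∀ x ∈ T, x ^ m + a ∈ S)
    (h3 : ∀ z : ℂ, ∏ x ∈ T, (z - x) = ∏ s ∈ S, (z ^ m + a - s))
    (h4 : ∀ s ∈ S, (T.filter (fun x => x ^ m + a = s)).card = m) :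
    DD T = (m : ℝ) ^ (m * S.card) * ‖∏ s ∈ S, (a - s)‖ ^ (m - 1) * (DD S) ^ m := by
  set P : ℂ → ℂ := fun w => ∏ s ∈ S, (w - s) with hP
  have hPd : Differentiable ℂ P := by
    rw [hP]
    fun_prop
  have hder : ∀ x : ℂ, deriv (fun z : ℂ => ∏ y ∈ T, (z - y)) x
      = deriv P (x ^ m + a) * ((m : ℂ) * x ^ (m - 1)) := by
    intro x
    have hfun : (fun z : ℂ => ∏ y ∈ T, (z - y)) = P ∘ (fun z : ℂ => z ^ m + a) := by
      funext z
      simp only [hP, Function.comp]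
      exact h3 z
    rw [hfun]
    have hg : HasDerivAt (fun z : ℂ => z ^ m + a) ((m : ℂ) * x ^ (m - 1)) x :=
      (hasDerivAt_pow m x).add_const a
    exact ((hPd (x ^ m + a)).hasDerivAt.comp x hg).deriv
  rw [dd_deriv T]
  have e1 : ∏ x ∈ T, ‖deriv (fun z : ℂ => ∏ y ∈ T, (z - y)) x‖
      = (∏ x ∈ T, ‖deriv P (x ^ m + a)‖) * ((∏ _x ∈ T, (m : ℝ)) * ∏ x ∈ T, ‖x‖ ^ (m - 1)) := by
    rw [← Finset.prod_mul_distrib, ← Finset.prod_mul_distrib]
    apply Finset.prod_congr rfl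
    intro x _
    rw [hder x, norm_mul, norm_mul, norm_pow]
    simp
  have e2 : ∏ _x ∈ T, (m : ℝ) = (m : ℝ) ^ (m * S.card) := by
    rw [Finset.prod_const, h1]
  have e3 : ∏ x ∈ T, ‖x‖ ^ (m - 1) = ‖∏ s ∈ S, (a - s)‖ ^ (m - 1) := by
    rw [Finset.prod_pow]
    congr 1
    have h0 := h3 0
    have hz : (0 : ℂ) ^ m = 0 := zero_pow (by omega)
    rw [hz] at h0
    have : ∏ x ∈ T, ‖x‖ = ‖∏ x ∈ T, (0 - x)‖ := by
      rw [norm_prod]
      apply Finset.prod_congr rfl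
      intro x _
      rw [zero_sub, norm_neg]
    rw [this, h0]
    congr 1
    apply Finset.prod_congr rfl
    intro s _
    rw [zero_add]
  have e4 : ∏ x ∈ T, ‖deriv P (x ^ m + a)‖ = (DD S) ^ m := by
    rw [← Finset.prod_fiberwise_of_maps_to h2 (fun x => ‖deriv P (x ^ m + a)‖), dd_deriv S,
      ← Finset.prod_pow]
    apply Finset.prod_congr rfl
    intro s hs
    have hc : ∏ x ∈ T with x ^ m + a = s, ‖deriv P (x ^ m + a)‖
        = ∏ _x ∈ T with _x ^ m + a = s, ‖deriv P s‖ := by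
      apply Finset.prod_congr rfl
      intro x hx
      rw [(Finset.mem_filter.mp hx).2]
    rw [hc, Finset.prod_const, h4 s hs]
  rw [e1, e2, e3, e4]
  ring

end Pool.Agent.Helper606.FW
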