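import Pool.Agent.Helper606.FW.Defs

set_option autoImplicit false

namespace Pool.Agent.Helper606.FW
open Complex Metric Set MeasureTheory Filter Topology


theorem pre_exists_roots (m : ℕ) (hm : 1 ≤ m) (b : ℂ) (hb : b ≠ 0) :
    ∃ R : Finset ℂ, R.card = m ∧ (∀ x, x ∈ R ↔ x ^ m = b) ∧
      ∀ z : ℂ, ∏ x ∈ R, (z - x) = z ^ m - b := by
  classical
  have hm0 : m ≠ 0 := by omega
  have hmonic : (Polynomial.X ^ m - Polynomial.C b : Polynomial ℂ).Monic :=
    Polynomial.monic_X_pow_sub_C b hm0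
  have hcard : Multiset.card (Polynomial.X ^ m - Polynomial.C b : Polynomial ℂ).roots =
      (Polynomial.X ^ m - Polynomial.C b : Polynomial ℂ).natDegree :=
    (Polynomial.splits_iff_card_roots.1 (IsAlgClosed.splits _))
  have hdeg : (Polynomial.X ^ m - Polynomial.C b : Polynomial ℂ).natDegree = m :=
    Polynomial.natDegree_X_pow_sub_C
  have hsep : (Polynomial.X ^ m - Polynomial.C b : Polynomial ℂ).Separable :=
    Polynomial.separable_X_pow_sub_C b (by exact_mod_cast hm0) hb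
  have hnd := Polynomial.nodup_roots hsep
  have hprod := Polynomial.prod_multiset_X_sub_C_of_monic_of_roots_card_eq hmonic hcard
  refine ⟨(Polynomial.X ^ m - Polynomial.C b : Polynomial ℂ).roots.toFinset, ?_, ?_, ?_⟩
  · rw [Multiset.toFinset_card_of_nodup hnd, hcard, hdeg]
  · intro x
    rw [Multiset.mem_toFinset, Polynomial.mem_roots hmonic.ne_zero]
    simp [Polynomial.IsRoot, sub_eq_zero]
  · intro z
    have h1 := congrArg (Polynomial.eval z) hprod
    rw [Polynomial.eval_multiset_prod, Multiset.map_map] at h1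
    rw [Finset.prod_eq_multiset_prod, Multiset.toFinset_val, hnd.dedup]
    simpa using h1

theorem pre_exists (m : ℕ) (hm : 1 ≤ m) (a : ℂ) (S : Finset ℂ) (ha : a ∉ S) :
    ∃ T : Finset ℂ, T.card = m * S.card ∧ (∀ x ∈ T, x ^ m + a ∈ S) ∧
      (∀ z : ℂ, ∏ x ∈ T, (z - x) = ∏ s ∈ S, (z ^ m + a - s)) ∧
      (∀ s ∈ S, (T.filter (fun x => x ^ m + a = s)).card = m) := by
  classical
  have hex : ∀ s : ℂ, ∃ R : Finset ℂ, s ≠ a → R.card = m ∧ (∀ x, x ∈ R ↔ x ^ m = s - a) ∧
      ∀ z : ℂ, ∏ x ∈ R, (z - x) = z ^ m - (s - a) := by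
    intro s
    by_cases h : s = a
    · exact ⟨∅, fun h' => absurd h h'⟩
    · obtain ⟨R, hR⟩ := pre_exists_roots m hm (s - a) (sub_ne_zero.2 h)
      exact ⟨R, fun _ => hR⟩
  choose R hR using hex
  have hne : ∀ s ∈ S, s ≠ a := fun s hs h => ha (h ▸ hs)
  have hdisj : ∀ s ∈ S, ∀ s' ∈ S, s ≠ s' → Disjoint (R s) (R s') := by
    intro s hs s' hs' hss
    rw [Finset.disjoint_left]
    intro x hx hx'
    apply hss
    have h1 := ((hR s (hne s hs)).2.1 x).1 hx
    have h2 := ((hR s' (hne s' hs')).2.1 x).1 hx'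
    linear_combination h2 - h1
  have hpd : (S : Set ℂ).PairwiseDisjoint R := fun s hs s' hs' h =>
    hdisj s hs s' hs' h
  refine ⟨S.biUnion R, ?_, ?_, ?_, ?_⟩
  · rw [Finset.card_biUnion hdisj, Finset.sum_congr rfl fun s hs => (hR s (hne s hs)).1,
      Finset.sum_const, smul_eq_mul, mul_comm]
  · intro x hx
    rw [Finset.mem_biUnion] at hx
    obtain ⟨s, hs, hx⟩ := hx
    rw [((hR s (hne s hs)).2.1 x).1 hx, sub_add_cancel]
    exact hs
  · intro z
    rw [Finset.prod_biUnion hpd]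
    refine Finset.prod_congr rfl fun s hs => ?_
    rw [(hR s (hne s hs)).2.2 z]
    ring
  · intro s hs
    have e : (S.biUnion R).filter (fun x => x ^ m + a = s) = R s := by
      ext x
      rw [Finset.mem_filter, Finset.mem_biUnion]
      constructor
      · rintro ⟨-, hx⟩
        rw [(hR s (hne s hs)).2.1 x, ← hx, add_sub_cancel_right]
      · intro hx
        refine ⟨⟨s, hs, hx⟩, ?_⟩
        rw [((hR s (hne s hs)).2.1 x).1 hx, sub_add_cancel]
    rw [e]
    exact (hR s (hne s hs)).1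

end Pool.Agent.Helper606.FW
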