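import Pool.Agent.Helper606.FW.Defs
import Pool.Agent.Helper606.FW.P_aa_facts
import Pool.Agent.Helper606.FW.P_pre_exists
import Pool.Agent.Helper606.FW.P_pre_dd
import Pool.Agent.Helper606.FW.P_orb_bound

set_option autoImplicit false

namespace Pool.Agent.Helper606.FW
open Complex Metric Set MeasureTheory Filter Topology


theorem tower (m : ℕ) (hm : 3 ≤ m) (Y : ℕ → Set ℂ)
    (hY : ∀ i, ∀ y : ℂ, y ^ m + (aa i : ℂ) ∈ Y (i + 1) → y ∈ Y i) (j : ℕ) (i : ℕ) (w : ℂ)
    (hw : w ∈ Y (i + j + 1)) (hw1 : 1 + aa (i + j) / 2 ≤ ‖(aa (i + j) : ℂ) - w‖) :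
    ∃ S : Finset ℂ, (∀ x ∈ S, x ∈ Y i) ∧ S.card = m ^ (j + 1) ∧
      (∀ z : ℂ, ∏ x ∈ S, (z - x) = orb m i (j + 1) z - w) ∧
      ((m : ℝ) ^ (j + 1)) ^ (m ^ (j + 1)) * (1 + aa (i + j) / 2) ^ ((m - 1) * m ^ j) ≤ DD S := by
  have hm1 : 1 ≤ m := by omega
  induction j generalizing i with
  | zero =>
    simp only [add_zero, zero_add] at hw hw1 ⊢
    have hpos := (aa_facts i).1
    have hne : (aa i : ℂ) ∉ ({w} : Finset ℂ) := by
      rw [Finset.mem_singleton]
      intro h
      rw [h, sub_self, norm_zero] at hw1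
      linarith
    obtain ⟨T, h1, h2, h3, h4⟩ := pre_exists m hm1 (aa i : ℂ) {w} hne
    have h5 := pre_dd m hm1 (aa i : ℂ) {w} T hne h1 h2 h3 h4
    have hDD : DD ({w} : Finset ℂ) = 1 := by
      simp [DD]
    refine ⟨T, ?_, ?_, ?_, ?_⟩
    · intro x hx
      apply hY i x
      have := h2 x hx
      rw [Finset.mem_singleton] at this
      rw [this]; exact hw
    · simpa using h1
    · intro z
      rw [h3 z]
      simp [orb]
    · rw [h5, hDD]
      simp only [Finset.card_singleton, mul_one, Finset.prod_singleton, one_pow, pow_one, pow_zero]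
      exact mul_le_mul_of_nonneg_left
        (pow_le_pow_left₀ (by linarith) hw1 _) (by positivity)
  | succ j ih =>
    have hidx : i + (j + 1) = i + 1 + j := by ring
    obtain ⟨S, hS1, hS2, hS3, hS4⟩ := ih (i + 1) (by rw [← hidx]; exact hw)
      (by rw [← hidx]; exact hw1)
    have hpos := (aa_facts i).1
    have hposj := (aa_facts (i + (j + 1))).1
    have hprod := hS3 (aa i : ℂ)
    have horb := orb_bound m hm (j + 1) i (by omega) (aa i : ℂ) (by
      rw [Complex.norm_real, Real.norm_eq_abs, abs_of_pos hpos]; linarith)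
    have hnorm : 1 ≤ ‖∏ s ∈ S, ((aa i : ℂ) - s)‖ := by
      rw [hprod]
      have h1 : ‖(aa (i + (j + 1)) : ℂ) - w‖ ≤ ‖orb m (i + 1) (j + 1) (aa i : ℂ) - w‖ +
          ‖orb m (i + 1) (j + 1) (aa i : ℂ) - (aa (i + (j + 1)) : ℂ)‖ := by
        have : (aa (i + (j + 1)) : ℂ) - w = (orb m (i + 1) (j + 1) (aa i : ℂ) - w) -
          (orb m (i + 1) (j + 1) (aa i : ℂ) - (aa (i + (j + 1)) : ℂ)) := by ring
        rw [this]
        exact norm_sub_le _ _
      linarith
    have hne : (aa i : ℂ) ∉ S := by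
      intro h
      rw [Finset.prod_eq_zero h (sub_self _), norm_zero] at hnorm
      linarith
    obtain ⟨T, h1, h2, h3, h4⟩ := pre_exists m hm1 (aa i : ℂ) S hne
    have h5 := pre_dd m hm1 (aa i : ℂ) S T hne h1 h2 h3 h4
    refine ⟨T, ?_, ?_, ?_, ?_⟩
    · intro x hx
      exact hY i x (hS1 _ (h2 x hx))
    · rw [h1, hS2]; ring
    · intro z
      rw [h3 z]
      have := hS3 (z ^ m + (aa i : ℂ))
      rw [this]
      rfl
    · rw [h5, hS2]
      rw [← hidx] at hS4
      set A : ℝ := ((m : ℝ) ^ (j + 1)) ^ (m ^ (j + 1)) * (1 + aa (i + (j + 1)) / 2) ^ ((m - 1) * m ^ j)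
        with hA
      have hA0 : 0 ≤ A := by
        have : (0:ℝ) ≤ 1 + aa (i + (j + 1)) / 2 := by linarith
        positivity
      have e1 : ((m : ℝ) ^ (j + 1 + 1)) ^ (m ^ (j + 1 + 1)) *
          (1 + aa (i + (j + 1)) / 2) ^ ((m - 1) * m ^ (j + 1)) =
          (m : ℝ) ^ (m * m ^ (j + 1)) * 1 * A ^ m := by
        rw [hA, mul_pow, ← pow_mul, ← pow_mul, ← pow_mul, ← pow_mul, mul_one]
        have e2 : (m - 1) * m ^ j * m = (m - 1) * m ^ (j + 1) := by ring
        have e3 : (j + 1 + 1) * m ^ (j + 1 + 1) = m * m ^ (j + 1) + (j + 1) * m ^ (j + 1) * m := by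
          ring
        have e4 : (j + 1) * (m ^ (j + 1) * m) = (j + 1) * m ^ (j + 1) * m := by ring
        rw [e3, pow_add]
        first
          | rw [e4, e2, mul_assoc]
          | rw [e2, mul_assoc]
      rw [e1]
      refine mul_le_mul (mul_le_mul_of_nonneg_left (one_le_pow₀ hnorm) (by positivity))
        (pow_le_pow_left₀ hA0 hS4 _) (by positivity) (by positivity)

end Pool.Agent.Helper606.FW
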