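import Pool.Agent.Helper606.FW.Defs
import Pool.Agent.Helper606.FW.P_aa_facts
import Pool.Agent.Helper606.FW.P_tower
import Pool.Agent.Helper606.FW.P_dd_disc
import Pool.Agent.Helper606.FW.P_disc_bdd

set_option autoImplicit false

namespace Pool.Agent.Helper606.FW
open Complex Metric Set MeasureTheory Filter Topology


theorem FF_lower (m : ℕ) (hm1 : 10 ^ 7 ≤ m) (Y : ℕ → Set ℂ)
    (hY : ∀ i, ∀ y : ℂ, y ^ m + (aa i : ℂ) ∈ Y (i + 1) → y ∈ Y i)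
    (hb : Bornology.IsBounded (Y 0))
    (hw : ∀ k, ∃ w ∈ Y (k + 1), ‖w + 1‖ ≤ 128 * aa (k + 1)) (j : ℕ) :
    (10 : ℝ) ^ j ≤ FF (m ^ (j + 1)) (Y 0) := by
  obtain ⟨ha0, ha1, ha2⟩ := aa_facts j
  obtain ⟨w, hwY, hw2⟩ := hw j
  rw [ha2] at hw2
  have hm3 : 3 ≤ m := by
    have : (3 : ℕ) ≤ 10 ^ 7 := by norm_num
    omega
  have hmR : (10 : ℝ) ^ 7 ≤ m := by exact_mod_cast hm1
  have hw1 : 1 + aa j / 2 ≤ ‖(aa j : ℂ) - w‖ := by
    have e : (aa j : ℂ) - w = ((aa j : ℂ) + 1) - (w + 1) := by ring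
    have h1 : ‖(aa j : ℂ) + 1‖ = aa j + 1 := by
      have : (aa j : ℂ) + 1 = ((aa j + 1 : ℝ) : ℂ) := by push_cast; ring
      rw [this, Complex.norm_real, Real.norm_of_nonneg (by linarith)]
    have h2 := norm_sub_norm_le ((aa j : ℂ) + 1) (w + 1)
    rw [← e, h1] at h2
    have h3 : 128 * (aa j / 10 ^ 6) ≤ aa j / 2 := by
      have : 128 * (aa j / 10 ^ 6) = (128 / 10 ^ 6) * aa j := by ring
      rw [this]
      have h4 : (128 : ℝ) / 10 ^ 6 ≤ 1 / 2 := by norm_num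
      nlinarith
    linarith
  have e0 : 0 + j = j := by omega
  obtain ⟨S, hS1, hS2, _, hS4⟩ := tower m hm3 Y hY j 0 w (by rw [e0]; exact hwY) (by
    rw [e0]; exact hw1)
  rw [e0] at hS4
  have hle : DD S ≤ maxDisc (m ^ (j + 1)) (Y 0) := by
    rw [← hS2]
    exact le_csSup (disc_bdd _ _ hb) (dd_disc S (Y 0) hS1)
  have hnpos : (0 : ℝ) < ((m : ℝ) ^ (j + 1)) ^ (m ^ (j + 1)) := by
    have : (0 : ℝ) < m := by linarith [show (0 : ℝ) < 10 ^ 7 by norm_num]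
    positivity
  have hdiv : (1 + aa j / 2) ^ ((m - 1) * m ^ j) ≤
      maxDisc (m ^ (j + 1)) (Y 0) / ((m ^ (j + 1) : ℕ) : ℝ) ^ (m ^ (j + 1)) := by
    rw [Nat.cast_pow, le_div_iff₀ hnpos]
    calc (1 + aa j / 2) ^ ((m - 1) * m ^ j) * ((m : ℝ) ^ (j + 1)) ^ (m ^ (j + 1)) =
        ((m : ℝ) ^ (j + 1)) ^ (m ^ (j + 1)) * (1 + aa j / 2) ^ ((m - 1) * m ^ j) := by ring
      _ ≤ DD S := hS4
      _ ≤ _ := hle
  have hpos1 : 0 < (1 + aa j / 2) ^ ((m - 1) * m ^ j) := by positivity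
  have hlog := Real.log_le_log hpos1 hdiv
  rw [Real.log_pow] at hlog
  have hlog2 : aa j / 4 ≤ Real.log (1 + aa j / 2) := by
    have hp : 0 < 1 + aa j / 2 := by linarith
    have h1 := Real.one_sub_inv_le_log_of_pos hp
    refine le_trans ?_ h1
    have e : 1 - (1 + aa j / 2)⁻¹ = (aa j / 2) / (1 + aa j / 2) := by
      field_simp
      ring
    rw [e, le_div_iff₀ hp]
    have h5 : (1 : ℝ) / 10 ^ 6 ≤ 1 := by norm_num
    nlinarith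
  have hcast : (((m - 1) * m ^ j : ℕ) : ℝ) = ((m : ℝ) - 1) * (m : ℝ) ^ j := by
    rw [Nat.cast_mul, Nat.cast_sub (by omega), Nat.cast_pow]
    push_cast
    ring
  rw [hcast] at hlog
  have hmj : (0 : ℝ) < (m : ℝ) ^ j := by
    have : (0 : ℝ) < m := by linarith [show (0 : ℝ) < 10 ^ 7 by norm_num]
    positivity
  have hm1' : (0 : ℝ) ≤ (m : ℝ) - 1 := by linarith [show (1 : ℝ) ≤ 10 ^ 7 by norm_num]
  have hfin : (m : ℝ) ^ (j + 1) * aa j ≤ 8 * (((m : ℝ) - 1) * (m : ℝ) ^ j * Real.log (1 + aa j / 2)) := by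
    have h1 : ((m : ℝ) - 1) * (m : ℝ) ^ j * (aa j / 4) ≤
        ((m : ℝ) - 1) * (m : ℝ) ^ j * Real.log (1 + aa j / 2) :=
      mul_le_mul_of_nonneg_left hlog2 (mul_nonneg hm1' hmj.le)
    have h2 : (m : ℝ) ≤ 2 * ((m : ℝ) - 1) := by linarith [show (2 : ℝ) ≤ 10 ^ 7 by norm_num]
    have h3 : (m : ℝ) * ((m : ℝ) ^ j * aa j) ≤ 2 * ((m : ℝ) - 1) * ((m : ℝ) ^ j * aa j) :=
      mul_le_mul_of_nonneg_right h2 (mul_nonneg hmj.le ha0.le)
    have h4 : (m : ℝ) ^ (j + 1) * aa j = (m : ℝ) * ((m : ℝ) ^ j * aa j) := by ring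
    rw [h4]
    nlinarith
  have hgoal : (10 : ℝ) ^ j ≤ (m : ℝ) ^ (j + 1) * aa j := by
    unfold aa
    rw [← mul_pow]
    have h1 : (10 : ℝ) ≤ (m : ℝ) * (1 / 10 ^ 6) := by
      have h9 : (10 : ℝ) = 10 ^ 7 * (1 / 10 ^ 6) := by norm_num
      exact h9.le.trans (mul_le_mul_of_nonneg_right hmR (by positivity))
    calc (10 : ℝ) ^ j ≤ 10 ^ (j + 1) := pow_le_pow_right₀ (by norm_num) (by omega)
      _ ≤ _ := pow_le_pow_left₀ (by norm_num) h1 _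
  unfold FF
  calc (10 : ℝ) ^ j ≤ (m : ℝ) ^ (j + 1) * aa j := hgoal
    _ ≤ 8 * (((m : ℝ) - 1) * (m : ℝ) ^ j * Real.log (1 + aa j / 2)) := hfin
    _ ≤ 8 * Real.log (maxDisc (m ^ (j + 1)) (Y 0) / ((m ^ (j + 1) : ℕ) : ℝ) ^ (m ^ (j + 1))) := by
        linarith

end Pool.Agent.Helper606.FW
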