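import Pool.Agent.Helper606.FW.Defs

set_option autoImplicit false

namespace Pool.Agent.Helper606.FW
open Complex Metric Set MeasureTheory Filter Topology


theorem cls_lip (ε : ℝ) (F : ℂ → ℂ) (h : Cls ε F) (z w : ℂ) (hz : ‖z‖ < 1) (hw : ‖w‖ < 1) :
    ‖(F z - z) - (F w - w)‖ ≤ ε * ‖z - w‖ := by
  have hzb : z ∈ ball (0 : ℂ) 1 := by simpa using hz
  have hwb : w ∈ ball (0 : ℂ) 1 := by simpa using hw
  refine Convex.norm_image_sub_le_of_norm_hasDerivWithin_le (f := fun z => F z - z)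
    (f' := fun z => deriv F z - 1) (s := ball (0 : ℂ) 1) (C := ε) ?_ h.der
    (convex_ball (0 : ℂ) 1) hwb hzb
  intro x hx
  have h1 : HasDerivAt F (deriv F x) x :=
    ((h.diff x hx).differentiableAt (isOpen_ball.mem_nhds hx)).hasDerivAt
  exact (h1.sub (hasDerivAt_id x)).hasDerivWithinAt

end Pool.Agent.Helper606.FW
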