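import Pool.Agent.Helper606.FW.Defs
import Pool.Agent.Helper606.FW.P_cls_lip

set_option autoImplicit false

namespace Pool.Agent.Helper606.FW
open Complex Metric Set MeasureTheory Filter Topology


theorem cls_dslope (ε : ℝ) (Y : ℂ → ℂ) (h : Cls ε Y) (u : ℂ) (hu : ‖u‖ < 1) :
    ‖dslope Y 0 u - 1‖ ≤ ε := by
  rcases eq_or_ne u 0 with rfl | hu0
  · rw [dslope_same]
    exact h.der 0 (by simp)
  · rw [dslope_of_ne Y hu0, slope_def_field, h.zero, sub_zero, sub_zero]
    have h1 := cls_lip ε Y h u 0 hu (by simp)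
    rw [h.zero, sub_zero, sub_zero, sub_zero] at h1
    have hpos : 0 < ‖u‖ := norm_pos_iff.2 hu0
    have e : Y u / u - 1 = (Y u - u) / u := by
      field_simp
    rw [e, norm_div, div_le_iff₀ hpos]
    exact h1

end Pool.Agent.Helper606.FW
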