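import Pool.Agent.Helper606.FW.Defs
import Pool.Agent.Helper606.FW.P_cls_dslope

set_option autoImplicit false

namespace Pool.Agent.Helper606.FW
open Complex Metric Set MeasureTheory Filter Topology


theorem W_bound (ε : ℝ) (hε0 : 0 ≤ ε) (hε : ε ≤ 1 / 8) (Y : ℂ → ℂ) (h : Cls ε Y) (u : ℂ)
    (hu : ‖u‖ < 1) : ‖deriv Y u / dslope Y 0 u - 1‖ ≤ 3 * ε * ‖u‖ := by
  have hlow : ∀ z : ℂ, ‖z‖ < 1 → 7 / 8 ≤ ‖dslope Y 0 z‖ := by
    intro z hz
    have h1 := cls_dslope ε Y h z hz
    have h2 : ‖(1 : ℂ)‖ - ‖dslope Y 0 z‖ ≤ ‖(1 : ℂ) - dslope Y 0 z‖ := norm_sub_norm_le _ _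
    rw [norm_sub_rev, norm_one] at h2
    linarith
  have hne : ∀ z : ℂ, ‖z‖ < 1 → dslope Y 0 z ≠ 0 := by
    intro z hz h0
    have := hlow z hz
    rw [h0, norm_zero] at this
    linarith
  set W : ℂ → ℂ := fun z => deriv Y z / dslope Y 0 z - 1 with hW
  have hW0 : W 0 = 0 := by
    have h1 : dslope Y 0 0 = deriv Y 0 := dslope_same Y 0
    have h2 := hne 0 (by simp)
    simp only [hW]
    rw [← h1, div_self h2, sub_self]
  have hd : DifferentiableOn ℂ W (ball 0 1) := by
    have hdY : DifferentiableOn ℂ (deriv Y) (ball 0 1) := h.diff.deriv isOpen_ball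
    have hds : DifferentiableOn ℂ (dslope Y 0) (ball 0 1) :=
      (Complex.differentiableOn_dslope (isOpen_ball.mem_nhds (mem_ball_self one_pos))).mpr h.diff
    exact (hdY.div hds (fun z hz => hne z (by simpa using hz))).sub_const 1
  have hmaps : MapsTo W (ball 0 1) (closedBall (W 0) (3 * ε)) := by
    intro z hz
    have hz1 : ‖z‖ < 1 := by simpa using hz
    rw [hW0, mem_closedBall_zero_iff]
    have hn := hne z hz1
    have hl := hlow z hz1
    have h1 := cls_dslope ε Y h z hz1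
    have h2 := h.der z hz
    have e1 : W z = (deriv Y z - dslope Y 0 z) / dslope Y 0 z := by
      simp only [hW]
      rw [sub_div, div_self hn]
    rw [e1, norm_div]
    have h3 : ‖deriv Y z - dslope Y 0 z‖ ≤ 2 * ε := by
      calc ‖deriv Y z - dslope Y 0 z‖ = ‖(deriv Y z - 1) - (dslope Y 0 z - 1)‖ := by ring_nf
        _ ≤ ‖deriv Y z - 1‖ + ‖dslope Y 0 z - 1‖ := norm_sub_le _ _
        _ ≤ 2 * ε := by linarith
    rw [div_le_iff₀ (by linarith)]
    nlinarith
  have hS := Complex.dist_le_div_mul_dist_of_mapsTo_ball hd hmaps (z := u) (by simpa using hu)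
  rw [hW0] at hS
  simpa using hS

end Pool.Agent.Helper606.FW
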