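import Pool.Agent.Helper606.FW.Defs

set_option autoImplicit false

namespace Pool.Agent.Helper606.FW
open Complex Metric Set MeasureTheory Filter Topology


theorem cls_mono (ε ε' : ℝ) (hε : ε ≤ ε') (F : ℂ → ℂ) (h : Cls ε F) : Cls ε' F :=
  ⟨h.diff, h.zero, fun z hz => (h.der z hz).trans hε⟩

end Pool.Agent.Helper606.FW
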