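import Pool.Agent.Helper606.FW.Defs

set_option autoImplicit false

namespace Pool.Agent.Helper606.FW
open Complex Metric Set MeasureTheory Filter Topology


theorem mob_circle (α z : ℂ) (hα : ‖α‖ < 1) (hz : ‖z‖ = 1) : ‖mob α z‖ = 1 := by
  have hzz : z * (starRingEnd ℂ) z = 1 := by
    rw [Complex.mul_conj, Complex.normSq_eq_norm_sq, hz]
    norm_num
  have h1 : 1 + (starRingEnd ℂ) α * z = z * (starRingEnd ℂ) (z + α) := by
    rw [map_add, mul_add, hzz]
    ring
  have h2 : ‖1 + (starRingEnd ℂ) α * z‖ = ‖z + α‖ := by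
    rw [h1, norm_mul, hz, one_mul, Complex.norm_conj]
  have h3 : z + α ≠ 0 := by
    intro h
    have h4 : z = -α := eq_neg_of_add_eq_zero_left h
    rw [h4, norm_neg] at hz
    linarith
  rw [mob, norm_div, h2, div_self (norm_ne_zero_iff.2 h3)]

end Pool.Agent.Helper606.FW
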