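import Pool.Agent.Helper606.FW.Defs

set_option autoImplicit false

namespace Pool.Agent.Helper606.FW
open Complex Metric Set MeasureTheory Filter Topology


theorem mob_inv (α z : ℂ) (hα : ‖α‖ < 1) (hz : ‖z‖ ≤ 1) : mob α (mob (-α) z) = z := by
  have key : ∀ c : ℂ, ‖c‖ < 1 → (1 : ℂ) - c ≠ 0 := by
    intro c hc h
    have h1 : c = 1 := by linear_combination -h
    rw [h1, norm_one] at hc
    exact lt_irrefl _ hc
  have hb : (1 : ℂ) - (starRingEnd ℂ) α * z ≠ 0 := by
    apply key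
    rw [norm_mul, RCLike.norm_conj]
    calc ‖α‖ * ‖z‖ ≤ ‖α‖ * 1 := by gcongr
      _ < 1 := by rw [mul_one]; exact hα
  have hc : (1 : ℂ) - (starRingEnd ℂ) α * α ≠ 0 := by
    apply key
    rw [norm_mul, RCLike.norm_conj]
    calc ‖α‖ * ‖α‖ ≤ ‖α‖ * 1 := by gcongr
      _ < 1 := by rw [mul_one]; exact hα
  have e1 : mob (-α) z = (z - α) / (1 - (starRingEnd ℂ) α * z) := by
    unfold mob
    rw [map_neg]
    congr 1
    ring
  rw [e1]
  unfold mob
  generalize (starRingEnd ℂ) α = b at hb hc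
  have e2 : (z - α) / (1 - b * z) + α = z * (1 - b * α) / (1 - b * z) := by
    rw [eq_div_iff hb, add_mul, div_mul_cancel₀ _ hb]
    ring
  have e3 : 1 + b * ((z - α) / (1 - b * z)) = (1 - b * α) / (1 - b * z) := by
    rw [eq_div_iff hb, add_mul, mul_assoc, div_mul_cancel₀ _ hb]
    ring
  rw [e2, e3, div_div_div_cancel_right₀ hb, mul_div_assoc, div_self hc, mul_one]

end Pool.Agent.Helper606.FW
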