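import Pool.Agent.Helper606.FW.Defs
import Pool.Agent.Helper606.FW.P_mob_circle
import Pool.Agent.Helper606.FW.P_mob_inv

set_option autoImplicit false

namespace Pool.Agent.Helper606.FW
open Complex Metric Set MeasureTheory Filter Topology


theorem pull_f (m : ℕ) (hm : 1 ≤ m) (a : ℝ) (ha0 : 0 ≤ a) (ha : a ≤ 1 / 10 ^ 6) (α : ℂ)
    (hα : ‖α‖ ≤ 2 * a) (f f' : ℂ → ℂ) (hf0 : ∀ z : ℂ, ‖z‖ = 1 → f z ≠ 0)
    (hrel : ∀ z : ℂ, ‖z‖ ≤ 1 → (f z) ^ m + (a : ℂ) = f' (mob α (z ^ m)))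
    (hsym : ∀ ω z : ℂ, ω ^ m = 1 → ‖z‖ ≤ 1 → f (ω * z) = ω * f z)
    (y ξ : ℂ) (hξ : ‖ξ‖ = 1) (h : y ^ m + (a : ℂ) = f' ξ) : ∃ ζ : ℂ, ‖ζ‖ = 1 ∧ f ζ = y := by
  have hm0 : m ≠ 0 := by omega
  have hα1 : ‖α‖ < 1 := by
    have h1 : (1 : ℝ) / 10 ^ 6 < 1 / 2 := by norm_num
    linarith
  have hα1' : ‖-α‖ < 1 := by rwa [norm_neg]
  have hτ : ‖mob (-α) ξ‖ = 1 := mob_circle (-α) ξ hα1' hξ
  have hτ2 : mob α (mob (-α) ξ) = ξ := mob_inv α ξ hα1 hξ.le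
  obtain ⟨ζ0, hζ0⟩ := IsAlgClosed.exists_pow_nat_eq (mob (-α) ξ) (show 0 < m by omega)
  have hn : ‖ζ0‖ = 1 := by
    have h1 : ‖ζ0‖ ^ m = 1 := by rw [← norm_pow, hζ0, hτ]
    exact (pow_eq_one_iff_of_nonneg (norm_nonneg _) hm0).1 h1
  have h1 := hrel ζ0 hn.le
  rw [hζ0, hτ2, ← h] at h1
  have h2 : (f ζ0) ^ m = y ^ m := add_right_cancel h1
  have h3 := hf0 ζ0 hn
  have hω : (y / f ζ0) ^ m = 1 := by
    rw [div_pow, ← h2]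
    exact div_self (pow_ne_zero _ h3)
  have hωn : ‖y / f ζ0‖ = 1 := by
    have h4 : ‖y / f ζ0‖ ^ m = 1 := by rw [← norm_pow, hω, norm_one]
    exact (pow_eq_one_iff_of_nonneg (norm_nonneg _) hm0).1 h4
  refine ⟨y / f ζ0 * ζ0, ?_, ?_⟩
  · rw [norm_mul, hωn, hn, one_mul]
  · rw [hsym _ _ hω hn.le]
    exact div_mul_cancel₀ y h3

end Pool.Agent.Helper606.FW
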