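import Pool.Agent.Helper606.FW.Defs

set_option autoImplicit false

namespace Pool.Agent.Helper606.FW
open Complex Metric Set MeasureTheory Filter Topology


theorem pull_g (m : ℕ) (hm : 1 ≤ m) (a : ℝ) (g g' : ℂ → ℂ) (hg0 : ∀ z : ℂ, ‖z‖ = 1 → g z ≠ 0)
    (hrel : ∀ z : ℂ, ‖z‖ = 1 → (g z) ^ m + (a : ℂ) = g' (z ^ m))
    (hsym : ∀ ω z : ℂ, ω ^ m = 1 → ‖z‖ = 1 → g (ω * z) = ω * g z)
    (y ξ : ℂ) (hξ : ‖ξ‖ = 1) (h : y ^ m + (a : ℂ) = g' ξ) : ∃ ζ : ℂ, ‖ζ‖ = 1 ∧ g ζ = y := by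
  have hm0 : m ≠ 0 := by omega
  obtain ⟨ζ0, hζ0⟩ := IsAlgClosed.exists_pow_nat_eq ξ (show 0 < m by omega)
  have hn : ∀ w : ℂ, ‖w ^ m‖ = 1 → ‖w‖ = 1 := by
    intro w hw
    rw [norm_pow] at hw
    exact (pow_eq_one_iff_of_nonneg (norm_nonneg w) hm0).mp hw
  have hz : ‖ζ0‖ = 1 := hn ζ0 (by rw [hζ0]; exact hξ)
  have hr := hrel ζ0 hz
  rw [hζ0, ← h] at hr
  have hp : (g ζ0) ^ m = y ^ m := add_right_cancel hr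
  have hg := hg0 ζ0 hz
  have hω : (y / g ζ0) ^ m = 1 := by
    rw [div_pow, ← hp, div_self (pow_ne_zero m hg)]
  have hωn : ‖y / g ζ0‖ = 1 := hn _ (by rw [hω]; simp)
  refine ⟨y / g ζ0 * ζ0, ?_, ?_⟩
  · rw [norm_mul, hωn, hz, one_mul]
  · rw [hsym _ _ hω hz, div_mul_cancel₀ _ hg]

end Pool.Agent.Helper606.FW
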