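import Pool.Agent.Helper606.FW.Defs

set_option autoImplicit false

namespace Pool.Agent.Helper606.FW
open Complex Metric Set MeasureTheory Filter Topology


theorem pullback (m : ℕ) (hm : 20 ≤ m) (a : ℝ) (x x' y' : ℂ) (h : x ^ m + (a : ℂ) = x')
    (hx : ‖x‖ ≤ 2) (hx' : 9 / 10 ≤ ‖x' - (a : ℂ)‖) (δ : ℝ) (hδ0 : 0 ≤ δ) (hδ : δ ≤ 1 / 10)
    (hy : ‖y' - x'‖ ≤ δ) : ∃ y : ℂ, y ^ m + (a : ℂ) = y' ∧ ‖y - x‖ ≤ δ / 2 := by
  have hne : x' - (a : ℂ) ≠ 0 := by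
    intro h0
    rw [h0, norm_zero] at hx'
    norm_num at hx'
  have hm0 : (m : ℂ) ≠ 0 := by
    have : m ≠ 0 := by omega
    exact_mod_cast this
  obtain ⟨z, hz⟩ : ∃ z : ℂ, z = (y' - x') / (x' - (a : ℂ)) := ⟨_, rfl⟩
  have hz1 : ‖z‖ ≤ 10 / 9 * δ := by
    rw [hz, norm_div, div_le_iff₀ (by linarith)]
    nlinarith
  have hz2 : ‖z‖ ≤ 1 / 2 := by linarith
  have hz3 : 1 + z ≠ 0 := by
    intro h0
    have : z = -1 := by linear_combination h0
    rw [this, norm_neg, norm_one] at hz2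
    norm_num at hz2
  have hlog := Complex.norm_log_one_add_half_le_self hz2
  obtain ⟨t, ht⟩ : ∃ t : ℂ, t = Complex.log (1 + z) / m := ⟨_, rfl⟩
  have hmR : (20 : ℝ) ≤ m := by exact_mod_cast hm
  have ht1 : ‖t‖ ≤ δ / 12 := by
    rw [ht, norm_div, Complex.norm_natCast, div_le_iff₀ (by linarith)]
    nlinarith
  have ht2 : ‖t‖ ≤ 1 := by linarith
  have hexp := Complex.norm_exp_sub_one_le ht2
  refine ⟨x * Complex.exp t, ?_, ?_⟩
  · rw [mul_pow, ← Complex.exp_nat_mul, ht, mul_div_cancel₀ _ hm0, Complex.exp_log hz3]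
    have h1 : x ^ m = x' - (a : ℂ) := by linear_combination h
    rw [h1, hz]
    field_simp
    ring
  · have h2 : x * Complex.exp t - x = x * (Complex.exp t - 1) := by ring
    rw [h2, norm_mul]
    calc ‖x‖ * ‖Complex.exp t - 1‖ ≤ 2 * (2 * ‖t‖) :=
          mul_le_mul hx hexp (norm_nonneg _) (by norm_num)
      _ ≤ δ / 2 := by linarith

end Pool.Agent.Helper606.FW
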