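import Pool.Agent.Helper606.FW.Defs
import Pool.Agent.Helper606.FW.P_aa_facts
import Pool.Agent.Helper606.FW.P_pullback

set_option autoImplicit false

namespace Pool.Agent.Helper606.FW
open Complex Metric Set MeasureTheory Filter Topology


theorem shadow (m : ℕ) (hm : 20 ≤ m) (X Y : ℕ → Set ℂ)
    (hX : ∀ i, ∀ x ∈ X i, x ^ m + (aa i : ℂ) ∈ X (i + 1))
    (hY : ∀ i, ∀ y : ℂ, y ^ m + (aa i : ℂ) ∈ Y (i + 1) → y ∈ Y i)
    (hXn : ∀ i, ∀ x ∈ X i, 99 / 100 ≤ ‖x‖ ∧ ‖x‖ ≤ 101 / 100)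
    (near : ∀ i, ∀ x ∈ X i, ∃ y ∈ Y i, ‖y - x‖ ≤ 1 / 10) (hc : ∀ i, IsClosed (Y i)) (i : ℕ) :
    X i ⊆ Y i := by
  have key : ∀ k : ℕ, ∀ i, ∀ x ∈ X i, ∃ y ∈ Y i, ‖y - x‖ ≤ (1 / 2) ^ k / 10 := by
    intro k
    induction k with
    | zero =>
      intro i x hx
      obtain ⟨y, hy, h⟩ := near i x hx
      exact ⟨y, hy, by simpa using h⟩
    | succ k ih =>
      intro i x hx
      obtain ⟨y', hy', h'⟩ := ih (i + 1) _ (hX i x hx)
      obtain ⟨ha0, ha1, -⟩ := aa_facts i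
      have hδ0 : (0 : ℝ) ≤ (1 / 2) ^ k / 10 := by positivity
      have hδ : ((1 / 2 : ℝ)) ^ k / 10 ≤ 1 / 10 := by
        have : ((1 / 2 : ℝ)) ^ k ≤ 1 := pow_le_one₀ (by norm_num) (by norm_num)
        linarith
      have hx2 : ‖x‖ ≤ 2 := (hXn i x hx).2.trans (by norm_num)
      have hx' : 9 / 10 ≤ ‖(x ^ m + (aa i : ℂ)) - (aa i : ℂ)‖ := by
        have h1 := (hXn (i + 1) _ (hX i x hx)).1
        have h2 := norm_sub_norm_le (x ^ m + (aa i : ℂ)) (aa i : ℂ)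
        have h3 : ‖(aa i : ℂ)‖ = aa i := by
          rw [Complex.norm_real, Real.norm_eq_abs, abs_of_pos ha0]
        rw [h3] at h2
        have h4 : (1 : ℝ) / 10 ^ 6 ≤ 1 / 100 := by norm_num
        linarith
      obtain ⟨y, hy, hyx⟩ := pullback m hm (aa i) x _ y' rfl hx2 hx' _ hδ0 hδ h'
      refine ⟨y, hY i y (by rw [hy]; exact hy'), hyx.trans (le_of_eq ?_)⟩
      rw [pow_succ]; ring
  intro x hx
  rw [← (hc i).closure_eq, Metric.mem_closure_iff]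
  intro ε hε
  obtain ⟨k, hk⟩ := exists_pow_lt_of_lt_one hε (by norm_num : (1 / 2 : ℝ) < 1)
  obtain ⟨y, hy, h⟩ := key k i x hx
  refine ⟨y, hy, ?_⟩
  rw [dist_comm, dist_eq_norm]
  have h0 : (0 : ℝ) < (1 / 2) ^ k := by positivity
  linarith

end Pool.Agent.Helper606.FW
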