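import Pool.Agent.Helper606.FW.Defs
import Pool.Agent.Helper606.FW.P_mob_circle
import Pool.Agent.Helper606.FW.P_aa_facts
import Pool.Agent.Helper606.FW.P_pull_f
import Pool.Agent.Helper606.FW.P_pull_g
import Pool.Agent.Helper606.FW.P_shadow

set_option autoImplicit false

namespace Pool.Agent.Helper606.FW
open Complex Metric Set MeasureTheory Filter Topology


theorem ce_bounds (k : ℕ → ℂ → ℂ) (hk : ∀ i, ∀ z : ℂ, ‖z‖ = 1 → ‖k i z - z‖ ≤ 128 * aa i)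
    (i : ℕ) (z : ℂ) (hz : ‖z‖ = 1) : 99 / 100 ≤ ‖k i z‖ ∧ ‖k i z‖ ≤ 101 / 100 := by
  obtain ⟨a1, a2, _⟩ := aa_facts i
  have h1 := hk i z hz
  have h2 : ‖k i z‖ ≤ ‖k i z - z‖ + ‖z‖ := by
    have := norm_add_le (k i z - z) z
    rwa [sub_add_cancel] at this
  have h3 : ‖z‖ ≤ ‖k i z - z‖ + ‖k i z‖ := by
    have := norm_sub_le (k i z) (k i z - z)
    rw [sub_sub_cancel] at this
    linarith
  rw [hz] at h2 h3
  norm_num at a2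
  constructor <;> linarith

theorem ce_near (k k' : ℕ → ℂ → ℂ) (hk : ∀ i, ∀ z : ℂ, ‖z‖ = 1 → ‖k i z - z‖ ≤ 128 * aa i)
    (hk' : ∀ i, ∀ z : ℂ, ‖z‖ = 1 → ‖k' i z - z‖ ≤ 128 * aa i)
    (i : ℕ) (z : ℂ) (hz : ‖z‖ = 1) : ‖k' i z - k i z‖ ≤ 1 / 10 := by
  obtain ⟨a1, a2, _⟩ := aa_facts i
  have h1 := hk i z hz
  have h2 := hk' i z hz
  have h3 : ‖k' i z - k i z‖ ≤ ‖k' i z - z‖ + ‖k i z - z‖ := by
    have := norm_sub_le (k' i z - z) (k i z - z)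
    rwa [sub_sub_sub_cancel_right] at this
  norm_num at a2
  linarith

theorem curves_eq (m : ℕ) (hm1 : 10 ^ 7 ≤ m) (f g : ℕ → ℂ → ℂ) (α : ℕ → ℂ)
    (hfc : ∀ i, ContinuousOn (f i) (sphere 0 1)) (hgc : ∀ i, ContinuousOn (g i) (sphere 0 1))
    (hfn : ∀ i, ∀ z : ℂ, ‖z‖ = 1 → ‖f i z - z‖ ≤ 128 * aa i)
    (hgn : ∀ i, ∀ z : ℂ, ‖z‖ = 1 → ‖g i z - z‖ ≤ 128 * aa i)
    (hα : ∀ i, ‖α i‖ ≤ 2 * aa i)
    (hf : ∀ i, ∀ z : ℂ, ‖z‖ ≤ 1 → (f i z) ^ m + (aa i : ℂ) = f (i + 1) (mob (α i) (z ^ m)))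
    (hfs : ∀ i, ∀ ω z : ℂ, ω ^ m = 1 → ‖z‖ ≤ 1 → f i (ω * z) = ω * f i z)
    (hg : ∀ i, ∀ w : ℂ, 1 ≤ ‖w‖ → (g i w) ^ m + (aa i : ℂ) = g (i + 1) (w ^ m))
    (hgs : ∀ i, ∀ ω w : ℂ, ω ^ m = 1 → 1 ≤ ‖w‖ → g i (ω * w) = ω * g i w) (i : ℕ) :
    f i '' sphere 0 1 = g i '' sphere 0 1 := by
  have hm20 : 20 ≤ m := le_trans (by norm_num) hm1
  have hm : 1 ≤ m := le_trans (by norm_num) hm1
  have hf0 : ∀ i, ∀ z : ℂ, ‖z‖ = 1 → f i z ≠ 0 := by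
    intro i z hz h0
    have h1 := (ce_bounds f hfn i z hz).1
    rw [h0, norm_zero] at h1
    norm_num at h1
  have hg0 : ∀ i, ∀ z : ℂ, ‖z‖ = 1 → g i z ≠ 0 := by
    intro i z hz h0
    have h1 := (ce_bounds g hgn i z hz).1
    rw [h0, norm_zero] at h1
    norm_num at h1
  apply Set.Subset.antisymm
  · apply shadow m hm20 (fun i => f i '' sphere 0 1) (fun i => g i '' sphere 0 1)
    · rintro i _ ⟨ζ, hζ, rfl⟩
      rw [mem_sphere_zero_iff_norm] at hζ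
      refine ⟨mob (α i) (ζ ^ m), ?_, (hf i ζ hζ.le).symm⟩
      rw [mem_sphere_zero_iff_norm]
      apply mob_circle
      · obtain ⟨a1, a2, _⟩ := aa_facts i
        have := hα i
        norm_num at a2
        linarith
      · rw [norm_pow, hζ, one_pow]
    · rintro i y ⟨ξ, hξ, h⟩
      rw [mem_sphere_zero_iff_norm] at hξ
      obtain ⟨ζ, hζ, hy⟩ := pull_g m hm (aa i) (g i) (g (i + 1)) (hg0 i)
        (fun z hz => hg i z hz.ge) (fun ω z hω hz => hgs i ω z hω hz.ge) y ξ hξ h.symm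
      exact ⟨ζ, by rw [mem_sphere_zero_iff_norm]; exact hζ, hy⟩
    · rintro i _ ⟨ζ, hζ, rfl⟩
      rw [mem_sphere_zero_iff_norm] at hζ
      exact ce_bounds f hfn i ζ hζ
    · rintro i _ ⟨ζ, hζ, rfl⟩
      refine ⟨g i ζ, ⟨ζ, hζ, rfl⟩, ?_⟩
      rw [mem_sphere_zero_iff_norm] at hζ
      exact ce_near f g hfn hgn i ζ hζ
    · intro i
      exact ((isCompact_sphere 0 1).image_of_continuousOn (hgc i)).isClosed
  · apply shadow m hm20 (fun i => g i '' sphere 0 1) (fun i => f i '' sphere 0 1)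
    · rintro i _ ⟨ζ, hζ, rfl⟩
      rw [mem_sphere_zero_iff_norm] at hζ
      refine ⟨ζ ^ m, ?_, (hg i ζ hζ.ge).symm⟩
      rw [mem_sphere_zero_iff_norm, norm_pow, hζ, one_pow]
    · rintro i y ⟨ξ, hξ, h⟩
      rw [mem_sphere_zero_iff_norm] at hξ
      obtain ⟨a1, a2, _⟩ := aa_facts i
      obtain ⟨ζ, hζ, hy⟩ := pull_f m hm (aa i) a1.le a2 (α i) (hα i) (f i) (f (i + 1)) (hf0 i)
        (fun z hz => hf i z hz) (fun ω z hω hz => hfs i ω z hω hz) y ξ hξ h.symm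
      exact ⟨ζ, by rw [mem_sphere_zero_iff_norm]; exact hζ, hy⟩
    · rintro i _ ⟨ζ, hζ, rfl⟩
      rw [mem_sphere_zero_iff_norm] at hζ
      exact ce_bounds g hgn i ζ hζ
    · rintro i _ ⟨ζ, hζ, rfl⟩
      refine ⟨f i ζ, ⟨ζ, hζ, rfl⟩, ?_⟩
      rw [mem_sphere_zero_iff_norm] at hζ
      exact ce_near g f hgn hfn i ζ hζ
    · intro i
      exact ((isCompact_sphere 0 1).image_of_continuousOn (hfc i)).isClosed

end Pool.Agent.Helper606.FW
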