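import Pool.Agent.Helper606.FW.Defs

set_option autoImplicit false

namespace Pool.Agent.Helper606.FW
open Complex Metric Set MeasureTheory Filter Topology


theorem mob_mem (α z : ℂ) (hα : ‖α‖ < 1) (hz : ‖z‖ < 1) : ‖mob α z‖ < 1 := by
  have key : ‖1 + (starRingEnd ℂ) α * z‖ ^ 2 - ‖z + α‖ ^ 2 = (1 - ‖z‖ ^ 2) * (1 - ‖α‖ ^ 2) := by
    rw [Complex.sq_norm, Complex.sq_norm, Complex.sq_norm, Complex.sq_norm,
      Complex.normSq_apply, Complex.normSq_apply, Complex.normSq_apply, Complex.normSq_apply]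
    simp only [Complex.add_re, Complex.add_im, Complex.mul_re, Complex.mul_im, Complex.conj_re,
      Complex.conj_im, Complex.one_re, Complex.one_im]
    ring
  have hz2 : 0 < 1 - ‖z‖ ^ 2 := by
    have := norm_nonneg z
    nlinarith
  have ha2 : 0 < 1 - ‖α‖ ^ 2 := by
    have := norm_nonneg α
    nlinarith
  have hpos : 0 < (1 - ‖z‖ ^ 2) * (1 - ‖α‖ ^ 2) := mul_pos hz2 ha2
  have hlt : ‖z + α‖ < ‖1 + (starRingEnd ℂ) α * z‖ := by
    apply lt_of_pow_lt_pow_left₀ 2 (norm_nonneg _)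
    linarith
  unfold mob
  rw [norm_div, div_lt_one (lt_of_le_of_lt (norm_nonneg _) hlt)]
  exact hlt

end Pool.Agent.Helper606.FW
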