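import Pool.Agent.Helper606.FW.Defs
import Pool.Agent.Helper606.FW.P_mob_mem
import Pool.Agent.Helper606.FW.P_mob_circle
import Pool.Agent.Helper606.FW.P_aa_facts

set_option autoImplicit false

namespace Pool.Agent.Helper606.FW
open Complex Metric Set MeasureTheory Filter Topology


theorem disj_in_out (m : ℕ) (hm1 : 10 ^ 7 ≤ m) (f g : ℕ → ℂ → ℂ) (α : ℕ → ℂ)
    (hα : ∀ i, ‖α i‖ ≤ 2 * aa i)
    (hfb : ∀ i, ∀ z : ℂ, ‖z‖ ≤ 1 → ‖f i z‖ ≤ 2)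
    (hgb : ∀ i, ∀ w : ℂ, 1 ≤ ‖w‖ → ‖w‖ / 2 ≤ ‖g i w‖)
    (hf : ∀ i, ∀ z : ℂ, ‖z‖ ≤ 1 → (f i z) ^ m + (aa i : ℂ) = f (i + 1) (mob (α i) (z ^ m)))
    (hg : ∀ i, ∀ w : ℂ, 1 ≤ ‖w‖ → (g i w) ^ m + (aa i : ℂ) = g (i + 1) (w ^ m))
    (w ζ : ℂ) (hw : 1 < ‖w‖) (hζ : ‖ζ‖ ≤ 1) : g 0 w ≠ f 0 ζ := by
  intro hEq
  have hmob : ∀ i, ∀ z : ℂ, ‖z‖ ≤ 1 → ‖mob (α i) z‖ ≤ 1 := by
    intro i z hz
    have h1 : ‖α i‖ < 1 := by
      have h2 := hα i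
      have h3 := (aa_facts i).2.1
      have h4 : (2:ℝ) * (1 / 10 ^ 6) < 1 := by norm_num
      linarith
    rcases lt_or_eq_of_le hz with h | h
    · exact (mob_mem _ _ h1 h).le
    · exact (mob_circle _ _ h1 h).le
  have key : ∀ k : ℕ, ∃ ζk : ℂ, ‖ζk‖ ≤ 1 ∧ g k (w ^ (m ^ k)) = f k ζk := by
    intro k
    induction k with
    | zero => exact ⟨ζ, hζ, by simpa using hEq⟩
    | succ k ih =>
      obtain ⟨ζk, h1, h2⟩ := ih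
      have hW : 1 ≤ ‖w ^ (m ^ k)‖ := by
        rw [norm_pow]
        exact one_le_pow₀ hw.le
      refine ⟨mob (α k) (ζk ^ m), hmob k _ ?_, ?_⟩
      · rw [norm_pow]
        exact pow_le_one₀ (norm_nonneg _) h1
      · rw [pow_succ m k, pow_mul, ← hg k _ hW, ← hf k ζk h1, h2]
  obtain ⟨n, hn⟩ := pow_unbounded_of_one_lt 4 hw
  have hm2 : 1 < m := lt_of_lt_of_le (by norm_num) hm1
  have hle : n ≤ m ^ n := (Nat.lt_pow_self hm2).le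
  obtain ⟨ζk, h1, h2⟩ := key n
  have hW : 1 ≤ ‖w ^ (m ^ n)‖ := by
    rw [norm_pow]
    exact one_le_pow₀ hw.le
  have h3 := hgb n _ hW
  rw [h2] at h3
  have h4 := hfb n ζk h1
  rw [norm_pow] at h3
  have h5 : ‖w‖ ^ n ≤ ‖w‖ ^ (m ^ n) := pow_le_pow_right₀ hw.le hle
  linarith

end Pool.Agent.Helper606.FW
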