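import Pool.Agent.Helper606.FW.Defs

set_option autoImplicit false

namespace Pool.Agent.Helper606.FW
open Complex Metric Set MeasureTheory Filter Topology


theorem pl_basic (ε : ℝ) (hε0 : 0 ≤ ε) (hε : ε ≤ 1 / 8) (h : ℂ → ℂ) (hP : Pl ε h) (h0 : h 0 = 0) :
    Continuous h ∧ (∀ z, (7 / 8) * ‖z‖ ≤ ‖h z‖ ∧ ‖h z‖ ≤ (9 / 8) * ‖z‖ ∧ ‖h z - z‖ ≤ ε * ‖z‖) ∧
      (∀ z, h z = 0 → z = 0) ∧ Function.Injective h := by
  have hup : ∀ z w, ‖h z - h w‖ ≤ (9 / 8) * ‖z - w‖ := by
    intro z w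
    have h1 := hP z w
    have h2 : h z - h w = ((h z - z) - (h w - w)) + (z - w) := by ring
    have h3 : ‖h z - h w‖ ≤ ‖(h z - z) - (h w - w)‖ + ‖z - w‖ := by
      rw [h2]; exact norm_add_le _ _
    have h4 : ε * ‖z - w‖ ≤ 1 / 8 * ‖z - w‖ := mul_le_mul_of_nonneg_right hε (norm_nonneg _)
    linarith
  have hlo : ∀ z w, (7 / 8) * ‖z - w‖ ≤ ‖h z - h w‖ := by
    intro z w
    have h1 := hP z w
    have h2 : z - w = (h z - h w) - ((h z - z) - (h w - w)) := by ring
    have h3 : ‖z - w‖ ≤ ‖h z - h w‖ + ‖(h z - z) - (h w - w)‖ := by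
      conv_lhs => rw [h2]
      exact norm_sub_le _ _
    have h4 : ε * ‖z - w‖ ≤ 1 / 8 * ‖z - w‖ := mul_le_mul_of_nonneg_right hε (norm_nonneg _)
    linarith
  refine ⟨?_, ?_, ?_, ?_⟩
  · have : LipschitzWith (Real.toNNReal (9 / 8)) h := by
      apply LipschitzWith.of_dist_le_mul
      intro x y
      rw [dist_eq_norm, dist_eq_norm, Real.coe_toNNReal _ (by norm_num)]
      exact hup x y
    exact this.continuous
  · intro z
    have h1 := hlo z 0
    have h2 := hup z 0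
    have h3 := hP z 0
    rw [h0] at h1 h2 h3
    simp only [sub_zero] at h1 h2 h3
    exact ⟨h1, h2, h3⟩
  · intro z hz
    have h1 := hlo z 0
    rw [h0, hz] at h1
    simp only [sub_zero, norm_zero] at h1
    have : ‖z‖ = 0 := le_antisymm (by linarith) (norm_nonneg _)
    exact norm_eq_zero.mp this
  · intro z w hzw
    have h1 := hlo z w
    rw [hzw] at h1
    simp only [sub_self, norm_zero] at h1
    have : ‖z - w‖ = 0 := le_antisymm (by linarith) (norm_nonneg _)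
    exact sub_eq_zero.mp (norm_eq_zero.mp this)

end Pool.Agent.Helper606.FW
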