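import Pool.Agent.Helper606.FW.Defs
import Pool.Agent.Helper606.FW.P_pl_basic

set_option autoImplicit false

namespace Pool.Agent.Helper606.FW
open Complex Metric Set MeasureTheory Filter Topology


theorem gg_bounds (ε : ℝ) (hε0 : 0 ≤ ε) (hε : ε ≤ 1 / 8) (h : ℂ → ℂ) (hP : Pl ε h) (h0 : h 0 = 0)
    (w : ℂ) (hw : 1 ≤ ‖w‖) : h w⁻¹ ≠ 0 ∧ ‖w‖ / 2 ≤ ‖gg h w‖ ∧ ‖gg h w‖ ≤ 2 * ‖w‖ ∧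
      (‖w‖ = 1 → ‖gg h w - w‖ ≤ 2 * ε) := by
  obtain ⟨_, hb, hz0, _⟩ := pl_basic ε hε0 hε h hP h0
  have hw0 : w ≠ 0 := by
    intro h1
    rw [h1, norm_zero] at hw
    linarith
  have hwpos : 0 < ‖w‖ := norm_pos_iff.2 hw0
  have hzne : w⁻¹ ≠ 0 := inv_ne_zero hw0
  have hne : h w⁻¹ ≠ 0 := fun h1 => hzne (hz0 _ h1)
  have hpos : 0 < ‖h w⁻¹‖ := norm_pos_iff.2 hne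
  obtain ⟨h1, h2, h3⟩ := hb w⁻¹
  rw [norm_inv] at h1 h2 h3
  have e1 : ‖w‖⁻¹ * ‖w‖ = 1 := inv_mul_cancel₀ hwpos.ne'
  have e2 : ‖h w⁻¹‖⁻¹ * ‖h w⁻¹‖ = 1 := inv_mul_cancel₀ hpos.ne'
  have hipos : 0 < ‖h w⁻¹‖⁻¹ := inv_pos.2 hpos
  have hiw : 0 < ‖w‖⁻¹ := inv_pos.2 hwpos
  have hgn : ‖gg h w‖ = ‖h w⁻¹‖⁻¹ := by
    unfold gg
    rw [norm_inv]
  have hlow : ‖w‖ ≤ (9 / 8) * ‖h w⁻¹‖⁻¹ := by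
    have h4 : ‖h w⁻¹‖ * (‖w‖ * ‖h w⁻¹‖⁻¹) ≤ (9 / 8) * ‖w‖⁻¹ * (‖w‖ * ‖h w⁻¹‖⁻¹) :=
      mul_le_mul_of_nonneg_right h2 (by positivity)
    have h5 : ‖h w⁻¹‖ * (‖w‖ * ‖h w⁻¹‖⁻¹) = ‖w‖ * (‖h w⁻¹‖⁻¹ * ‖h w⁻¹‖) := by ring
    have h6 : (9 / 8) * ‖w‖⁻¹ * (‖w‖ * ‖h w⁻¹‖⁻¹) = (9 / 8) * (‖w‖⁻¹ * ‖w‖) * ‖h w⁻¹‖⁻¹ := by ring
    rw [h5, h6, e1, e2] at h4
    linarith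
  have hupp : (7 / 8) * ‖h w⁻¹‖⁻¹ ≤ ‖w‖ := by
    have h4 : (7 / 8) * ‖w‖⁻¹ * (‖w‖ * ‖h w⁻¹‖⁻¹) ≤ ‖h w⁻¹‖ * (‖w‖ * ‖h w⁻¹‖⁻¹) :=
      mul_le_mul_of_nonneg_right h1 (by positivity)
    have h5 : ‖h w⁻¹‖ * (‖w‖ * ‖h w⁻¹‖⁻¹) = ‖w‖ * (‖h w⁻¹‖⁻¹ * ‖h w⁻¹‖) := by ring
    have h6 : (7 / 8) * ‖w‖⁻¹ * (‖w‖ * ‖h w⁻¹‖⁻¹) = (7 / 8) * (‖w‖⁻¹ * ‖w‖) * ‖h w⁻¹‖⁻¹ := by ring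
    rw [h5, h6, e1, e2] at h4
    linarith
  refine ⟨hne, ?_, ?_, ?_⟩
  · rw [hgn]; linarith
  · rw [hgn]; linarith
  · intro hw1
    have h70 : ∀ a : ℂ, a ≠ 0 → a⁻¹ - w = (w⁻¹ - a) * (w * a⁻¹) := by
      intro a ha
      field_simp
    have h7 : gg h w - w = (w⁻¹ - h w⁻¹) * (w * (h w⁻¹)⁻¹) := h70 _ hne
    rw [h7, norm_mul, norm_mul, norm_inv, hw1, one_mul, norm_sub_rev]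
    rw [hw1, inv_one, mul_one] at h3
    rw [hw1] at hupp
    have h8 : ‖h w⁻¹‖⁻¹ ≤ 2 := by linarith
    calc ‖h w⁻¹ - w⁻¹‖ * ‖h w⁻¹‖⁻¹ ≤ ε * 2 :=
          mul_le_mul h3 h8 hipos.le hε0
      _ = 2 * ε := by ring

end Pool.Agent.Helper606.FW
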