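import Pool.Agent.Helper606.FW.Defs

set_option autoImplicit false

namespace Pool.Agent.Helper606.FW
open Complex Metric Set MeasureTheory Filter Topology


theorem pl_homeo (ε : ℝ) (hε0 : 0 ≤ ε) (hε : ε ≤ 1 / 2) (H : ℂ → ℂ) (h : Pl ε H) :
    ∃ e : ℂ ≃ₜ ℂ, ∀ z, e z = H z := by
  have hA : ApproximatesLinearOn H ((ContinuousLinearEquiv.refl ℝ ℂ : ℂ ≃L[ℝ] ℂ) : ℂ →L[ℝ] ℂ)
      univ (⟨ε, hε0⟩ : NNReal) := by
    intro x _ y _
    have h1 := h x y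
    have e : H x - H y - ((ContinuousLinearEquiv.refl ℝ ℂ : ℂ ≃L[ℝ] ℂ) : ℂ →L[ℝ] ℂ) (x - y) =
        (H x - x) - (H y - y) := by
      simp
      ring
    rw [e]
    exact h1
  have hc : Subsingleton ℂ ∨ (⟨ε, hε0⟩ : NNReal) <
      ‖((ContinuousLinearEquiv.refl ℝ ℂ).symm : ℂ →L[ℝ] ℂ)‖₊⁻¹ := by
    right
    have h1 : ‖((ContinuousLinearEquiv.refl ℝ ℂ).symm : ℂ →L[ℝ] ℂ)‖₊ = 1 := by
      have : ((ContinuousLinearEquiv.refl ℝ ℂ).symm : ℂ →L[ℝ] ℂ) = ContinuousLinearMap.id ℝ ℂ := by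
        ext <;> simp
      rw [this]
      apply NNReal.coe_injective
      rw [coe_nnnorm]
      exact ContinuousLinearMap.norm_id
    rw [h1, inv_one]
    apply NNReal.coe_lt_coe.1
    show ε < ((1 : NNReal) : ℝ)
    rw [NNReal.coe_one]
    linarith
  exact ⟨hA.toHomeomorph H hc, fun z => rfl⟩

end Pool.Agent.Helper606.FW
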