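import Pool.Agent.Helper606.FW.Defs
import Pool.Agent.Helper606.FW.P_pl_homeo
import Pool.Agent.Helper606.FW.P_pl_basic

set_option autoImplicit false

namespace Pool.Agent.Helper606.FW
open Complex Metric Set MeasureTheory Filter Topology


theorem gg_open (h : ℂ → ℂ) (hP : Pl (1 / 8) h) (h0 : h 0 = 0) :
    IsOpen (gg h '' (closedBall 0 1)ᶜ) ∧ IsClosed (gg h '' (ball 0 1)ᶜ) ∧
      ContinuousOn (gg h) (ball 0 1)ᶜ ∧ InjOn (gg h) (ball 0 1)ᶜ := by
  obtain ⟨e, he⟩ := pl_homeo (1 / 8) (by norm_num) (by norm_num) h hP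
  obtain ⟨hc, hb, hz, hi⟩ := pl_basic (1 / 8) (by norm_num) le_rfl h hP h0
  set g' : ℂ → ℂ := fun y => (e.symm y⁻¹)⁻¹ with hg'
  have hl : ∀ w, g' (gg h w) = w := by
    intro w
    simp only [hg', gg, inv_inv]
    rw [← he, Homeomorph.symm_apply_apply, inv_inv]
  have hr : ∀ y, gg h (g' y) = y := by
    intro y
    simp only [hg', gg, inv_inv]
    rw [← he, Homeomorph.apply_symm_apply, inv_inv]
  have e0 : e.symm 0 = 0 := by
    rw [Homeomorph.symm_apply_eq, he, h0]
  have hbd : ∀ y, ‖g' y‖ ≤ (9 / 8) * ‖y‖ := by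
    intro y
    by_cases hy : y = 0
    · subst hy
      simp [hg', e0]
    · have hz1 : e.symm y⁻¹ ≠ 0 := by
        intro hcon
        rw [Homeomorph.symm_apply_eq, he, h0] at hcon
        exact hy (by simpa using hcon)
      have h2 := (hb (e.symm y⁻¹)).2.1
      rw [← he, Homeomorph.apply_symm_apply, norm_inv] at h2
      simp only [hg']
      rw [norm_inv]
      have p1 : 0 < ‖e.symm y⁻¹‖ := norm_pos_iff.mpr hz1
      have p2 : 0 < ‖y‖ := norm_pos_iff.mpr hy
      rw [inv_le_iff_one_le_mul₀ p1]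
      have h3 : ‖y‖ * ‖y‖⁻¹ ≤ ‖y‖ * ((9 / 8) * ‖e.symm y⁻¹‖) := mul_le_mul_of_nonneg_left h2 p2.le
      rw [mul_inv_cancel₀ p2.ne'] at h3
      linarith
  have hcont : Continuous g' := by
    rw [continuous_iff_continuousAt]
    intro y
    by_cases hy : y = 0
    · subst hy
      have g0 : g' 0 = 0 := by simp [hg', e0]
      rw [ContinuousAt, g0, tendsto_zero_iff_norm_tendsto_zero]
      refine squeeze_zero (fun _ => norm_nonneg _) hbd ?_
      have : Tendsto (fun y : ℂ => (9 / 8) * ‖y‖) (𝓝 0) (𝓝 ((9 / 8) * ‖(0 : ℂ)‖)) :=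
        (continuous_const.mul continuous_norm).tendsto 0
      simpa using this
    · have hz1 : e.symm y⁻¹ ≠ 0 := by
        intro hcon
        rw [Homeomorph.symm_apply_eq, he, h0] at hcon
        exact hy (by simpa using hcon)
      have c1 : ContinuousAt (fun y : ℂ => y⁻¹) y := continuousAt_inv₀ hy
      have c2 : ContinuousAt (fun y : ℂ => e.symm y⁻¹) y :=
        ContinuousAt.comp (g := fun z => e.symm z) e.symm.continuous.continuousAt c1
      exact c2.inv₀ hz1
  have him : ∀ A : Set ℂ, gg h '' A = g' ⁻¹' A := by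
    intro A
    ext y
    constructor
    · rintro ⟨w, hw, rfl⟩
      simpa [hl w] using hw
    · intro hy
      exact ⟨g' y, hy, hr y⟩
  refine ⟨?_, ?_, ?_, ?_⟩
  · rw [him]
    exact (isClosed_closedBall.isOpen_compl).preimage hcont
  · rw [him]
    exact (isOpen_ball.isClosed_compl).preimage hcont
  · intro w hw
    apply ContinuousAt.continuousWithinAt
    have hw0 : w ≠ 0 := by
      rintro rfl
      apply hw
      simp
    have c1 : ContinuousAt (fun y : ℂ => y⁻¹) w := continuousAt_inv₀ hw0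
    have c2 : ContinuousAt (fun y : ℂ => h y⁻¹) w :=
      ContinuousAt.comp (g := h) hc.continuousAt c1
    have c3 : h w⁻¹ ≠ 0 := by
      intro hcon
      exact hw0 (by simpa using hz _ hcon)
    exact c2.inv₀ c3
  · intro w _ w' _ hww
    rw [← hl w, ← hl w', hww]

end Pool.Agent.Helper606.FW
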