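import Pool.Agent.Helper606.FW.Defs

set_option autoImplicit false

namespace Pool.Agent.Helper606.FW
open Complex Metric Set MeasureTheory Filter Topology


theorem gg_rec (m : ℕ) (a : ℝ) (h h' : ℂ → ℂ) (w : ℂ) (hw : h w⁻¹ ≠ 0) (hw' : h' (w ^ m)⁻¹ ≠ 0)
    (rel : (h w⁻¹) ^ m * (1 - (a : ℂ) * h' ((w⁻¹) ^ m)) = h' ((w⁻¹) ^ m)) :
    (gg h w) ^ m + (a : ℂ) = gg h' (w ^ m) := by
  unfold gg
  have e : (w ^ m)⁻¹ = (w⁻¹) ^ m := (inv_pow w m).symm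
  rw [e] at hw' ⊢
  rw [inv_pow]
  have hu : (h w⁻¹) ^ m ≠ 0 := pow_ne_zero _ hw
  generalize (h w⁻¹) ^ m = u at *
  generalize h' ((w⁻¹) ^ m) = v at *
  have h3 : (u⁻¹ + (a : ℂ)) * (u * v) = v⁻¹ * (u * v) := by
    have h4 : (u⁻¹ + (a : ℂ)) * (u * v) = v + a * u * v := by field_simp
    have h5 : v⁻¹ * (u * v) = u := by field_simp
    rw [h4, h5]
    linear_combination -rel
  exact mul_right_cancel₀ (mul_ne_zero hu hw') h3

end Pool.Agent.Helper606.FW
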