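import Pool.Agent.Helper606.FW.Defs
import Pool.Agent.Helper606.FW.P_aa_facts
import Pool.Agent.Helper606.FW.P_gg_bounds
import Pool.Agent.Helper606.FW.P_gg_rec

set_option autoImplicit false

namespace Pool.Agent.Helper606.FW
open Complex Metric Set MeasureTheory Filter Topology


theorem gg_pkg (m : ℕ) (hm1 : 10 ^ 7 ≤ m) (h : ℕ → ℂ → ℂ)
    (hh : ∀ i, Cls (64 * aa i) (h i) ∧ Pl (64 * aa i) (h i) ∧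
      en (h i) < ⊤ ∧ deriv (h i) 0 = 1 ∧
      (∀ z : ℂ, ‖z‖ ≤ 1 → (h i z) ^ m * (1 - (aa i : ℂ) * h (i + 1) (z ^ m)) = h (i + 1) (z ^ m)) ∧
      (∀ ω z : ℂ, ω ^ m = 1 → ‖z‖ ≤ 1 → h i (ω * z) = ω * h i z)) (i : ℕ) :
    (∀ w : ℂ, 1 ≤ ‖w‖ → (gg (h i) w) ^ m + (aa i : ℂ) = gg (h (i + 1)) (w ^ m)) ∧
    (∀ ω w : ℂ, ω ^ m = 1 → 1 ≤ ‖w‖ → gg (h i) (ω * w) = ω * gg (h i) w) ∧
    (∀ w : ℂ, 1 ≤ ‖w‖ → ‖w‖ / 2 ≤ ‖gg (h i) w‖ ∧ ‖gg (h i) w‖ ≤ 2 * ‖w‖) ∧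
    (∀ w : ℂ, ‖w‖ = 1 → ‖gg (h i) w - w‖ ≤ 128 * aa i) := by
  have key : ∀ (j : ℕ) (w : ℂ), 1 ≤ ‖w‖ → h j w⁻¹ ≠ 0 ∧ ‖w‖ / 2 ≤ ‖gg (h j) w‖ ∧
      ‖gg (h j) w‖ ≤ 2 * ‖w‖ ∧ (‖w‖ = 1 → ‖gg (h j) w - w‖ ≤ 2 * (64 * aa j)) := by
    intro j w hw
    obtain ⟨ha0, ha1, -⟩ := aa_facts j
    obtain ⟨hc, hp, -⟩ := hh j
    refine gg_bounds (64 * aa j) (by positivity) ?_ (h j) hp hc.zero w hw
    norm_num at ha1 ⊢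
    linarith
  have hinv : ∀ w : ℂ, 1 ≤ ‖w‖ → ‖w⁻¹‖ ≤ 1 := by
    intro w hw
    rw [norm_inv]
    exact inv_le_one_of_one_le₀ hw
  obtain ⟨hc, hp, hen, hder, hrel, hsym⟩ := hh i
  refine ⟨?_, ?_, ?_, ?_⟩
  · intro w hw
    have hwm : 1 ≤ ‖w ^ m‖ := by
      rw [norm_pow]
      exact one_le_pow₀ hw
    exact gg_rec m (aa i) (h i) (h (i + 1)) w (key i w hw).1 (key (i + 1) (w ^ m) hwm).1
      (hrel w⁻¹ (hinv w hw))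
  · intro ω w hω hw
    have h1 : (ω⁻¹) ^ m = 1 := by rw [inv_pow, hω, inv_one]
    unfold gg
    rw [mul_inv, hsym ω⁻¹ w⁻¹ h1 (hinv w hw), mul_inv, inv_inv]
  · intro w hw
    exact ⟨(key i w hw).2.1, (key i w hw).2.2.1⟩
  · intro w hw
    have := (key i w hw.ge).2.2.2 hw
    linarith

end Pool.Agent.Helper606.FW
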