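import Pool.Agent.Helper606.FW.Defs
import Pool.Agent.Helper606.FW.P_pl_homeo
import Pool.Agent.Helper606.FW.P_pl_basic
import Pool.Agent.Helper606.FW.P_gg_open

set_option autoImplicit false

namespace Pool.Agent.Helper606.FW
open Complex Metric Set MeasureTheory Filter Topology


theorem iot_conn : IsConnected ((closedBall (0:ℂ) 1)ᶜ) := by
  have h1 : (closedBall (0:ℂ) 1)ᶜ = Complex.exp '' {z : ℂ | 0 < z.re} := by
    ext z
    simp only [mem_compl_iff, mem_closedBall, dist_zero_right, not_le, mem_image]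
    constructor
    · intro hz
      have hz0 : z ≠ 0 := by
        intro h; rw [h, norm_zero] at hz; linarith
      refine ⟨Complex.log z, ?_, Complex.exp_log hz0⟩
      show 0 < (Complex.log z).re
      rw [Complex.log_re]
      exact Real.log_pos hz
    · rintro ⟨w, hw, rfl⟩
      rw [Complex.norm_exp]
      exact Real.one_lt_exp_iff.2 hw
  rw [h1]
  apply IsConnected.image _ _ Complex.continuous_exp.continuousOn
  exact ⟨⟨1, by simp⟩, (convex_halfSpace_re_gt 0).isPreconnected⟩

theorem inout_top (f h : ℂ → ℂ) (hf : Pl (1 / 8) f) (hh : Pl (1 / 8) h)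
    (f0 : f 0 = 0) (h0 : h 0 = 0) (hc : f '' sphere 0 1 = gg h '' sphere 0 1)
    (hd : ∀ w ζ : ℂ, 1 < ‖w‖ → ‖ζ‖ ≤ 1 → gg h w ≠ f ζ) :
    IsInOut (f '' sphere 0 1) (f '' ball 0 1) (gg h '' (closedBall 0 1)ᶜ) := by
  obtain ⟨e, he⟩ := pl_homeo (1/8) (by norm_num) (by norm_num) f hf
  have hfe : f = ⇑e := by funext z; exact (he z).symm
  obtain ⟨hgo, hgc, hgcont, hginj⟩ := gg_open h hh h0
  obtain ⟨hfcont, hfn, hf00, hfinj⟩ := pl_basic (1/8) (by norm_num) (by norm_num) f hf f0
  have hsurj : Function.Surjective f := by rw [hfe]; exact e.surjective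
  have hOpen : ∀ s : Set ℂ, IsOpen s → IsOpen (f '' s) := by
    intro s hs
    rw [hfe]
    exact e.isOpenMap s hs
  obtain ⟨O, hO⟩ : ∃ O, O = f '' (closedBall (0:ℂ) 1)ᶜ := ⟨_, rfl⟩
  obtain ⟨E, hE⟩ : ∃ E, E = gg h '' (closedBall (0:ℂ) 1)ᶜ := ⟨_, rfl⟩
  obtain ⟨C, hC⟩ : ∃ C, C = gg h '' (ball (0:ℂ) 1)ᶜ := ⟨_, rfl⟩
  have hOconn : IsConnected O := by
    rw [hO]; exact iot_conn.image _ hfcont.continuousOn
  have hOopen : IsOpen O := by
    rw [hO]; exact hOpen _ isClosed_closedBall.isOpen_compl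
  have hEO : E ⊆ O := by
    rw [hE, hO]
    rintro x ⟨w, hw, rfl⟩
    simp only [mem_compl_iff, mem_closedBall, dist_zero_right, not_le] at hw
    obtain ⟨ζ, hζ⟩ := hsurj (gg h w)
    refine ⟨ζ, ?_, hζ⟩
    simp only [mem_compl_iff, mem_closedBall, dist_zero_right]
    intro hz
    exact hd w ζ hw hz hζ.symm
  have hEC : E ⊆ C := by
    rw [hE, hC]
    exact image_mono (compl_subset_compl.2 ball_subset_closedBall)
  have hOC : ∀ x ∈ O, x ∈ C → x ∈ E := by
    intro x hxO hxC
    rw [hC] at hxC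
    rw [hO] at hxO
    obtain ⟨w, hw, hwx⟩ := hxC
    obtain ⟨ζ, hζ, hζx⟩ := hxO
    simp only [mem_compl_iff, mem_ball, dist_zero_right, not_lt] at hw
    simp only [mem_compl_iff, mem_closedBall, dist_zero_right, not_le] at hζ
    rw [hE]
    refine ⟨w, ?_, hwx⟩
    simp only [mem_compl_iff, mem_closedBall, dist_zero_right, not_le]
    rcases lt_or_eq_of_le hw with hw1 | hw1
    · exact hw1
    · exfalso
      have h1 : x ∈ gg h '' sphere 0 1 := ⟨w, by simp [← hw1], hwx⟩
      rw [← hc] at h1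
      obtain ⟨ζ', hζ', hζx'⟩ := h1
      have h2 := hfinj (hζx.trans hζx'.symm)
      rw [h2] at hζ
      simp at hζ'
      rw [hζ'] at hζ
      exact lt_irrefl _ hζ
  have hEne : E.Nonempty := by
    rw [hE]
    refine ⟨gg h 2, 2, ?_, rfl⟩
    simp
  have hOE : O ⊆ E := by
    apply IsPreconnected.subset_left_of_subset_union (u := E) (v := Cᶜ)
    · rw [hE]; exact hgo
    · rw [hC]; exact hgc.isOpen_compl
    · rw [Set.disjoint_left]
      intro x hx hx'
      exact hx' (hEC hx)
    · intro x hx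
      by_cases hxC : x ∈ C
      · left; exact hOC x hx hxC
      · right; exact hxC
    · obtain ⟨x, hx⟩ := hEne
      exact ⟨x, hEO hx, hx⟩
    · exact hOconn.isPreconnected
  have hEeq : E = O := Subset.antisymm hEO hOE
  have hun : f '' ball 0 1 ∪ O = (f '' sphere 0 1)ᶜ := by
    rw [hO]
    ext x
    simp only [mem_union, mem_image, mem_ball, mem_compl_iff, mem_closedBall, mem_sphere, dist_zero_right, not_le]
    constructor
    · rintro (⟨z, hz, rfl⟩ | ⟨z, hz, rfl⟩) ⟨z', hz', hzz⟩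
      · have := hfinj hzz
        rw [this] at hz'
        linarith
      · have := hfinj hzz
        rw [this] at hz'
        linarith
    · intro hx
      obtain ⟨z, rfl⟩ := hsurj x
      rcases lt_trichotomy ‖z‖ 1 with hz | hz | hz
      · left; exact ⟨z, hz, rfl⟩
      · exact absurd ⟨z, hz, rfl⟩ hx
      · right; exact ⟨z, hz, rfl⟩
  rw [← hE, hEeq]
  refine ⟨hun, ?_, hOpen _ isOpen_ball, hOopen, ?_, hOconn, ?_, ?_⟩
  · rw [hO, Set.disjoint_left]
    rintro x ⟨z, hz, rfl⟩ ⟨z', hz', hzz⟩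
    have := hfinj hzz
    rw [this] at hz'
    simp only [mem_compl_iff, mem_closedBall, dist_zero_right, not_le] at hz'
    simp only [mem_ball, dist_zero_right] at hz
    linarith
  · exact ((convex_ball (0:ℂ) 1).isConnected ⟨0, by simp⟩).image _ hfcont.continuousOn
  · rw [Metric.isBounded_iff_subset_closedBall (0:ℂ)]
    refine ⟨9/8, ?_⟩
    rintro x ⟨z, hz, rfl⟩
    simp only [mem_ball, dist_zero_right] at hz
    simp only [mem_closedBall, dist_zero_right]
    have := (hfn z).2.1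
    linarith
  · intro hb
    rw [Metric.isBounded_iff_subset_closedBall (0:ℂ)] at hb
    obtain ⟨R, hR⟩ := hb
    obtain ⟨z, hz⟩ : ∃ z : ℂ, z = ((2 * |R| + 2 : ℝ) : ℂ) := ⟨_, rfl⟩
    have hzn : ‖z‖ = 2 * |R| + 2 := by
      rw [hz, Complex.norm_real, Real.norm_eq_abs, abs_of_nonneg (by positivity)]
    have hmem : f z ∈ O := by
      rw [hO]
      refine ⟨z, ?_, rfl⟩
      simp only [mem_compl_iff, mem_closedBall, dist_zero_right, not_le]
      rw [hzn]
      have := abs_nonneg R
      linarith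
    have h1 := hR hmem
    simp only [mem_closedBall, dist_zero_right] at h1
    have h2 := (hfn z).1
    rw [hzn] at h2
    have h3 := le_abs_self R
    have h4 := abs_nonneg R
    linarith

end Pool.Agent.Helper606.FW
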