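import Pool.Agent.Helper606.FW.Defs
import Pool.Agent.Helper606.FW.P_cls_lip

set_option autoImplicit false

namespace Pool.Agent.Helper606.FW
open Complex Metric Set MeasureTheory Filter Topology


theorem gg_diff (h : ℂ → ℂ) (hc : Cls (1 / 8) h) :
    DifferentiableOn ℂ (gg h) (closedBall 0 1)ᶜ ∧ ∀ w ∈ (closedBall (0 : ℂ) 1)ᶜ,
      deriv (gg h) w = deriv h w⁻¹ * (w⁻¹) ^ 2 / (h w⁻¹) ^ 2 := by
  have key : ∀ w ∈ (closedBall (0 : ℂ) 1)ᶜ,
      HasDerivAt (gg h) (deriv h w⁻¹ * (w⁻¹) ^ 2 / (h w⁻¹) ^ 2) w := by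
    intro w hw
    simp only [mem_compl_iff, mem_closedBall, dist_zero_right, not_le] at hw
    have hw0 : w ≠ 0 := by
      intro h0; rw [h0, norm_zero] at hw; linarith
    have hwn : 0 < ‖w‖ := by linarith
    have hw1 : ‖w⁻¹‖ < 1 := by
      rw [norm_inv]
      exact inv_lt_one_of_one_lt₀ hw
    have hlip := cls_lip (1/8) h hc w⁻¹ 0 hw1 (by simp)
    rw [hc.zero] at hlip
    simp only [sub_zero] at hlip
    have hwi : 0 < ‖w⁻¹‖ := by rw [norm_inv]; positivity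
    have hne : h w⁻¹ ≠ 0 := by
      intro h0
      rw [h0, zero_sub, norm_neg] at hlip
      linarith
    have hd : HasDerivAt h (deriv h w⁻¹) w⁻¹ := by
      apply DifferentiableAt.hasDerivAt
      apply hc.diff.differentiableAt
      apply isOpen_ball.mem_nhds
      simpa using hw1
    have h1 : HasDerivAt (fun x : ℂ => x⁻¹) (-(w ^ 2)⁻¹) w := hasDerivAt_inv hw0
    have h2 : HasDerivAt (fun x : ℂ => h x⁻¹) (deriv h w⁻¹ * (-(w ^ 2)⁻¹)) w := HasDerivAt.comp w hd h1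
    have h3 : HasDerivAt (fun x : ℂ => (h x⁻¹)⁻¹) (-(deriv h w⁻¹ * (-(w ^ 2)⁻¹)) / (h w⁻¹) ^ 2) w := h2.fun_inv hne
    have e : -(deriv h w⁻¹ * (-(w ^ 2)⁻¹)) / (h w⁻¹) ^ 2 = deriv h w⁻¹ * (w⁻¹) ^ 2 / (h w⁻¹) ^ 2 := by
      rw [inv_pow]; ring
    rw [e] at h3
    exact h3
  exact ⟨fun w hw => (key w hw).differentiableAt.differentiableWithinAt, fun w hw => (key w hw).deriv⟩

end Pool.Agent.Helper606.FW
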