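import Pool.Agent.Helper606.FW.Defs
import Pool.Agent.Helper606.FW.P_cls_lip
import Pool.Agent.Helper606.FW.P_W_bound
import Pool.Agent.Helper606.FW.P_gg_diff

set_option autoImplicit false

namespace Pool.Agent.Helper606.FW
open Complex Metric Set MeasureTheory Filter Topology


theorem gg_log2 (h : ℂ → ℂ) (hc : Cls (1 / 8) h) (w : ℂ) (hw : w ∈ (closedBall (0 : ℂ) 1)ᶜ) :
    DifferentiableAt ℂ (deriv (gg h)) w ∧ deriv (gg h) w ≠ 0 ∧
    ‖deriv (deriv (gg h)) w / deriv (gg h) w‖ ^ 2 ≤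
      2 * ‖w⁻¹‖ ^ 4 * (‖deriv (deriv h) w⁻¹ / deriv h w⁻¹‖ ^ 2 + 1) := by
  have hw1 : 1 < ‖w‖ := by
    rw [mem_compl_iff, mem_closedBall_zero_iff, not_le] at hw
    exact hw
  have hw0 : w ≠ 0 := by
    rintro rfl
    rw [norm_zero] at hw1
    linarith
  obtain ⟨z, hz⟩ : ∃ z : ℂ, z = w⁻¹ := ⟨_, rfl⟩
  have hz0 : z ≠ 0 := by rw [hz]; exact inv_ne_zero hw0
  have hz1 : ‖z‖ < 1 := by
    rw [hz, norm_inv]
    exact inv_lt_one_of_one_lt₀ hw1
  have hzb : z ∈ ball (0 : ℂ) 1 := by rwa [mem_ball_zero_iff]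
  have hA0 : deriv h z ≠ 0 := by
    intro h0
    have := hc.der z hzb
    rw [h0, zero_sub, norm_neg, norm_one] at this
    norm_num at this
  have hH0 : h z ≠ 0 := by
    intro h0
    have h1 := cls_lip (1 / 8) h hc z 0 hz1 (by simp)
    rw [hc.zero, h0, sub_zero, sub_zero, zero_sub, norm_neg, sub_zero] at h1
    have h2 : 0 < ‖z‖ := norm_pos_iff.2 hz0
    linarith
  obtain ⟨-, hgd⟩ := gg_diff h hc
  have hopen : IsOpen (closedBall (0 : ℂ) 1)ᶜ := isClosed_closedBall.isOpen_compl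
  have hev : deriv (gg h) =ᶠ[𝓝 w] fun w => deriv h w⁻¹ * (w⁻¹) ^ 2 / (h w⁻¹) ^ 2 := by
    filter_upwards [hopen.mem_nhds hw] with x hx
    exact hgd x hx
  have hnb : ball (0 : ℂ) 1 ∈ 𝓝 z := isOpen_ball.mem_nhds hzb
  have hinv : HasDerivAt (fun w : ℂ => w⁻¹) (-z ^ 2) w := by
    have h1 := hasDerivAt_inv hw0
    have h2 : -(w ^ 2)⁻¹ = -z ^ 2 := by rw [hz, inv_pow]
    rw [h2] at h1
    exact h1
  have hd1 : HasDerivAt h (deriv h z) w⁻¹ := by
    rw [← hz]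
    exact (hc.diff.differentiableAt hnb).hasDerivAt
  have hd2 : HasDerivAt (deriv h) (deriv (deriv h) z) w⁻¹ := by
    rw [← hz]
    exact ((hc.diff.deriv isOpen_ball).differentiableAt hnb).hasDerivAt
  have hp : HasDerivAt (fun w : ℂ => h w⁻¹) (deriv h z * (-z ^ 2)) w :=
    hd1.comp w hinv
  have hu : HasDerivAt (fun w : ℂ => deriv h w⁻¹) (deriv (deriv h) z * (-z ^ 2)) w :=
    hd2.comp w hinv
  have hv := hinv.pow 2
  have hpp := hp.pow 2
  have hne : (h w⁻¹) ^ 2 ≠ 0 := by rw [← hz]; exact pow_ne_zero 2 hH0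
  have hG := (hu.mul hv).div hpp hne
  have hG' : HasDerivAt (deriv (gg h)) _ w := hG.congr_of_eventuallyEq hev
  refine ⟨hG'.differentiableAt, ?_, ?_⟩
  · rw [hgd w hw, ← hz]
    exact div_ne_zero (mul_ne_zero hA0 (pow_ne_zero 2 hz0)) (pow_ne_zero 2 hH0)
  · have hval : deriv (deriv (gg h)) w / deriv (gg h) w =
        -z ^ 2 * (deriv (deriv h) z / deriv h z + (2 / z - 2 * deriv h z / h z)) := by
      rw [hG'.deriv, hgd w hw]
      simp only [Pi.mul_apply, Pi.pow_apply, ← hz]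
      field_simp
      ring
    have hb : ‖2 / z - 2 * deriv h z / h z‖ ≤ 3 / 4 := by
      have h1 := W_bound (1 / 8) (by norm_num) le_rfl h hc z hz1
      have h2 : dslope h 0 z = h z / z := by
        rw [dslope_of_ne _ hz0, slope_def_field, hc.zero, sub_zero, sub_zero]
      rw [h2] at h1
      have h3 : 2 / z - 2 * deriv h z / h z = -(2 / z) * (deriv h z / (h z / z) - 1) := by
        field_simp
        ring
      rw [h3, norm_mul, norm_neg, norm_div]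
      have h4 : 0 < ‖z‖ := norm_pos_iff.2 hz0
      have h5 : ‖(2 : ℂ)‖ / ‖z‖ * ‖deriv h z / (h z / z) - 1‖ ≤
          ‖(2 : ℂ)‖ / ‖z‖ * (3 * (1 / 8) * ‖z‖) :=
        mul_le_mul_of_nonneg_left h1 (by positivity)
      refine h5.trans ?_
      have h6 : ‖(2 : ℂ)‖ = 2 := by simp
      rw [h6]
      have h7 : 2 / ‖z‖ * (3 * (1 / 8) * ‖z‖) = 3 / 4 := by
        field_simp
        norm_num
      exact h7.le
    rw [hval, ← hz, norm_mul, norm_neg, norm_pow, mul_pow]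
    have h8 : ‖deriv (deriv h) z / deriv h z + (2 / z - 2 * deriv h z / h z)‖ ≤
        ‖deriv (deriv h) z / deriv h z‖ + 3 / 4 :=
      (norm_add_le _ _).trans (by linarith)
    have h9 := norm_nonneg (deriv (deriv h) z / deriv h z)
    have h10 : ‖deriv (deriv h) z / deriv h z + (2 / z - 2 * deriv h z / h z)‖ ^ 2 ≤
        2 * (‖deriv (deriv h) z / deriv h z‖ ^ 2 + 1) := by
      have h11 := pow_le_pow_left₀ (norm_nonneg _) h8 2
      nlinarith [sq_nonneg (‖deriv (deriv h) z / deriv h z‖ - 3 / 4)]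
    have h12 : 0 ≤ (‖z‖ ^ 2) ^ 2 := by positivity
    calc (‖z‖ ^ 2) ^ 2 * ‖deriv (deriv h) z / deriv h z + (2 / z - 2 * deriv h z / h z)‖ ^ 2
        ≤ (‖z‖ ^ 2) ^ 2 * (2 * (‖deriv (deriv h) z / deriv h z‖ ^ 2 + 1)) :=
          mul_le_mul_of_nonneg_left h10 h12
      _ = 2 * ‖z‖ ^ 4 * (‖deriv (deriv h) z / deriv h z‖ ^ 2 + 1) := by ring

end Pool.Agent.Helper606.FW
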