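import Pool.Agent.Helper606.FW.Defs

set_option autoImplicit false

namespace Pool.Agent.Helper606.FW
open Complex Metric Set MeasureTheory Filter Topology


theorem grad_log (G : ℂ → ℂ) (z : ℂ) (hG : DifferentiableAt ℂ G z) (h0 : G z ≠ 0) :
    ‖fderiv ℝ (fun z => Real.log ‖G z‖) z‖ ≤ ‖deriv G z / G z‖ := by
  set c := G z with hc
  have hG1 : HasDerivAt G (deriv G z) z := hG.hasDerivAt
  have h1 : HasDerivAt (fun w => G w / c) (deriv G z / c) z := hG1.div_const c
  have hone : G z / c = 1 := by rw [← hc]; exact div_self h0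
  have h2 : HasDerivAt (fun w => Complex.log (G w / c)) (deriv G z / c) z := by
    have h3 := h1.clog (by rw [hone]; exact Complex.one_mem_slitPlane)
    rw [hone, div_one] at h3
    exact h3
  have h4 : HasFDerivAt (fun w => (Complex.log (G w / c)).re)
      (Complex.reCLM.comp ((ContinuousLinearMap.toSpanSingleton ℂ (deriv G z / c)).restrictScalars ℝ)) z := by
    have h5 := h2.hasFDerivAt.restrictScalars ℝ
    exact Complex.reCLM.hasFDerivAt.comp z h5
  have hev : (fun w => Real.log ‖G w‖) =ᶠ[𝓝 z] fun w => (Complex.log (G w / c)).re + Real.log ‖c‖ := by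
    have hcont : ContinuousAt G z := hG.continuousAt
    filter_upwards [hcont.eventually_ne h0] with w hw
    rw [Complex.log_re, norm_div, Real.log_div (norm_ne_zero_iff.2 hw) (norm_ne_zero_iff.2 h0)]
    ring
  have h6 : HasFDerivAt (fun w => Real.log ‖G w‖)
      (Complex.reCLM.comp ((ContinuousLinearMap.toSpanSingleton ℂ (deriv G z / c)).restrictScalars ℝ)) z :=
    (h4.add_const _).congr_of_eventuallyEq hev
  rw [h6.fderiv]
  refine ContinuousLinearMap.opNorm_le_bound _ (norm_nonneg _) (fun v => ?_)
  have h7 : (Complex.reCLM.comp ((ContinuousLinearMap.toSpanSingleton ℂ (deriv G z / c)).restrictScalars ℝ)) v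
      = (v * (deriv G z / c)).re := by
    simp [ContinuousLinearMap.toSpanSingleton_apply]
  rw [h7, Real.norm_eq_abs]
  calc |(v * (deriv G z / c)).re| ≤ ‖v * (deriv G z / c)‖ := Complex.abs_re_le_norm _
    _ = ‖deriv G z / c‖ * ‖v‖ := by rw [norm_mul, mul_comm]

end Pool.Agent.Helper606.FW
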