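import Pool.Agent.Helper606.FW.Defs

set_option autoImplicit false

namespace Pool.Agent.Helper606.FW
open Complex Metric Set MeasureTheory Filter Topology


theorem det_smul_li (c : ℂ) :
    ((ContinuousLinearMap.toSpanSingleton ℂ c).restrictScalars ℝ : ℂ →L[ℝ] ℂ).det = ‖c‖ ^ 2 := by
  simp [ContinuousLinearMap.det, LinearMap.det_restrictScalars,
      Algebra.norm_complex_eq, Complex.normSq_eq_norm_sq, ← pow_mul]

theorem lintegral_inv (G : ℂ → ENNReal) (hG : Measurable G) :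
    ∫⁻ w in (closedBall (0 : ℂ) 1)ᶜ, ENNReal.ofReal (‖w⁻¹‖ ^ 4) * G w⁻¹ ≤
      ∫⁻ z in ball (0 : ℂ) 1, G z := by
  have hs : MeasurableSet (closedBall (0 : ℂ) 1)ᶜ := isClosed_closedBall.measurableSet.compl
  have hne : ∀ w ∈ (closedBall (0 : ℂ) 1)ᶜ, w ≠ 0 := by
    intro w hw h0
    apply hw
    simp [h0]
  have key := lintegral_image_eq_lintegral_abs_det_fderiv_mul (volume : Measure ℂ) hs
    (f := fun w : ℂ => w⁻¹)
    (f' := fun w => ((ContinuousLinearMap.toSpanSingleton ℂ (-(w ^ 2)⁻¹)).restrictScalars ℝ))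
    (fun w hw => ((hasDerivAt_inv (hne w hw)).hasFDerivAt.restrictScalars ℝ).hasFDerivWithinAt)
    (inv_injective.injOn) G
  calc ∫⁻ w in (closedBall (0 : ℂ) 1)ᶜ, ENNReal.ofReal (‖w⁻¹‖ ^ 4) * G w⁻¹
      = ∫⁻ x in (fun w : ℂ => w⁻¹) '' (closedBall (0 : ℂ) 1)ᶜ, G x := by
        rw [key]
        refine lintegral_congr fun w => ?_
        rw [det_smul_li]
        congr 2
        rw [abs_of_nonneg (by positivity), norm_neg, norm_inv, norm_inv, norm_pow, ← inv_pow,
          ← pow_mul]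
    _ ≤ ∫⁻ z in ball (0 : ℂ) 1, G z := by
        apply lintegral_mono_set
        rintro _ ⟨w, hw, rfl⟩
        have hw1 : 1 < ‖w‖ := by simpa using hw
        simp only [mem_ball_zero_iff, norm_inv]
        exact inv_lt_one_of_one_lt₀ hw1

end Pool.Agent.Helper606.FW
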