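import Pool.Agent.Helper606.FW.Defs
import Pool.Agent.Helper606.FW.P_grad_log
import Pool.Agent.Helper606.FW.P_lintegral_inv
import Pool.Agent.Helper606.FW.P_gg_log2

set_option autoImplicit false

namespace Pool.Agent.Helper606.FW
open Complex Metric Set MeasureTheory Filter Topology


theorem energy_g (h : ℂ → ℂ) (hc : Cls (1 / 8) h) (he : en h < ⊤) :
    dirichletEnergy (closedBall 0 1)ᶜ (fun z => Real.log ‖deriv (gg h) z‖) < ⊤ := by
  unfold dirichletEnergy
  refine ENNReal.mul_lt_top ENNReal.ofReal_lt_top ?_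
  have hms : MeasurableSet ((closedBall (0 : ℂ) 1)ᶜ) := measurableSet_closedBall.compl
  have hGm1 : Measurable (fun z : ℂ => ENNReal.ofReal (‖deriv (deriv h) z / deriv h z‖ ^ 2)) :=
    (((measurable_deriv (deriv h)).div (measurable_deriv h)).norm.pow_const 2).ennreal_ofReal
  have hG : Measurable (fun z : ℂ =>
      2 * (ENNReal.ofReal (‖deriv (deriv h) z / deriv h z‖ ^ 2) + 1)) :=
    (hGm1.add_const 1).const_mul 2
  have h1 : ∫⁻ z in (closedBall (0 : ℂ) 1)ᶜ,
      ENNReal.ofReal (‖fderiv ℝ (fun z => Real.log ‖deriv (gg h) z‖) z‖ ^ 2) ≤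
      ∫⁻ w in (closedBall (0 : ℂ) 1)ᶜ, ENNReal.ofReal (‖w⁻¹‖ ^ 4) *
        (fun z : ℂ => 2 * (ENNReal.ofReal (‖deriv (deriv h) z / deriv h z‖ ^ 2) + 1)) w⁻¹ := by
    refine setLIntegral_mono' hms fun w hw => ?_
    obtain ⟨g1, g2, g3⟩ := gg_log2 h hc w hw
    have h2 := grad_log (deriv (gg h)) w g1 g2
    have h3 : ‖fderiv ℝ (fun z => Real.log ‖deriv (gg h) z‖) w‖ ^ 2 ≤
        ‖w⁻¹‖ ^ 4 * (2 * (‖deriv (deriv h) w⁻¹ / deriv h w⁻¹‖ ^ 2 + 1)) := by
      refine (pow_le_pow_left₀ (norm_nonneg _) h2 2).trans (g3.trans (le_of_eq ?_))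
      ring
    refine (ENNReal.ofReal_le_ofReal h3).trans (le_of_eq ?_)
    simp only
    rw [ENNReal.ofReal_mul (by positivity), ENNReal.ofReal_mul (by norm_num),
      ENNReal.ofReal_add (by positivity) (by norm_num), ENNReal.ofReal_one]
    norm_num
  refine h1.trans_lt ((lintegral_inv _ hG).trans_lt ?_)
  rw [lintegral_const_mul 2 (hGm1.add_const 1), lintegral_add_right _ measurable_const]
  refine ENNReal.mul_lt_top (by norm_num) (ENNReal.add_lt_top.2 ⟨he, ?_⟩)
  rw [setLIntegral_const, one_mul]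
  exact measure_ball_lt_top

end Pool.Agent.Helper606.FW
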