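import Pool.Agent.Helper606.FW.Defs
import Pool.Agent.Helper606.FW.P_cls_lip

set_option autoImplicit false

namespace Pool.Agent.Helper606.FW
open Complex Metric Set MeasureTheory Filter Topology


theorem gg_norm (h : ℂ → ℂ) (hc : Cls (1 / 8) h) (h1 : deriv h 0 = 1) :
    (fun z => gg h z - ((1 : ℝ) : ℂ) * z) =O[Bornology.cobounded ℂ] (fun _ => (1 : ℝ)) := by
  have hnhds : ball (0 : ℂ) 1 ∈ 𝓝 (0 : ℂ) := ball_mem_nhds 0 one_pos
  set k1 : ℂ → ℂ := dslope h 0 with hk1
  set k2 : ℂ → ℂ := dslope k1 0 with hk2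
  have d1 : DifferentiableOn ℂ k1 (ball 0 1) := (Complex.differentiableOn_dslope hnhds).2 hc.diff
  have d2 : DifferentiableOn ℂ k2 (ball 0 1) := (Complex.differentiableOn_dslope hnhds).2 d1
  have c1 : ContinuousAt k1 0 := (d1.differentiableAt hnhds).continuousAt
  have c2 : ContinuousAt k2 0 := (d2.differentiableAt hnhds).continuousAt
  have v1 : k1 0 = 1 := by rw [hk1, dslope_same, h1]
  have e1 : ∀ z, h z = z * k1 z := by
    intro z
    have := sub_smul_dslope h 0 z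
    rw [hc.zero, sub_zero, sub_zero, smul_eq_mul] at this
    exact this.symm
  have e2 : ∀ z, k1 z = 1 + z * k2 z := by
    intro z
    have := sub_smul_dslope k1 0 z
    rw [v1, sub_zero, smul_eq_mul] at this
    rw [← hk2] at this
    linear_combination -this
  have t0 : Tendsto (fun w : ℂ => w⁻¹) (Bornology.cobounded ℂ) (𝓝 0) :=
    Filter.tendsto_inv₀_cobounded
  have t1 : Tendsto (fun w : ℂ => k1 w⁻¹) (Bornology.cobounded ℂ) (𝓝 (k1 0)) := c1.tendsto.comp t0
  have t2 : Tendsto (fun w : ℂ => k2 w⁻¹) (Bornology.cobounded ℂ) (𝓝 (k2 0)) := c2.tendsto.comp t0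
  have t3 : Tendsto (fun w : ℂ => -(k2 w⁻¹) / k1 w⁻¹) (Bornology.cobounded ℂ)
      (𝓝 (-(k2 0) / k1 0)) := t2.neg.div t1 (by rw [v1]; exact one_ne_zero)
  refine (t3.isBigO_one ℝ).congr' ?_ (Eventually.of_forall fun _ => rfl)
  have n1 := t1.eventually_ne (show k1 0 ≠ 0 by rw [v1]; exact one_ne_zero)
  filter_upwards [n1, Bornology.eventually_ne_cobounded (0 : ℂ)] with w hw1 hw0
  simp only [gg]
  rw [e1 w⁻¹]
  have e3 := e2 w⁻¹
  push_cast
  generalize k1 w⁻¹ = A at *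
  generalize k2 w⁻¹ = B at *
  rw [mul_inv, inv_inv, one_mul, div_eq_iff hw1, sub_mul, mul_assoc, inv_mul_cancel₀ hw1, e3]
  field_simp
  ring

end Pool.Agent.Helper606.FW
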