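import Pool.Agent.Helper606.FW.Defs
import Pool.Agent.Helper606.FW.P_gg_open
import Pool.Agent.Helper606.FW.P_gg_diff
import Pool.Agent.Helper606.FW.P_gg_norm

set_option autoImplicit false

namespace Pool.Agent.Helper606.FW
open Complex Metric Set MeasureTheory Filter Topology


theorem ext_map (h : ℂ → ℂ) (hc : Cls (1 / 8) h) (hP : Pl (1 / 8) h) (h1 : deriv h 0 = 1) :
    IsExteriorMap (gg h '' (closedBall 0 1)ᶜ) (gg h) 1 := by
  refine ⟨(gg_diff h hc).1, ?_, rfl, one_pos, gg_norm h hc h1⟩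
  exact (gg_open h hP hc.zero).2.2.2.mono (Set.compl_subset_compl.2 ball_subset_closedBall)

end Pool.Agent.Helper606.FW
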