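import Pool.Agent.Helper606.FW.Defs
import Pool.Agent.Helper606.FW.P_grad_log

set_option autoImplicit false

namespace Pool.Agent.Helper606.FW
open Complex Metric Set MeasureTheory Filter Topology


theorem energy_f (F : ℂ → ℂ) (h : Cls (1 / 8) F) (he : en F < ⊤) (l : ℂ) (hl : ‖l‖ = 1) :
    dirichletEnergy (ball 0 1) (fun z => Real.log ‖deriv (fun z => F (l * z)) z‖) < ⊤ := by
  unfold dirichletEnergy
  refine ENNReal.mul_lt_top ENNReal.ofReal_lt_top ?_
  have hl0 : l ≠ 0 := by
    intro h0
    rw [h0, norm_zero] at hl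
    norm_num at hl
  have hG : (fun z => Real.log ‖deriv (fun z => F (l * z)) z‖)
      = fun z => Real.log ‖(fun z => l * deriv F (l * z)) z‖ := by
    funext z
    simp only
    rw [deriv_comp_mul_left, smul_eq_mul]
  rw [hG]
  set g : ℂ → ENNReal := fun w => ENNReal.ofReal (‖deriv (deriv F) w / deriv F w‖ ^ 2) with hg
  have hpt : ∀ z ∈ ball (0 : ℂ) 1,
      ENNReal.ofReal (‖fderiv ℝ (fun z => Real.log ‖(fun z => l * deriv F (l * z)) z‖) z‖ ^ 2)
        ≤ g (l * z) := by
    intro z hz
    have hlz : l * z ∈ ball (0 : ℂ) 1 := by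
      rw [mem_ball_zero_iff] at hz ⊢
      rw [norm_mul, hl, one_mul]
      exact hz
    have hdF : DifferentiableAt ℂ (deriv F) (l * z) :=
      (h.diff.deriv isOpen_ball).differentiableAt (isOpen_ball.mem_nhds hlz)
    have hne : deriv F (l * z) ≠ 0 := by
      intro h0
      have := h.der _ hlz
      rw [h0] at this
      norm_num at this
    have hd : HasDerivAt (fun z => l * deriv F (l * z)) (l * (deriv (deriv F) (l * z) * l)) z := by
      have h1 : HasDerivAt (fun z : ℂ => l * z) l z := by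
        simpa using (hasDerivAt_id z).const_mul l
      exact (hdF.hasDerivAt.comp z h1).const_mul l
    have h2 := grad_log (fun z => l * deriv F (l * z)) z hd.differentiableAt
      (mul_ne_zero hl0 hne)
    rw [hd.deriv] at h2
    have h3 : ‖l * (deriv (deriv F) (l * z) * l) / (l * deriv F (l * z))‖
        = ‖deriv (deriv F) (l * z) / deriv F (l * z)‖ := by
      rw [norm_div, norm_mul, norm_mul, norm_mul, norm_div, hl]
      ring
    rw [h3] at h2
    apply ENNReal.ofReal_le_ofReal
    exact pow_le_pow_left₀ (norm_nonneg _) h2 2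
  have hmp : MeasurePreserving (fun z : ℂ => l * z) volume volume := by
    have h4 := (rotation ⟨l, by simpa [Submonoid.unitSphere] using hl⟩).measurePreserving
    exact h4
  have hemb : MeasurableEmbedding (fun z : ℂ => l * z) :=
    (Homeomorph.mulLeft₀ l hl0).measurableEmbedding
  have hpre : (fun z : ℂ => l * z) ⁻¹' (ball (0 : ℂ) 1) = ball (0 : ℂ) 1 := by
    ext z
    simp only [mem_preimage, mem_ball_zero_iff, norm_mul, hl, one_mul]
  calc ∫⁻ z in ball (0 : ℂ) 1,
      ENNReal.ofReal (‖fderiv ℝ (fun z => Real.log ‖(fun z => l * deriv F (l * z)) z‖) z‖ ^ 2)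
      ≤ ∫⁻ z in ball (0 : ℂ) 1, g (l * z) := setLIntegral_mono' measurableSet_ball hpt
    _ = ∫⁻ z in (fun z : ℂ => l * z) ⁻¹' (ball (0 : ℂ) 1), g (l * z) := by rw [hpre]
    _ = ∫⁻ z in ball (0 : ℂ) 1, g z := hmp.setLIntegral_comp_preimage_emb hemb g _
    _ < ⊤ := he

end Pool.Agent.Helper606.FW
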