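import Pool.Agent.Helper606.FW.Defs
import Pool.Agent.Helper606.FW.P_pl_basic
import Pool.Agent.Helper606.FW.P_energy_f

set_option autoImplicit false

namespace Pool.Agent.Helper606.FW
open Complex Metric Set MeasureTheory Filter Topology


theorem rot_pkg (F : ℂ → ℂ) (hc : Cls (1 / 8) F) (hP : Pl (1 / 8) F) (he : en F < ⊤) :
    ∃ f : ℂ → ℂ, IsInteriorMap (F '' ball 0 1) f ∧
      dirichletEnergy (ball 0 1) (fun z => Real.log ‖deriv f z‖) < ⊤ := by
  have h0mem : (0 : ℂ) ∈ ball (0 : ℂ) 1 := mem_ball_self one_pos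
  obtain ⟨-, -, -, hinj⟩ := pl_basic (1 / 8) (by norm_num) le_rfl F hP hc.zero
  have hcd := hc.der 0 h0mem
  have hc0 : deriv F 0 ≠ 0 := by
    intro h
    rw [h] at hcd
    norm_num at hcd
  have hcn : ‖deriv F 0‖ ≠ 0 := norm_ne_zero_iff.mpr hc0
  obtain ⟨l, hl, hlc⟩ : ∃ l : ℂ, ‖l‖ = 1 ∧ l * deriv F 0 = (‖deriv F 0‖ : ℂ) := by
    refine ⟨(‖deriv F 0‖ : ℂ) / deriv F 0, ?_, div_mul_cancel₀ _ hc0⟩
    rw [norm_div, Complex.norm_real, norm_norm, div_self hcn]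
  have hl0 : l ≠ 0 := by
    intro h; rw [h] at hl; simp at hl
  have hmem : ∀ z, z ∈ ball (0 : ℂ) 1 → l * z ∈ ball (0 : ℂ) 1 := by
    intro z hz
    rw [mem_ball_zero_iff] at hz ⊢
    rw [norm_mul, hl, one_mul]; exact hz
  refine ⟨fun z => F (l * z), ⟨?_, ?_, ?_, ?_, ?_⟩, energy_f F hc he l hl⟩
  · exact hc.diff.comp ((differentiable_id.const_mul l).differentiableOn) hmem
  · intro z _ w _ hzw
    exact mul_left_cancel₀ hl0 (hinj hzw)
  · apply Subset.antisymm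
    · rintro _ ⟨z, hz, rfl⟩
      exact ⟨l * z, hmem z hz, rfl⟩
    · rintro _ ⟨z, hz, rfl⟩
      refine ⟨l⁻¹ * z, ?_, ?_⟩
      · rw [mem_ball_zero_iff] at hz ⊢
        rw [norm_mul, norm_inv, hl, inv_one, one_mul]; exact hz
      · show F (l * (l⁻¹ * z)) = F z
        rw [mul_inv_cancel_left₀ hl0]
  · simp [hc.zero]
  · refine ⟨‖deriv F 0‖, norm_pos_iff.mpr hc0, ?_⟩
    have hF : HasDerivAt F (deriv F 0) (l * 0) := by
      rw [mul_zero]
      exact ((hc.diff 0 h0mem).differentiableAt (isOpen_ball.mem_nhds h0mem)).hasDerivAt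
    have hm : HasDerivAt (fun z : ℂ => l * z) l 0 := by
      simpa using (hasDerivAt_id (0 : ℂ)).const_mul l
    have := (hF.comp 0 hm).deriv
    have e : deriv (fun z => F (l * z)) 0 = deriv F 0 * l := this
    rw [e, mul_comm]; exact hlc

end Pool.Agent.Helper606.FW
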