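import Pool.Agent.Helper606.FW.Defs
import Pool.Agent.Helper606.FW.P_energy_g
import Pool.Agent.Helper606.FW.P_rot_pkg
import Pool.Agent.Helper606.FW.P_ext_map

set_option autoImplicit false

namespace Pool.Agent.Helper606.FW
open Complex Metric Set MeasureTheory Filter Topology


theorem wp_of (f h : ℂ → ℂ) (fc : Cls (1 / 8) f) (fP : Pl (1 / 8) f) (fe : en f < ⊤)
    (hc : Cls (1 / 8) h) (hP : Pl (1 / 8) h) (he : en h < ⊤) (h1 : deriv h 0 = 1)
    (hio : IsInOut (f '' sphere 0 1) (f '' ball 0 1) (gg h '' (closedBall 0 1)ᶜ))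
    (hJ : IsJordanCurve (f '' sphere 0 1)) : IsWeilPetersson (f '' sphere 0 1) 1 := by
  obtain ⟨f1, hf1, hf2⟩ := rot_pkg f fc fP fe
  refine ⟨hJ, f '' ball 0 1, gg h '' (closedBall 0 1)ᶜ, f1, gg h, hio,
    ⟨0, by simp, fc.zero⟩, hf1, ext_map h hc hP h1, ?_⟩
  unfold loewnerEnergy
  apply EReal.add_lt_top
  · rw [Ne, EReal.coe_ennreal_eq_top_iff]
    exact (ENNReal.add_lt_top.2 ⟨hf2, energy_g h hc he⟩).ne
  · exact EReal.coe_ne_top _

end Pool.Agent.Helper606.FW
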