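import Pool.Agent.Helper606.FW.Defs
import Pool.Agent.Helper606.FW.P_aa_facts
import Pool.Agent.Helper606.FW.P_cls_mono
import Pool.Agent.Helper606.FW.P_pl_basic
import Pool.Agent.Helper606.FW.P_gg_bounds
import Pool.Agent.Helper606.FW.P_gg_pkg
import Pool.Agent.Helper606.FW.P_curves_eq
import Pool.Agent.Helper606.FW.P_disj_in_out
import Pool.Agent.Helper606.FW.P_gg_open
import Pool.Agent.Helper606.FW.P_inout_top
import Pool.Agent.Helper606.FW.P_jordan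
import Pool.Agent.Helper606.FW.P_wp_of

set_option autoImplicit false

namespace Pool.Agent.Helper606.FW
open Complex Metric Set MeasureTheory Filter Topology


theorem assemble (m : ℕ) (hm1 : 10 ^ 7 ≤ m) (f h : ℕ → ℂ → ℂ) (α : ℕ → ℂ)
    (hf : ∀ i, Cls (64 * aa i) (f i) ∧ Pl (64 * aa i) (f i) ∧
      en (f i) < ⊤ ∧ ‖α i‖ ≤ 2 * aa i ∧
      (∀ z : ℂ, ‖z‖ ≤ 1 → (f i z) ^ m + (aa i : ℂ) = f (i + 1) (mob (α i) (z ^ m))) ∧
      (∀ ω z : ℂ, ω ^ m = 1 → ‖z‖ ≤ 1 → f i (ω * z) = ω * f i z))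
    (hh : ∀ i, Cls (64 * aa i) (h i) ∧ Pl (64 * aa i) (h i) ∧
      en (h i) < ⊤ ∧ deriv (h i) 0 = 1 ∧
      (∀ z : ℂ, ‖z‖ ≤ 1 → (h i z) ^ m * (1 - (aa i : ℂ) * h (i + 1) (z ^ m)) = h (i + 1) (z ^ m)) ∧
      (∀ ω z : ℂ, ω ^ m = 1 → ‖z‖ ≤ 1 → h i (ω * z) = ω * h i z)) :
    f 0 '' sphere 0 1 = gg (h 0) '' sphere 0 1 ∧
      IsWeilPetersson (f 0 '' sphere 0 1) 1 := by

  have a0 : ∀ i, 0 < aa i := fun i => (aa_facts i).1
  have a64 : ∀ i, 64 * aa i ≤ 1 / 8 := fun i => by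
    have := (aa_facts i).2.1
    norm_num at this ⊢
    linarith
  have hpl : ∀ (ε : ℝ) (H : ℂ → ℂ), ε ≤ 1 / 8 → Pl ε H → Pl (1 / 8) H := fun ε H h1 h2 z w =>
    (h2 z w).trans (mul_le_mul_of_nonneg_right h1 (norm_nonneg _))
  have fb := fun i => pl_basic (64 * aa i) (by have := a0 i; positivity) (a64 i) (f i) (hf i).2.1
    (hf i).1.zero
  have fP : ∀ i, Pl (1 / 8) (f i) := fun i => hpl _ _ (a64 i) (hf i).2.1
  have hP : ∀ i, Pl (1 / 8) (h i) := fun i => hpl _ _ (a64 i) (hh i).2.1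
  have pk := gg_pkg m hm1 h hh
  have hfn : ∀ i, ∀ z : ℂ, ‖z‖ = 1 → ‖f i z - z‖ ≤ 128 * aa i := by
    intro i z hz
    have h1 := ((fb i).2.1 z).2.2
    rw [hz, mul_one] at h1
    have := a0 i
    linarith
  have hsph : sphere (0 : ℂ) 1 ⊆ (ball 0 1)ᶜ := by
    intro z hz hz2
    rw [mem_sphere] at hz
    rw [mem_ball] at hz2
    linarith
  have hgc : ∀ i, ContinuousOn (gg (h i)) (sphere 0 1) := fun i =>
    (gg_open (h i) (hP i) (hh i).1.zero).2.2.1.mono hsph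
  have hcurve : ∀ i, f i '' sphere 0 1 = gg (h i) '' sphere 0 1 :=
    curves_eq m hm1 f (fun i => gg (h i)) α (fun i => (fb i).1.continuousOn) hgc hfn
      (fun i => (pk i).2.2.2) (fun i => (hf i).2.2.2.1) (fun i => (hf i).2.2.2.2.1)
      (fun i => (hf i).2.2.2.2.2) (fun i => (pk i).1) (fun i => (pk i).2.1)
  have hfb : ∀ i, ∀ z : ℂ, ‖z‖ ≤ 1 → ‖f i z‖ ≤ 2 := by
    intro i z hz
    have h1 := ((fb i).2.1 z).2.1
    linarith
  have hdisj : ∀ w ζ : ℂ, 1 < ‖w‖ → ‖ζ‖ ≤ 1 → gg (h 0) w ≠ f 0 ζ :=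
    disj_in_out m hm1 f (fun i => gg (h i)) α (fun i => (hf i).2.2.2.1) hfb
      (fun i w hw => ((pk i).2.2.1 w hw).1) (fun i => (hf i).2.2.2.2.1) (fun i => (pk i).1)
  have hio := inout_top (f 0) (h 0) (fP 0) (hP 0) (hf 0).1.zero (hh 0).1.zero (hcurve 0) hdisj
  have hJ := jordan (f 0) (fP 0)
  exact ⟨hcurve 0, wp_of (f 0) (h 0) (cls_mono _ _ (a64 0) _ (hf 0).1) (fP 0) (hf 0).2.2.1
    (cls_mono _ _ (a64 0) _ (hh 0).1) (hP 0) (hh 0).2.2.1 (hh 0).2.2.2.1 hio hJ⟩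

end Pool.Agent.Helper606.FW
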