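import Pool.Agent.Helper606.FW.Defs
import Pool.Agent.Helper606.FW.P_aa_facts
import Pool.Agent.Helper606.FW.P_gg_bounds
import Pool.Agent.Helper606.FW.P_gg_pkg
import Pool.Agent.Helper606.FW.P_pull_g
import Pool.Agent.Helper606.FW.P_FF_lower

set_option autoImplicit false

namespace Pool.Agent.Helper606.FW
open Complex Metric Set MeasureTheory Filter Topology


theorem assemble_FF (m : ℕ) (hm1 : 10 ^ 7 ≤ m) (h : ℕ → ℂ → ℂ)
    (hh : ∀ i, Cls (64 * aa i) (h i) ∧ Pl (64 * aa i) (h i) ∧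
      en (h i) < ⊤ ∧ deriv (h i) 0 = 1 ∧
      (∀ z : ℂ, ‖z‖ ≤ 1 → (h i z) ^ m * (1 - (aa i : ℂ) * h (i + 1) (z ^ m)) = h (i + 1) (z ^ m)) ∧
      (∀ ω z : ℂ, ω ^ m = 1 → ‖z‖ ≤ 1 → h i (ω * z) = ω * h i z)) :
    Bornology.IsBounded (gg (h 0) '' sphere 0 1) ∧
      ∀ j : ℕ, (10 : ℝ) ^ j ≤ FF (m ^ (j + 1)) (gg (h 0) '' sphere 0 1) := by
  have hb : Bornology.IsBounded (gg (h 0) '' sphere 0 1) := by
    rw [isBounded_iff_forall_norm_le]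
    refine ⟨2, ?_⟩
    rintro _ ⟨w, hw, rfl⟩
    have hw1 : ‖w‖ = 1 := mem_sphere_zero_iff_norm.1 hw
    have h1 := ((gg_pkg m hm1 h hh 0).2.2.1 w hw1.ge).2
    rw [hw1] at h1
    linarith
  refine ⟨hb, fun j => ?_⟩
  refine FF_lower m hm1 (fun i => gg (h i) '' sphere 0 1) ?_ hb ?_ j
  · rintro i y ⟨ξ, hξ, hy⟩
    have hξ1 : ‖ξ‖ = 1 := mem_sphere_zero_iff_norm.1 hξ
    obtain ⟨p1, p2, p3, -⟩ := gg_pkg m hm1 h hh i
    obtain ⟨ζ, hζ, hζy⟩ := pull_g m (by omega) (aa i) (gg (h i)) (gg (h (i + 1)))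
      (fun z hz h0 => by
        have h1 := (p3 z hz.ge).1
        rw [h0, hz, norm_zero] at h1
        norm_num at h1)
      (fun z hz => p1 z hz.ge) (fun ω z hω hz => p2 ω z hω hz.ge) y ξ hξ1 hy.symm
    exact ⟨ζ, mem_sphere_zero_iff_norm.2 hζ, hζy⟩
  · intro k
    have hn : ‖(-1 : ℂ)‖ = 1 := by simp
    refine ⟨gg (h (k + 1)) (-1), ⟨-1, mem_sphere_zero_iff_norm.2 hn, rfl⟩, ?_⟩
    have h1 := (gg_pkg m hm1 h hh (k + 1)).2.2.2 (-1) hn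
    rwa [sub_neg_eq_add] at h1

end Pool.Agent.Helper606.FW
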