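import Pool.Agent.Helper606.FW.Defs

set_option autoImplicit false

namespace Pool.Agent.Helper606.FW
open Complex Metric Set MeasureTheory Filter Topology


theorem closure_eq (u v : ℂ → ℂ) (hu : ContinuousOn u (closedBall 0 1))
    (hv : ContinuousOn v (closedBall 0 1)) (h : ∀ z ∈ ball (0 : ℂ) 1, u z = v z) :
    ∀ z ∈ closedBall (0 : ℂ) 1, u z = v z := by
  have hE : EqOn u v (ball (0 : ℂ) 1) := fun z hz => h z hz
  have hcl : closedBall (0 : ℂ) 1 ⊆ closure (ball (0 : ℂ) 1) :=
    (closure_ball (0 : ℂ) (one_ne_zero)).ge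
  exact fun z hz => hE.of_subset_closure hu hv ball_subset_closedBall hcl hz

end Pool.Agent.Helper606.FW
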