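import Pool.Agent.Helper606.FW.Defs

set_option autoImplicit false

namespace Pool.Agent.Helper606.FW
open Complex Metric Set MeasureTheory Filter Topology


theorem cls_congr (ε : ℝ) (F H : ℂ → ℂ) (h : Cls ε F) (hH : ∀ z : ℂ, ‖z‖ < 1 → H z = F z) :
    Cls ε H ∧ en H = en F := by
  have hev : ∀ z ∈ ball (0 : ℂ) 1, H =ᶠ[𝓝 z] F := by
    intro z hz
    filter_upwards [isOpen_ball.mem_nhds hz] with w hw
    exact hH w (mem_ball_zero_iff.1 hw)
  have hd : ∀ z ∈ ball (0 : ℂ) 1, deriv H z = deriv F z := fun z hz => (hev z hz).deriv_eq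
  have hd2 : ∀ z ∈ ball (0 : ℂ) 1, deriv (deriv H) z = deriv (deriv F) z := by
    intro z hz
    apply Filter.EventuallyEq.deriv_eq
    filter_upwards [isOpen_ball.mem_nhds hz] with w hw
    exact hd w hw
  refine ⟨⟨?_, ?_, ?_⟩, ?_⟩
  · exact h.diff.congr (fun z hz => hH z (mem_ball_zero_iff.1 hz))
  · rw [hH 0 (by simp)]
    exact h.zero
  · intro z hz
    rw [hd z hz]
    exact h.der z hz
  · unfold en
    refine setLIntegral_congr_fun isOpen_ball.measurableSet ?_
    intro z hz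
    show ENNReal.ofReal (‖deriv (deriv H) z / deriv H z‖ ^ 2) =
      ENNReal.ofReal (‖deriv (deriv F) z / deriv F z‖ ^ 2)
    rw [hd2 z hz, hd z hz]

end Pool.Agent.Helper606.FW
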