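import Pool.Agent.Helper606.FW.Defs
import Pool.Agent.Helper606.FW.P_cls_dslope

set_option autoImplicit false

namespace Pool.Agent.Helper606.FW
open Complex Metric Set MeasureTheory Filter Topology


theorem root_diff (m : ℕ) (hm : 10 ^ 7 ≤ m) (Y : ℂ → ℂ) (h : Cls (1 / 8) Y) :
    DifferentiableOn ℂ (rootOp m Y) (ball 0 1) ∧ rootOp m Y 0 = 0 ∧
      ∀ z ∈ ball (0 : ℂ) 1, (rootOp m Y z) ^ m = Y (z ^ m) := by
  have hm0 : m ≠ 0 := by
    intro h0; subst h0; norm_num at hm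
  have hmC : (m : ℂ) ≠ 0 := by exact_mod_cast hm0
  have hd : DifferentiableOn ℂ (dslope Y 0) (ball (0 : ℂ) 1) :=
    (Complex.differentiableOn_dslope (ball_mem_nhds (0 : ℂ) one_pos)).2 h.diff
  have hpow : ∀ z ∈ ball (0 : ℂ) 1, z ^ m ∈ ball (0 : ℂ) 1 := by
    intro z hz
    rw [mem_ball_zero_iff] at hz ⊢
    rw [norm_pow]
    exact pow_lt_one₀ (norm_nonneg z) hz hm0
  have hbd : ∀ z ∈ ball (0 : ℂ) 1, ‖dslope Y 0 (z ^ m) - 1‖ ≤ 1 / 8 := by
    intro z hz
    exact cls_dslope (1 / 8) Y h (z ^ m) (by have := hpow z hz; rwa [mem_ball_zero_iff] at this)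
  have hre : ∀ z ∈ ball (0 : ℂ) 1, 0 < (dslope Y 0 (z ^ m)).re := by
    intro z hz
    have h1 := (Complex.abs_re_le_norm (dslope Y 0 (z ^ m) - 1)).trans (hbd z hz)
    rw [Complex.sub_re, Complex.one_re] at h1
    have h2 := (abs_le.1 h1).1
    linarith
  have hslit : ∀ z ∈ ball (0 : ℂ) 1, dslope Y 0 (z ^ m) ∈ Complex.slitPlane := by
    intro z hz
    exact Or.inl (hre z hz)
  have hcomp : DifferentiableOn ℂ (fun z : ℂ => dslope Y 0 (z ^ m)) (ball (0 : ℂ) 1) := by
    have := hd.comp (f := fun z : ℂ => z ^ m) (s := ball (0 : ℂ) 1)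
      ((differentiable_id.pow m).differentiableOn) (fun z hz => hpow z hz)
    exact this
  refine ⟨?_, ?_, ?_⟩
  · have h1 : DifferentiableOn ℂ (fun z : ℂ => Complex.log (dslope Y 0 (z ^ m)))
        (ball (0 : ℂ) 1) := hcomp.clog hslit
    have h2 : DifferentiableOn ℂ (fun z : ℂ => Complex.exp (Complex.log (dslope Y 0 (z ^ m)) / m))
        (ball (0 : ℂ) 1) := (h1.div_const (m : ℂ)).cexp
    exact differentiableOn_id.mul h2
  · simp [rootOp]
  · intro z hz
    have hne : dslope Y 0 (z ^ m) ≠ 0 := by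
      intro h0
      have := hre z hz
      rw [h0] at this
      simp at this
    have e1 : (rootOp m Y z) ^ m = z ^ m * dslope Y 0 (z ^ m) := by
      unfold rootOp
      rw [mul_pow, ← Complex.exp_nat_mul]
      congr 1
      rw [mul_div_cancel₀ _ hmC]
      exact Complex.exp_log hne
    rw [e1]
    have e2 := sub_smul_dslope Y 0 (z ^ m)
    rw [sub_zero, smul_eq_mul, h.zero, sub_zero] at e2
    exact e2

end Pool.Agent.Helper606.FW
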