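import Pool.Agent.Helper606.FW.Defs
import Pool.Agent.Helper606.FW.P_cls_dslope
import Pool.Agent.Helper606.FW.P_root_diff

set_option autoImplicit false

namespace Pool.Agent.Helper606.FW
open Complex Metric Set MeasureTheory Filter Topology


theorem root_deriv (m : ℕ) (hm : 10 ^ 7 ≤ m) (Y : ℂ → ℂ) (h : Cls (1 / 8) Y) (z : ℂ)
    (hz : z ∈ ball (0 : ℂ) 1) :
    deriv (rootOp m Y) z = Complex.exp (Complex.log (dslope Y 0 (z ^ m)) / m) *
      (deriv Y (z ^ m) / dslope Y 0 (z ^ m)) := by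
  have hm0 : (m : ℂ) ≠ 0 := by
    have : m ≠ 0 := by
      intro h0
      rw [h0] at hm
      norm_num at hm
    exact_mod_cast this
  have hm1 : m ≠ 0 := by exact_mod_cast hm0
  have hz1 : ‖z‖ < 1 := by simpa using hz
  have hu : ‖z ^ m‖ < 1 := by
    rw [norm_pow]
    exact pow_lt_one₀ (norm_nonneg _) hz1 hm1
  have hub : z ^ m ∈ ball (0 : ℂ) 1 := by simpa using hu
  have hq := cls_dslope (1/8) Y h (z ^ m) hu
  have hslit : dslope Y 0 (z ^ m) ∈ Complex.slitPlane := by
    rw [Complex.mem_slitPlane_iff]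
    left
    have h1 := Complex.abs_re_le_norm (dslope Y 0 (z ^ m) - 1)
    rw [Complex.sub_re, Complex.one_re] at h1
    have h2 := (abs_le.1 (h1.trans hq)).1
    linarith
  have hq0 : dslope Y 0 (z ^ m) ≠ 0 := Complex.slitPlane_ne_zero hslit
  have hdiff : DifferentiableOn ℂ (dslope Y 0) (ball 0 1) :=
    (Complex.differentiableOn_dslope (ball_mem_nhds 0 one_pos)).2 h.diff
  have hqd : HasDerivAt (dslope Y 0) (deriv (dslope Y 0) (z ^ m)) (z ^ m) :=
    (hdiff.differentiableAt (isOpen_ball.mem_nhds hub)).hasDerivAt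
  have hY : Y = fun v => v * dslope Y 0 v := by
    funext v
    have := sub_smul_dslope Y 0 v
    rw [h.zero, sub_zero, sub_zero, smul_eq_mul] at this
    exact this.symm
  have hYd : deriv Y (z ^ m) = dslope Y 0 (z ^ m) + z ^ m * deriv (dslope Y 0) (z ^ m) := by
    have h3 : HasDerivAt (fun v => v * dslope Y 0 v)
        (1 * dslope Y 0 (z ^ m) + z ^ m * deriv (dslope Y 0) (z ^ m)) (z ^ m) :=
      (hasDerivAt_id (z ^ m)).mul hqd
    have h4 : HasDerivAt Y
        (1 * dslope Y 0 (z ^ m) + z ^ m * deriv (dslope Y 0) (z ^ m)) (z ^ m) := by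
      rw [hY]
      convert h3 using 2 <;> rw [← hY]
    rw [h4.deriv, one_mul]
  have hpow : HasDerivAt (fun w : ℂ => w ^ m) ((m : ℂ) * z ^ (m - 1)) z := hasDerivAt_pow m z
  have hcomp : HasDerivAt (fun w : ℂ => dslope Y 0 (w ^ m))
      (deriv (dslope Y 0) (z ^ m) * ((m : ℂ) * z ^ (m - 1))) z :=
    HasDerivAt.comp z hqd hpow
  have hlog := (hcomp.clog hslit).div_const (m : ℂ)
  have hexp := hlog.cexp
  have hR : HasDerivAt (rootOp m Y) (1 * Complex.exp (Complex.log (dslope Y 0 (z ^ m)) / m) +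
      z * (Complex.exp (Complex.log (dslope Y 0 (z ^ m)) / m) *
        (deriv (dslope Y 0) (z ^ m) * ((m : ℂ) * z ^ (m - 1)) / dslope Y 0 (z ^ m) / m))) z :=
    (hasDerivAt_id z).mul hexp
  rw [hR.deriv, hYd]
  have hzm : z ^ m = z * z ^ (m - 1) := by
    rw [← pow_succ']
    congr 1
    omega
  field_simp
  rw [hzm]
  ring

end Pool.Agent.Helper606.FW
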