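import Pool.Agent.Helper606.FW.Defs
import Pool.Agent.Helper606.FW.P_cls_lip

set_option autoImplicit false

namespace Pool.Agent.Helper606.FW
open Complex Metric Set MeasureTheory Filter Topology


theorem stepEx_cls (a : ℝ) (ha0 : 0 ≤ a) (ha : a ≤ 1 / 10 ^ 6) (ε : ℝ) (hε0 : 0 ≤ ε)
    (hε : ε ≤ 1 / 8) (F : ℂ → ℂ) (h : Cls ε F) : Cls (2 * ε + 8 * a) (stepEx a F) := by
  have hF : ∀ z ∈ ball (0 : ℂ) 1, ‖F z‖ ≤ 9 / 8 := by
    intro z hz
    have hz1 : ‖z‖ < 1 := by simpa using hz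
    have h1 := cls_lip ε F h z 0 hz1 (by simp)
    rw [h.zero, sub_zero, sub_zero, sub_zero] at h1
    have h2 : ‖F z‖ ≤ ‖F z - z‖ + ‖z‖ := by
      have := norm_add_le (F z - z) z
      simpa using this
    have h3 : ε * ‖z‖ ≤ 1 / 8 * 1 := mul_le_mul hε hz1.le (norm_nonneg _) (by norm_num)
    linarith
  have haF : ∀ z ∈ ball (0 : ℂ) 1, ‖(a : ℂ) * F z‖ ≤ a * (9 / 8) := by
    intro z hz
    rw [norm_mul, Complex.norm_real, Real.norm_eq_abs, abs_of_nonneg ha0]
    exact mul_le_mul_of_nonneg_left (hF z hz) ha0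
  have hden : ∀ z ∈ ball (0 : ℂ) 1, 999 / 1000 ≤ ‖1 - (a : ℂ) * F z‖ := by
    intro z hz
    have h1 := norm_sub_norm_le (1 : ℂ) ((a : ℂ) * F z)
    rw [norm_one] at h1
    have h2 := haF z hz
    have h3 : a * (9 / 8) ≤ 1 / 10 ^ 6 * (9 / 8) := by gcongr
    norm_num at h3
    linarith
  have hne : ∀ z ∈ ball (0 : ℂ) 1, 1 - (a : ℂ) * F z ≠ 0 := by
    intro z hz h0
    have h1 := hden z hz
    rw [h0, norm_zero] at h1
    norm_num at h1
  have hd : ∀ z ∈ ball (0 : ℂ) 1, HasDerivAt (stepEx a F)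
      ((deriv F z * (1 - (a : ℂ) * F z) - F z * (-((a : ℂ) * deriv F z))) /
        (1 - (a : ℂ) * F z) ^ 2) z := by
    intro z hz
    have hFd : HasDerivAt F (deriv F z) z :=
      (h.diff.differentiableAt (isOpen_ball.mem_nhds hz)).hasDerivAt
    exact hFd.fun_div ((hFd.const_mul (a : ℂ)).const_sub 1) (hne z hz)
  refine ⟨fun z hz => (hd z hz).differentiableAt.differentiableWithinAt, ?_, ?_⟩
  · unfold stepEx
    rw [h.zero]
    simp
  · intro z hz
    rw [(hd z hz).deriv]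
    have hn := hne z hz
    have e1 : (deriv F z * (1 - (a : ℂ) * F z) - F z * (-((a : ℂ) * deriv F z))) /
        (1 - (a : ℂ) * F z) ^ 2 - 1 =
        ((deriv F z - 1) + (2 * ((a : ℂ) * F z) - ((a : ℂ) * F z) ^ 2)) /
          (1 - (a : ℂ) * F z) ^ 2 := by
      field_simp
      ring
    rw [e1, norm_div, norm_pow, div_le_iff₀ (by have := hden z hz; positivity)]
    have h1 := h.der z hz
    have h2 := haF z hz
    have h3 := hden z hz
    have h4 : ‖(deriv F z - 1) + (2 * ((a : ℂ) * F z) - ((a : ℂ) * F z) ^ 2)‖ ≤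
        ε + (2 * (a * (9 / 8)) + (a * (9 / 8)) ^ 2) := by
      refine (norm_add_le _ _).trans (add_le_add h1 ?_)
      refine (norm_sub_le _ _).trans (add_le_add ?_ ?_)
      · rw [norm_mul]
        have : ‖(2 : ℂ)‖ = 2 := by simp
        rw [this]
        exact mul_le_mul_of_nonneg_left h2 (by norm_num)
      · rw [norm_pow]
        exact pow_le_pow_left₀ (norm_nonneg _) h2 2
    have h5 : (1 / 2 : ℝ) ≤ ‖1 - (a : ℂ) * F z‖ ^ 2 := by
      calc (1 / 2 : ℝ) ≤ (999 / 1000) ^ 2 := by norm_num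
        _ ≤ _ := pow_le_pow_left₀ (by norm_num) h3 2
    calc _ ≤ _ := h4
      _ ≤ (2 * ε + 8 * a) * (1 / 2) := by nlinarith
      _ ≤ _ := mul_le_mul_of_nonneg_left h5 (by positivity)

end Pool.Agent.Helper606.FW
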