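import Pool.Agent.Helper606.FW.Defs
import Pool.Agent.Helper606.FW.P_root_deriv
import Pool.Agent.Helper606.FW.P_stepEx_cls
import Pool.Agent.Helper606.FW.P_aa_facts
import Pool.Agent.Helper606.FW.P_cls_mono

set_option autoImplicit false

namespace Pool.Agent.Helper606.FW
open Complex Metric Set MeasureTheory Filter Topology

theorem deriv_one_step (m : ℕ) (hm1 : 10 ^ 7 ≤ m) (a : ℝ) (ha0 : 0 ≤ a) (ha : a ≤ 1 / 10 ^ 6)
    (F G : ℂ → ℂ) (hF : Cls (1 / 100) F) 
    (hr : ∀ z ∈ ball (0 : ℂ) 1, G z = rootOp m (stepEx a F) z) :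
    deriv G 0 = Complex.exp (Complex.log (deriv F 0) / m) := by
  have hY : Cls (1 / 8) (stepEx a F) := by
    refine cls_mono _ _ ?_ _ (stepEx_cls a ha0 ha (1/100) (by norm_num) (by norm_num) F hF)
    norm_num at ha ⊢
    linarith
  have hEq : G =ᶠ[𝓝 (0 : ℂ)] rootOp m (stepEx a F) := by
    filter_upwards [Metric.ball_mem_nhds (0 : ℂ) one_pos] with z hz using hr z hz
  have h0 : (0 : ℂ) ∈ ball (0 : ℂ) 1 := by simp
  have hd := root_deriv m hm1 (stepEx a F) hY 0 h0
  have hm0 : m ≠ 0 := by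
    rintro rfl; norm_num at hm1
  rw [hEq.deriv_eq, hd, zero_pow hm0, dslope_same]
  have hne : deriv (stepEx a F) 0 ≠ 0 := by
    intro h
    have := hY.der 0 h0
    rw [h] at this
    norm_num at this
  rw [div_self hne, mul_one]
  have hFd : DifferentiableAt ℂ F 0 := hF.diff.differentiableAt (Metric.ball_mem_nhds _ one_pos)
  have hder : HasDerivAt (stepEx a F) (deriv F 0) 0 := by
    have h1 : HasDerivAt F (deriv F 0) 0 := hFd.hasDerivAt
    have h2 : HasDerivAt (fun u => 1 - (a : ℂ) * F u) (-((a : ℂ) * deriv F 0)) 0 := by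
      simpa using (h1.const_mul (a : ℂ)).const_sub 1
    have h3 := h1.div h2 (by rw [hF.zero]; simp)
    have hval : (deriv F 0 * (1 - (a : ℂ) * F 0) - F 0 * -((a : ℂ) * deriv F 0)) /
        (1 - (a : ℂ) * F 0) ^ 2 = deriv F 0 := by rw [hF.zero]; simp
    rw [hval] at h3
    exact h3
  rw [hder.deriv]

theorem deriv_one (m : ℕ) (hm1 : 10 ^ 7 ≤ m) (h : ℕ → ℂ → ℂ) (hc : ∀ i, Cls (64 * aa i) (h i))
    (hr : ∀ i, ∀ z ∈ ball (0 : ℂ) 1, h i z = rootOp m (stepEx (aa i) (h (i + 1))) z) :
    ∀ i, deriv (h i) 0 = 1 := by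
  have hm0 : (0 : ℝ) < m := by
    have : 0 < m := lt_of_lt_of_le (by norm_num) hm1
    exact_mod_cast this
  have h0 : (0 : ℂ) ∈ ball (0 : ℂ) 1 := by simp
  have hc' : ∀ i, Cls (1 / 100) (h i) := fun i => cls_mono _ _ (by
    have := (aa_facts i).2.1
    norm_num at this ⊢
    linarith) _ (hc i)
  have hstep : ∀ i, deriv (h i) 0 = Complex.exp (Complex.log (deriv (h (i + 1)) 0) / m) :=
    fun i => deriv_one_step m hm1 (aa i) (aa_facts i).1.le (aa_facts i).2.1 (h (i + 1)) (h i)
      (hc' (i + 1)) (hr i)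
  have hl : ∀ i, ‖Complex.log (deriv (h i) 0)‖ ≤ 1 := by
    intro i
    have h1 : ‖deriv (h i) 0 - 1‖ ≤ 1 / 100 := (hc' i).der 0 h0
    have h2 := Complex.norm_log_one_add_half_le_self (z := deriv (h i) 0 - 1) (by linarith)
    rw [add_sub_cancel] at h2
    linarith
  have hrec : ∀ i, Complex.log (deriv (h i) 0) = Complex.log (deriv (h (i + 1)) 0) / m := by
    intro i
    have hn : ‖Complex.log (deriv (h (i + 1)) 0) / m‖ ≤ 1 := by
      rw [norm_div, Complex.norm_natCast, div_le_one hm0]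
      have : (1 : ℝ) ≤ m := by
        have : 1 ≤ m := le_trans (by norm_num) hm1
        exact_mod_cast this
      linarith [hl (i + 1)]
    rw [hstep i, Complex.log_exp]
    · have := Complex.abs_im_le_norm (Complex.log (deriv (h (i + 1)) 0) / m)
      have h3 := abs_le.mp (this.trans hn)
      linarith [Real.pi_gt_three, h3.1]
    · have := Complex.abs_im_le_norm (Complex.log (deriv (h (i + 1)) 0) / m)
      have h3 := abs_le.mp (this.trans hn)
      linarith [Real.pi_gt_three, h3.2]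
  have hk : ∀ k i, ‖Complex.log (deriv (h i) 0)‖ ≤ (1 / 2 : ℝ) ^ k := by
    intro k
    induction k with
    | zero => intro i; simpa using hl i
    | succ k ih =>
      intro i
      rw [hrec i, norm_div, Complex.norm_natCast, pow_succ, div_eq_mul_inv]
      have h2 : ((m : ℝ))⁻¹ ≤ 1 / 2 := by
        rw [inv_eq_one_div]
        apply one_div_le_one_div_of_le (by norm_num)
        have : 2 ≤ m := le_trans (by norm_num) hm1
        exact_mod_cast this
      exact mul_le_mul (ih (i + 1)) h2 (by positivity) (by positivity)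
  intro i
  have hz : Complex.log (deriv (h i) 0) = 0 := by
    rw [← norm_le_zero_iff]
    refine ge_of_tendsto' (tendsto_pow_atTop_nhds_zero_of_lt_one (r := (1 / 2 : ℝ)) (by norm_num) (by norm_num)) (fun k => hk k i)
  have hne : deriv (h i) 0 ≠ 0 := by
    intro h'
    have := (hc' i).der 0 h0
    rw [h'] at this
    norm_num at this
  rw [← Complex.exp_log hne, hz, Complex.exp_zero]

end Pool.Agent.Helper606.FW
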