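import Pool.Agent.Helper606.FW.Defs

set_option autoImplicit false

namespace Pool.Agent.Helper606.FW
open Complex Metric Set MeasureTheory Filter Topology

theorem extx_var (z w : ℂ) (hw : ‖w‖ ≤ 1) :
    inner ℝ (z - (max 1 ‖z‖)⁻¹ • z) (w - (max 1 ‖z‖)⁻¹ • z) ≤ 0 := by
  rcases le_or_gt ‖z‖ 1 with h1 | h1
  · rw [max_eq_left h1]
    simp
  · rw [max_eq_right h1.le]
    have hz : z - (‖z‖)⁻¹ • z = (1 - (‖z‖)⁻¹) • z := by
      rw [sub_smul, one_smul]
    rw [hz, real_inner_smul_left, inner_sub_right, real_inner_smul_right,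
      real_inner_self_eq_norm_sq]
    have h2 : inner ℝ z w ≤ ‖z‖ * ‖w‖ := real_inner_le_norm z w
    have h3 : (‖z‖)⁻¹ * ‖z‖ ^ 2 = ‖z‖ := by
      have : ‖z‖ ≠ 0 := by linarith
      field_simp
    rw [h3]
    have h4 : (‖z‖)⁻¹ ≤ 1 := inv_le_one_of_one_le₀ h1.le
    have h5 : inner ℝ z w - ‖z‖ ≤ 0 := by nlinarith [norm_nonneg z]
    exact mul_nonpos_of_nonneg_of_nonpos (by linarith) h5

theorem extx_norm_le (z : ℂ) : ‖(max 1 ‖z‖)⁻¹ • z‖ ≤ 1 := by
  have hm : 0 < max 1 ‖z‖ := lt_of_lt_of_le one_pos (le_max_left _ _)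
  rw [norm_smul, norm_inv, Real.norm_of_nonneg hm.le, inv_mul_le_iff₀ hm, mul_one]
  exact le_max_right _ _

theorem extx_lip (z w : ℂ) :
    ‖(max 1 ‖z‖)⁻¹ • z - (max 1 ‖w‖)⁻¹ • w‖ ≤ ‖z - w‖ := by
  set p := (max 1 ‖z‖)⁻¹ • z with hp
  set q := (max 1 ‖w‖)⁻¹ • w with hq
  have h1 : inner ℝ (z - p) (q - p) ≤ 0 := extx_var z q (extx_norm_le w)
  have h2 : inner ℝ (w - q) (p - q) ≤ 0 := extx_var w p (extx_norm_le z)
  have h3 : inner ℝ (z - p) (p - q) ≥ 0 := by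
    have : q - p = -(p - q) := by ring
    rw [this, inner_neg_right] at h1
    linarith
  have h4 : inner ℝ ((z - p) - (w - q)) (p - q) ≥ 0 := by
    rw [inner_sub_left]
    linarith
  have h5 : (z - p) - (w - q) = (z - w) - (p - q) := by ring
  rw [h5, inner_sub_left, real_inner_self_eq_norm_sq] at h4
  have h6 : inner ℝ (z - w) (p - q) ≤ ‖z - w‖ * ‖p - q‖ := real_inner_le_norm _ _
  rcases (norm_nonneg (p - q)).eq_or_lt with h7 | h7
  · rw [← h7]
    exact norm_nonneg _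
  · nlinarith

theorem ext_exists (ε : ℝ) (hε : 0 ≤ ε) (F : ℂ → ℂ)
    (h : ∀ z w : ℂ, ‖z‖ < 1 → ‖w‖ < 1 → ‖(F z - z) - (F w - w)‖ ≤ ε * ‖z - w‖) :
    ∃ H : ℂ → ℂ, (∀ z : ℂ, ‖z‖ < 1 → H z = F z) ∧ Pl ε H := by
  classical
  -- the scaling sequence
  let r : ℕ → ℝ := fun n => 1 - 1 / ((n : ℝ) + 1)
  have hr0 : ∀ n, 0 ≤ r n := by
    intro n
    have : 1 / ((n : ℝ) + 1) ≤ 1 := by
      rw [div_le_one (by positivity)]
      have := Nat.cast_nonneg (α := ℝ) n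
      linarith
    show 0 ≤ 1 - 1 / ((n : ℝ) + 1)
    linarith
  have hr1 : ∀ n, r n < 1 := by
    intro n
    have : 0 < 1 / ((n : ℝ) + 1) := by positivity
    show 1 - 1 / ((n : ℝ) + 1) < 1
    linarith
  have hrt : Tendsto r atTop (𝓝 1) := by
    have h1 := (tendsto_one_div_add_atTop_nhds_zero_nat (𝕜 := ℝ)).const_sub 1
    rw [sub_zero] at h1
    exact h1
  have hrc : CauchySeq r := hrt.cauchySeq
  have hball : ∀ n (z : ℂ), ‖z‖ ≤ 1 → ‖r n • z‖ < 1 := by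
    intro n z hz
    rw [norm_smul, Real.norm_of_nonneg (hr0 n)]
    have h1 := hr1 n
    have h2 := hr0 n
    nlinarith [norm_nonneg z]
  let u : ℂ → ℂ := fun z => F z - z
  have hu : ∀ z w : ℂ, ‖z‖ < 1 → ‖w‖ < 1 → ‖u z - u w‖ ≤ ε * ‖z - w‖ := h
  have hC : ∀ z : ℂ, ‖z‖ ≤ 1 → ∃ y : ℂ, Tendsto (fun n => u (r n • z)) atTop (𝓝 y) := by
    intro z hz
    apply cauchySeq_tendsto_of_complete
    rw [Metric.cauchySeq_iff] at hrc ⊢
    intro δ hδ
    obtain ⟨N, hN⟩ := hrc (δ / (ε + 1)) (by positivity)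
    refine ⟨N, fun m hm n hn => ?_⟩
    have h1 := hN m hm n hn
    rw [Real.dist_eq] at h1
    rw [dist_eq_norm]
    have h2 := hu (r m • z) (r n • z) (hball m z hz) (hball n z hz)
    rw [← sub_smul, norm_smul, Real.norm_eq_abs] at h2
    have h3 : |r m - r n| * ‖z‖ ≤ |r m - r n| := by
      nlinarith [abs_nonneg (r m - r n), norm_nonneg z]
    have h4 : (ε + 1) * |r m - r n| < δ := by
      rw [lt_div_iff₀ (by positivity)] at h1
      linarith
    have h5 : ε * (|r m - r n| * ‖z‖) ≤ ε * |r m - r n| := mul_le_mul_of_nonneg_left h3 hε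
    have h6 := abs_nonneg (r m - r n)
    nlinarith
  let K : ℂ → ℂ := fun z => if hz : ‖z‖ ≤ 1 then (hC z hz).choose else 0
  have hK : ∀ z : ℂ, ‖z‖ ≤ 1 → Tendsto (fun n => u (r n • z)) atTop (𝓝 (K z)) := by
    intro z hz
    have : K z = (hC z hz).choose := dif_pos hz
    rw [this]
    exact (hC z hz).choose_spec
  have hKL : ∀ z w : ℂ, ‖z‖ ≤ 1 → ‖w‖ ≤ 1 → ‖K z - K w‖ ≤ ε * ‖z - w‖ := by
    intro z w hz hw
    have h1 := ((hK z hz).sub (hK w hw)).norm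
    apply le_of_tendsto h1
    filter_upwards with n
    have h2 := hu (r n • z) (r n • w) (hball n z hz) (hball n w hw)
    rw [← smul_sub, norm_smul, Real.norm_of_nonneg (hr0 n)] at h2
    have h3 : r n * ‖z - w‖ ≤ ‖z - w‖ := by
      have := hr1 n
      nlinarith [norm_nonneg (z - w)]
    exact h2.trans (mul_le_mul_of_nonneg_left h3 hε)
  have hKu : ∀ z : ℂ, ‖z‖ < 1 → K z = u z := by
    intro z hz
    refine tendsto_nhds_unique (hK z hz.le) ?_
    rw [tendsto_iff_norm_sub_tendsto_zero]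
    have h1 : Tendsto (fun n => ε * (|r n - 1| * ‖z‖)) atTop (𝓝 0) := by
      have h2 : Tendsto (fun n => ε * (|r n - 1| * ‖z‖)) atTop (𝓝 (ε * (|(1:ℝ) - 1| * ‖z‖))) := by
        apply Tendsto.const_mul
        apply Tendsto.mul_const
        exact (hrt.sub_const 1).abs
      simpa using h2
    refine squeeze_zero (fun n => norm_nonneg _) (fun n => ?_) h1
    have h2 := hu (r n • z) z (hball n z hz.le) hz
    have h3 : r n • z - z = (r n - 1) • z := by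
      rw [sub_smul (r n) 1 z, one_smul]
    rw [h3, norm_smul, Real.norm_eq_abs] at h2
    exact h2
  refine ⟨fun z => z + K ((max 1 ‖z‖)⁻¹ • z), ?_, ?_⟩
  · intro z hz
    have h1 : (max 1 ‖z‖)⁻¹ • z = z := by
      rw [max_eq_left hz.le]; simp
    show z + K ((max 1 ‖z‖)⁻¹ • z) = F z
    rw [h1, hKu z hz]
    show z + (F z - z) = F z
    ring
  · intro z w
    show ‖(z + K ((max 1 ‖z‖)⁻¹ • z) - z) - (w + K ((max 1 ‖w‖)⁻¹ • w) - w)‖ ≤ ε * ‖z - w‖
    rw [add_sub_cancel_left, add_sub_cancel_left]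
    exact (hKL _ _ (extx_norm_le z) (extx_norm_le w)).trans
      (mul_le_mul_of_nonneg_left (extx_lip z w) hε)

end Pool.Agent.Helper606.FW
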