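import Pool.Agent.Helper606.FW.Defs
import Pool.Agent.Helper606.FW.P_cls_dslope
import Pool.Agent.Helper606.FW.P_root_diff
import Pool.Agent.Helper606.FW.P_root_deriv
import Pool.Agent.Helper606.FW.P_cls_mono

set_option autoImplicit false

namespace Pool.Agent.Helper606.FW
open Complex Metric Set MeasureTheory Filter Topology


theorem root_cls (m : ℕ) (hm : 10 ^ 7 ≤ m) (ε : ℝ) (hε0 : 0 ≤ ε) (hε : ε ≤ 1 / 8) (Y : ℂ → ℂ)
    (h : Cls ε Y) : Cls (4 * ε) (rootOp m Y) := by
  have h8 : Cls (1 / 8) Y := cls_mono ε (1 / 8) hε Y h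
  obtain ⟨hd, h0, _⟩ := root_diff m hm Y h8
  refine ⟨hd, h0, fun z hz => ?_⟩
  have hm0 : m ≠ 0 := by
    have : 0 < 10 ^ 7 := by norm_num
    omega
  have hz1 : ‖z‖ < 1 := by simpa using hz
  have hu : ‖z ^ m‖ < 1 := by
    rw [norm_pow]
    exact pow_lt_one₀ (norm_nonneg _) hz1 hm0
  have hub : z ^ m ∈ ball (0 : ℂ) 1 := by simpa using hu
  have hq := cls_dslope ε Y h (z ^ m) hu
  have hD := h.der (z ^ m) hub
  rw [root_deriv m hm Y h8 z hz]
  set q := dslope Y 0 (z ^ m) with hqdef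
  set D := deriv Y (z ^ m) with hDdef
  have hqn : 7 / 8 ≤ ‖q‖ := by
    have h1 : ‖(1 : ℂ)‖ ≤ ‖q‖ + ‖q - 1‖ := by
      have h2 : (1 : ℂ) = q - (q - 1) := by ring
      calc ‖(1 : ℂ)‖ = ‖q - (q - 1)‖ := by rw [← h2]
        _ ≤ _ := norm_sub_le _ _
    rw [norm_one] at h1
    linarith
  have hq0 : q ≠ 0 := by
    intro h1
    rw [h1, norm_zero] at hqn
    linarith
  have hDq : ‖D / q - 1‖ ≤ 16 / 7 * ε := by
    have h1 : D / q - 1 = (D - 1 - (q - 1)) / q := by
      field_simp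
      ring
    rw [h1, norm_div, div_le_iff₀ (by linarith)]
    have h2 : ‖D - 1 - (q - 1)‖ ≤ ε + ε := (norm_sub_le _ _).trans (add_le_add hD hq)
    nlinarith
  have hDq' : ‖D / q‖ ≤ 9 / 7 := by
    have h1 : D / q = (D / q - 1) + 1 := by ring
    rw [h1]
    refine (norm_add_le _ _).trans ?_
    rw [norm_one]
    linarith
  have hlog : ‖Complex.log q‖ ≤ 3 / 2 * ε := by
    have h1 := Complex.norm_log_one_add_half_le_self (z := q - 1) (by linarith)
    rw [add_sub_cancel] at h1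
    linarith
  have hmr : (10 : ℝ) ^ 7 ≤ (m : ℝ) := by exact_mod_cast hm
  have hmpos : (0 : ℝ) < m := by
    have : (0 : ℝ) < 10 ^ 7 := by norm_num
    linarith
  have hlm : ‖Complex.log q / m‖ ≤ 3 / 2 * ε / 10 ^ 7 := by
    rw [norm_div, Complex.norm_natCast]
    gcongr
  have hE : ‖Complex.exp (Complex.log q / m) - 1‖ ≤ 2 * (3 / 2 * ε / 10 ^ 7) := by
    have h1 := Complex.norm_exp_sub_one_le (x := Complex.log q / m) (by
      refine hlm.trans ?_
      rw [div_le_one (by norm_num)]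
      norm_num
      linarith)
    linarith
  have hsplit : Complex.exp (Complex.log q / m) * (D / q) - 1 =
      (Complex.exp (Complex.log q / m) - 1) * (D / q) + (D / q - 1) := by ring
  rw [hsplit]
  calc ‖(Complex.exp (Complex.log q / m) - 1) * (D / q) + (D / q - 1)‖
      ≤ ‖Complex.exp (Complex.log q / m) - 1‖ * ‖D / q‖ + ‖D / q - 1‖ := by
        refine (norm_add_le _ _).trans ?_
        rw [norm_mul]
    _ ≤ (2 * (3 / 2 * ε / 10 ^ 7)) * (9 / 7) + 16 / 7 * ε := by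
        gcongr
    _ ≤ 4 * ε := by
        have : (2 * (3 / 2 * ε / 10 ^ 7)) ≤ ε := by
          norm_num
          linarith
        linarith

end Pool.Agent.Helper606.FW
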