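import Pool.Agent.Helper606.FW.Defs
import Pool.Agent.Helper606.FW.P_root_cls
import Pool.Agent.Helper606.FW.P_aa_facts
import Pool.Agent.Helper606.FW.P_cls_mono

set_option autoImplicit false

namespace Pool.Agent.Helper606.FW
open Complex Metric Set MeasureTheory Filter Topology


theorem iter_cls (m : ℕ) (hm1 : 10 ^ 7 ≤ m) (hm2 : m ≤ 10 ^ 10) (S : ℕ → (ℂ → ℂ) → (ℂ → ℂ))
    (hS : ∀ i, Step (aa i) (S i)) (j i : ℕ) : Cls (64 * aa i) (iter m S j i) := by
  induction j generalizing i with
  | zero =>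
    obtain ⟨h1, _, _⟩ := aa_facts i
    refine ⟨differentiableOn_id, rfl, fun z _ => ?_⟩
    have : deriv (iter m S 0 i) z = 1 := by
      show deriv (fun z : ℂ => z) z = 1
      exact deriv_id z
    rw [this, sub_self, norm_zero]
    positivity
  | succ j ih =>
    obtain ⟨h1, h2, h3⟩ := aa_facts i
    obtain ⟨h4, h5, h6⟩ := aa_facts (i + 1)
    have e1 := (hS i).cls (64 * aa (i + 1)) _ (by positivity) (by linarith) (ih (i + 1))
    have e2 := root_cls m hm1 _ (by positivity) (by rw [h3]; linarith) _ e1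
    refine cls_mono _ _ ?_ _ e2
    rw [h3]
    linarith

end Pool.Agent.Helper606.FW
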