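import Pool.Agent.Helper606.FW.Defs
import Pool.Agent.Helper606.FW.P_cls_dslope
import Pool.Agent.Helper606.FW.P_root_diff

set_option autoImplicit false

namespace Pool.Agent.Helper606.FW
open Complex Metric Set MeasureTheory Filter Topology


theorem root_lip_log {p q : ℂ} (hp : ‖p - 1‖ ≤ 1 / 8) (hq : ‖q - 1‖ ≤ 1 / 8) :
    ‖Complex.log p - Complex.log q‖ ≤ 8 / 7 * ‖p - q‖ := by
  have hre : ∀ x ∈ closedBall (1 : ℂ) (1 / 8), 7 / 8 ≤ x.re := by
    intro x hx
    rw [mem_closedBall, dist_eq_norm] at hx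
    have h1 := (Complex.abs_re_le_norm (x - 1)).trans hx
    rw [Complex.sub_re, Complex.one_re] at h1
    have := (abs_le.1 h1).1
    linarith
  refine Convex.norm_image_sub_le_of_norm_hasDerivWithin_le (f := Complex.log)
    (f' := fun x => x⁻¹) (s := closedBall (1 : ℂ) (1 / 8)) ?_ ?_ (convex_closedBall _ _) ?_ ?_
  · intro x hx
    apply HasDerivAt.hasDerivWithinAt
    apply Complex.hasDerivAt_log
    rw [Complex.mem_slitPlane_iff]
    left
    have := hre x hx
    linarith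
  · intro x hx
    have h1 := hre x hx
    have h2 : 7 / 8 ≤ ‖x‖ := h1.trans ((le_abs_self _).trans (Complex.abs_re_le_norm x))
    rw [norm_inv]
    rw [inv_le_comm₀ (by linarith) (by norm_num)]
    linarith
  · rw [mem_closedBall, dist_eq_norm]; exact hq
  · rw [mem_closedBall, dist_eq_norm]; exact hp

theorem root_lip_exp {p q : ℂ} (hp : ‖p‖ ≤ 1) (hq : ‖q‖ ≤ 1) :
    ‖Complex.exp p - Complex.exp q‖ ≤ 3 * ‖p - q‖ := by
  refine Convex.norm_image_sub_le_of_norm_hasDerivWithin_le (f := Complex.exp)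
    (f' := Complex.exp) (s := closedBall (0 : ℂ) 1) ?_ ?_ (convex_closedBall _ _) ?_ ?_
  · intro x _
    exact (Complex.hasDerivAt_exp x).hasDerivWithinAt
  · intro x hx
    rw [mem_closedBall, dist_zero_right] at hx
    rw [Complex.norm_exp]
    have h1 : x.re ≤ 1 := (le_abs_self _).trans ((Complex.abs_re_le_norm x).trans hx)
    have h2 := Real.exp_le_exp.2 h1
    have h3 := Real.exp_one_lt_d9
    linarith
  · rw [mem_closedBall, dist_zero_right]; exact hq
  · rw [mem_closedBall, dist_zero_right]; exact hp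

theorem root_lip (m : ℕ) (hm : 10 ^ 7 ≤ m) (Y Z : ℂ → ℂ) (hY : Cls (1 / 8) Y) (hZ : Cls (1 / 8) Z)
    (δ : ℝ) (hδ : 0 ≤ δ) (h : ∀ z ∈ ball (0 : ℂ) 1, ‖Y z - Z z‖ ≤ δ) :
    ∀ z ∈ ball (0 : ℂ) 1, ‖rootOp m Y z - rootOp m Z z‖ ≤ 4 * δ / m := by
  intro z hz
  have hm1 : (10 ^ 7 : ℝ) ≤ m := by exact_mod_cast hm
  have hm0 : (0 : ℝ) < m := by linarith
  have hm1' : (1 : ℝ) ≤ m := by linarith
  have hz1 : ‖z‖ < 1 := by rw [mem_ball, dist_zero_right] at hz; exact hz
  by_cases hz0 : z = 0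
  · subst hz0
    unfold rootOp
    rw [zero_mul, zero_mul, sub_self, norm_zero]
    positivity
  obtain ⟨u, hu⟩ : ∃ u, u = z ^ m := ⟨_, rfl⟩
  have hu0 : u ≠ 0 := by rw [hu]; exact pow_ne_zero _ hz0
  have hu1 : ‖u‖ < 1 := by
    rw [hu, norm_pow]
    exact pow_lt_one₀ (norm_nonneg _) hz1 (by omega)
  have hub : u ∈ ball (0 : ℂ) 1 := by rw [mem_ball, dist_zero_right]; exact hu1
  have hq1 := cls_dslope _ Y hY u hu1
  have hq2 := cls_dslope _ Z hZ u hu1
  have hq : ‖dslope Y 0 u - dslope Z 0 u‖ ≤ δ := by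
    have hd : DifferentiableOn ℂ (fun w => Y w - Z w) (ball 0 1) := hY.diff.sub hZ.diff
    have h0 : Y 0 - Z 0 = 0 := by rw [hY.zero, hZ.zero, sub_self]
    have hmap : MapsTo (fun w => Y w - Z w) (ball 0 1) (closedBall ((fun w => Y w - Z w) 0) δ) := by
      intro w hw
      rw [mem_closedBall]
      show dist (Y w - Z w) (Y 0 - Z 0) ≤ δ
      rw [h0, dist_zero_right]
      exact h w hw
    have h3 := Complex.dist_le_div_mul_dist_of_mapsTo_ball hd hmap hub
    have h4 : ‖Y u - Z u‖ ≤ δ * ‖u‖ := by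
      have h5 : dist (Y u - Z u) (Y 0 - Z 0) ≤ δ / 1 * dist u 0 := h3
      rw [h0, dist_zero_right, dist_zero_right, div_one] at h5
      exact h5
    rw [dslope_of_ne _ hu0, dslope_of_ne _ hu0, slope_def_field, slope_def_field, hY.zero,
      hZ.zero, sub_zero, sub_zero, sub_zero, ← sub_div, norm_div,
      div_le_iff₀ (norm_pos_iff.2 hu0)]
    exact h4
  have hl := root_lip_log hq1 hq2
  have hlog : ∀ p : ℂ, ‖p - 1‖ ≤ 1 / 8 → ‖Complex.log p / m‖ ≤ 1 := by
    intro p hp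
    have h5 := root_lip_log hp (show ‖(1 : ℂ) - 1‖ ≤ 1 / 8 by simp)
    rw [Complex.log_one, sub_zero] at h5
    rw [norm_div, Complex.norm_natCast, div_le_iff₀ hm0]
    linarith
  have he := root_lip_exp (hlog _ hq1) (hlog _ hq2)
  have h6 : ‖Complex.log (dslope Y 0 u) / m - Complex.log (dslope Z 0 u) / m‖
      ≤ 8 / 7 * δ / m := by
    rw [← sub_div, norm_div, Complex.norm_natCast]
    apply div_le_div_of_nonneg_right _ hm0.le
    linarith
  show ‖z * Complex.exp (Complex.log (dslope Y 0 (z ^ m)) / m)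
    - z * Complex.exp (Complex.log (dslope Z 0 (z ^ m)) / m)‖ ≤ 4 * δ / m
  rw [← hu, ← mul_sub, norm_mul]
  have h7 : ‖Complex.exp (Complex.log (dslope Y 0 u) / m)
      - Complex.exp (Complex.log (dslope Z 0 u) / m)‖ ≤ 3 * (8 / 7 * δ / m) :=
    he.trans (mul_le_mul_of_nonneg_left h6 (by norm_num))
  have h8 : 3 * (8 / 7 * δ / m) ≤ 4 * δ / m := by
    have : 3 * (8 / 7 * δ / m) = (24 / 7 * δ) / m := by ring
    rw [this]
    apply div_le_div_of_nonneg_right _ hm0.le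
    linarith
  calc ‖z‖ * _ ≤ 1 * _ := mul_le_mul_of_nonneg_right hz1.le (norm_nonneg _)
    _ ≤ 4 * δ / m := by rw [one_mul]; exact h7.trans h8

end Pool.Agent.Helper606.FW
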