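import Pool.Agent.Helper606.FW.Defs
import Pool.Agent.Helper606.FW.P_root_lip
import Pool.Agent.Helper606.FW.P_aa_facts
import Pool.Agent.Helper606.FW.P_cls_mono
import Pool.Agent.Helper606.FW.P_iter_cls

set_option autoImplicit false

namespace Pool.Agent.Helper606.FW
open Complex Metric Set MeasureTheory Filter Topology


theorem iter_cauchy_mv (ε : ℝ) (F : ℂ → ℂ) (h : Cls ε F) (z : ℂ) (hz : z ∈ ball (0 : ℂ) 1) :
    ‖F z - z‖ ≤ ε * ‖z‖ := by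
  have hd : ∀ x ∈ ball (0 : ℂ) 1, HasDerivWithinAt (fun z => F z - z) (deriv F x - 1) (ball 0 1) x := by
    intro x hx
    have h1 : HasDerivAt F (deriv F x) x :=
      ((h.diff x hx).differentiableAt (isOpen_ball.mem_nhds hx)).hasDerivAt
    exact (h1.sub (hasDerivAt_id x)).hasDerivWithinAt
  have h2 := (convex_ball (0 : ℂ) 1).norm_image_sub_le_of_norm_hasDerivWithin_le hd
    (fun x hx => h.der x hx) (mem_ball_self one_pos) hz
  simpa [h.zero] using h2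

theorem iter_cauchy_cls (m : ℕ) (hm1 : 10 ^ 7 ≤ m) (hm2 : m ≤ 10 ^ 10)
    (S : ℕ → (ℂ → ℂ) → (ℂ → ℂ)) (hS : ∀ i, Step (aa i) (S i)) (j i : ℕ) :
    Cls (1 / 8) (iter m S j (i + 1)) ∧ Cls (1 / 8) (S i (iter m S j (i + 1))) := by
  have h1 := iter_cls m hm1 hm2 S hS j (i + 1)
  obtain ⟨a1, a2, -⟩ := aa_facts (i + 1)
  obtain ⟨b1, b2, -⟩ := aa_facts i
  refine ⟨cls_mono _ _ (by linarith) _ h1, ?_⟩
  have h2 := (hS i).cls (64 * aa (i + 1)) _ (by linarith) (by linarith) h1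
  exact cls_mono _ _ (by linarith) _ h2

theorem iter_cauchy (m : ℕ) (hm1 : 10 ^ 7 ≤ m) (hm2 : m ≤ 10 ^ 10) (S : ℕ → (ℂ → ℂ) → (ℂ → ℂ))
    (hS : ∀ i, Step (aa i) (S i)) (j i : ℕ) :
    ∀ z ∈ ball (0 : ℂ) 1, ‖iter m S (j + 1) i z - iter m S j i z‖ ≤ (1 / 2 : ℝ) ^ j := by
  induction j generalizing i with
  | zero =>
    intro z hz
    have h1 := iter_cls m hm1 hm2 S hS 1 i
    obtain ⟨a1, a2, -⟩ := aa_facts i
    have h2 := iter_cauchy_mv _ _ h1 z hz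
    have h3 : ‖z‖ ≤ 1 := by
      rw [mem_ball_zero_iff] at hz
      exact hz.le
    have h4 : ‖iter m S (0 + 1) i z - iter m S 0 i z‖ ≤ 64 * aa i * ‖z‖ := h2
    refine h4.trans ?_
    rw [pow_zero]
    have h5 : 64 * aa i * ‖z‖ ≤ 64 * aa i * 1 := by gcongr
    linarith
  | succ j ih =>
    intro z hz
    obtain ⟨c1, c2⟩ := iter_cauchy_cls m hm1 hm2 S hS (j + 1) i
    obtain ⟨c3, c4⟩ := iter_cauchy_cls m hm1 hm2 S hS j i
    have hp : (0 : ℝ) ≤ (1 / 2 : ℝ) ^ j := by positivity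
    have h1 := (hS i).lip _ _ ((1 / 2 : ℝ) ^ j) hp c1 c3 (ih (i + 1))
    have h2 := root_lip m hm1 _ _ c2 c4 (20 * (1 / 2 : ℝ) ^ j) (by positivity) h1 z hz
    have hm : (10 ^ 7 : ℝ) ≤ m := by exact_mod_cast hm1
    have hm0 : (0 : ℝ) < m := by linarith
    have h3 : 4 * (20 * (1 / 2 : ℝ) ^ j) / m ≤ (1 / 2 : ℝ) ^ (j + 1) := by
      rw [div_le_iff₀ hm0, pow_succ]
      nlinarith
    exact h2.trans h3

end Pool.Agent.Helper606.FW
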