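import Pool.Agent.Helper606.FW.Defs

set_option autoImplicit false

namespace Pool.Agent.Helper606.FW
open Complex Metric Set MeasureTheory Filter Topology


theorem lintegral_pow_cv (f : ℂ → ℂ) (f' : ℂ → ℂ) (T : Set ℂ) (hT : MeasurableSet T)
    (hf : ∀ z, HasDerivAt f (f' z) z) (hinj : InjOn f T) (g : ℂ → ENNReal) :
    ∫⁻ z in f '' T, g z = ∫⁻ z in T, ENNReal.ofReal (‖f' z‖ ^ 2) * g (f z) := by
  rw [lintegral_image_eq_lintegral_abs_det_fderiv_mul volume hT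
    (fun z _ => (hf z).complexToReal_fderiv.hasFDerivWithinAt) hinj]
  refine lintegral_congr fun z => ?_
  have h1 : (f' z • (1 : ℂ →L[ℝ] ℂ)).det = ‖f' z‖ ^ 2 := by
    have h2 : ((f' z • (1 : ℂ →L[ℝ] ℂ) : ℂ →L[ℝ] ℂ) : ℂ →ₗ[ℝ] ℂ) = LinearMap.mul ℝ ℂ (f' z) := by
      ext <;> simp
    rw [ContinuousLinearMap.det, h2]
    have h3 := Algebra.norm_complex_apply (f' z)
    rw [Algebra.norm_apply] at h3
    rw [← Complex.normSq_eq_norm_sq, ← h3]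
    rfl
  rw [h1, abs_of_nonneg (by positivity)]

theorem lintegral_pow (m : ℕ) (hm : 1 ≤ m) (G : ℂ → ENNReal) (hG : Measurable G) :
    ∫⁻ z in ball (0 : ℂ) 1, ENNReal.ofReal (‖(m : ℂ) * z ^ (m - 1)‖ ^ 2) * G (z ^ m) ≤
      (m : ENNReal) * ∫⁻ z in ball (0 : ℂ) 1, G z := by
  have hm0 : m ≠ 0 := by omega
  set S : Set ℂ := {z : ℂ | (z ^ m) ^ ((m : ℂ)⁻¹) = z} with hS
  have hSm : MeasurableSet S := measurableSet_eq_fun (by fun_prop) measurable_id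
  have hTm : MeasurableSet (S ∩ ball (0 : ℂ) 1) := hSm.inter measurableSet_ball
  set F : ℂ → ENNReal := fun z => ENNReal.ofReal (‖(m : ℂ) * z ^ (m - 1)‖ ^ 2) * G (z ^ m) with hF
  have hinj : InjOn (fun z : ℂ => z ^ m) (S ∩ ball (0 : ℂ) 1) := by
    intro z hz w hw hzw
    have h1 : (z ^ m) ^ ((m : ℂ)⁻¹) = z := hz.1
    have h2 : (w ^ m) ^ ((m : ℂ)⁻¹) = w := hw.1
    have h3 : z ^ m = w ^ m := hzw
    rw [← h1, ← h2, h3]
  have hT : ∫⁻ z in S ∩ ball (0 : ℂ) 1, F z ≤ ∫⁻ z in ball (0 : ℂ) 1, G z := by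
    rw [← lintegral_pow_cv (fun z : ℂ => z ^ m) (fun z => (m : ℂ) * z ^ (m - 1)) _ hTm
      (fun z => hasDerivAt_pow m z) hinj G]
    apply lintegral_mono_set
    rintro _ ⟨z, hz, rfl⟩
    have h1 := hz.2
    rw [mem_ball_zero_iff] at h1 ⊢
    rw [norm_pow]
    exact pow_lt_one₀ (norm_nonneg _) h1 hm0
  set ω : ℂ := Complex.exp (2 * Real.pi * Complex.I / m) with hω
  have hprim : IsPrimitiveRoot ω m := Complex.isPrimitiveRoot_exp m hm0
  have hω1 : ‖ω‖ = 1 := hprim.norm'_eq_one hm0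
  have hrot : ∀ i : ℕ, ∫⁻ z in (fun z : ℂ => ω ^ i * z) '' (S ∩ ball (0 : ℂ) 1), F z =
      ∫⁻ z in S ∩ ball (0 : ℂ) 1, F z := by
    intro i
    have hωi : ‖ω ^ i‖ = 1 := by rw [norm_pow, hω1, one_pow]
    have hωi0 : ω ^ i ≠ 0 := by
      intro h
      rw [h, norm_zero] at hωi
      exact zero_ne_one hωi
    rw [lintegral_pow_cv (fun z : ℂ => ω ^ i * z) (fun _ => ω ^ i) _ hTm
      (fun z => by simpa using (hasDerivAt_id z).const_mul (ω ^ i))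
      (fun z _ w _ h => mul_left_cancel₀ hωi0 h) F]
    refine lintegral_congr fun z => ?_
    rw [hωi]
    simp only [one_pow, ENNReal.ofReal_one, one_mul, hF]
    have e1 : (ω ^ i * z) ^ m = z ^ m := by
      rw [mul_pow, ← pow_mul, mul_comm i m, pow_mul, hprim.pow_eq_one, one_pow, one_mul]
    have e2 : ‖(m : ℂ) * (ω ^ i * z) ^ (m - 1)‖ = ‖(m : ℂ) * z ^ (m - 1)‖ := by
      rw [mul_pow, norm_mul, norm_mul, norm_mul, norm_pow (ω ^ i), hωi, one_pow, one_mul]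
    rw [e1, e2]
  have hcover : ball (0 : ℂ) 1 ⊆ ⋃ i : Fin m, (fun z : ℂ => ω ^ (i : ℕ) * z) '' (S ∩ ball (0 : ℂ) 1) := by
    intro z hz
    rw [mem_iUnion]
    by_cases hz0 : z = 0
    · subst hz0
      refine ⟨⟨0, by omega⟩, 0, ⟨?_, hz⟩, by simp⟩
      show ((0 : ℂ) ^ m) ^ ((m : ℂ)⁻¹) = 0
      rw [zero_pow hm0, Complex.zero_cpow (inv_ne_zero (Nat.cast_ne_zero.2 hm0))]
    · set s : ℂ := (z ^ m) ^ ((m : ℂ)⁻¹) with hs
      have hsm : s ^ m = z ^ m := Complex.cpow_nat_inv_pow _ hm0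
      have hs0 : s ≠ 0 := by
        intro h
        rw [h, zero_pow hm0] at hsm
        exact hz0 (pow_eq_zero_iff hm0 |>.1 hsm.symm)
      have h1 : (z / s) ^ m = 1 := by
        rw [div_pow, hsm, div_self (pow_ne_zero _ hz0)]
      have : NeZero m := ⟨hm0⟩
      obtain ⟨i, hi, hi2⟩ := hprim.eq_pow_of_pow_eq_one h1
      refine ⟨⟨i, hi⟩, s, ⟨?_, ?_⟩, ?_⟩
      · show (s ^ m) ^ ((m : ℂ)⁻¹) = s
        rw [hsm]
      · rw [mem_ball_zero_iff] at hz ⊢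
        have h2 : ‖s‖ ^ m = ‖z‖ ^ m := by rw [← norm_pow, ← norm_pow, hsm]
        rw [(pow_left_inj₀ (norm_nonneg _) (norm_nonneg _) hm0).1 h2]
        exact hz
      · show ω ^ i * s = z
        rw [hi2, div_mul_cancel₀ _ hs0]
  calc ∫⁻ z in ball (0 : ℂ) 1, F z
      ≤ ∫⁻ z in ⋃ i : Fin m, (fun z : ℂ => ω ^ (i : ℕ) * z) '' (S ∩ ball (0 : ℂ) 1), F z :=
        lintegral_mono_set hcover
    _ ≤ ∑' i : Fin m, ∫⁻ z in (fun z : ℂ => ω ^ (i : ℕ) * z) '' (S ∩ ball (0 : ℂ) 1), F z :=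
        lintegral_iUnion_le _ _
    _ = (m : ENNReal) * ∫⁻ z in S ∩ ball (0 : ℂ) 1, F z := by
        rw [tsum_fintype]
        simp only [hrot]
        rw [Finset.sum_const, Finset.card_univ, Fintype.card_fin, nsmul_eq_mul]
    _ ≤ _ := by gcongr

end Pool.Agent.Helper606.FW
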