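import Pool.Agent.Helper606.FW.Defs

set_option autoImplicit false

namespace Pool.Agent.Helper606.FW
open Complex Metric Set MeasureTheory Filter Topology


theorem lintegral_zpow (m : ℕ) (hm : 1 ≤ m) :
    ∫⁻ z in ball (0 : ℂ) 1, ENNReal.ofReal ((‖z‖ ^ (m - 1)) ^ 2) ≤ ENNReal.ofReal (Real.pi / m) := by
  have hcont : Continuous (fun z : ℂ => (‖z‖ ^ (m - 1)) ^ 2) := by fun_prop
  have hint : IntegrableOn (fun z : ℂ => (‖z‖ ^ (m - 1)) ^ 2) (ball (0 : ℂ) 1) volume :=
    (hcont.continuousOn.integrableOn_compact (isCompact_closedBall (0 : ℂ) 1)).mono_set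
      ball_subset_closedBall
  rw [← ofReal_integral_eq_lintegral_ofReal hint (Filter.Eventually.of_forall (fun z => by positivity))]
  apply ENNReal.ofReal_le_ofReal
  apply le_of_eq
  let f : ℝ → ℝ := (Set.Iio (1 : ℝ)).indicator (fun r => (r ^ (m - 1)) ^ 2)
  have h1 : ∫ z in ball (0 : ℂ) 1, (‖z‖ ^ (m - 1)) ^ 2 = ∫ z : ℂ, f ‖z‖ := by
    rw [← integral_indicator measurableSet_ball]
    congr 1
    ext z
    by_cases hz : ‖z‖ < 1
    · rw [Set.indicator_of_mem (by simpa using hz)]
      simp only [f]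
      rw [Set.indicator_of_mem (by simpa using hz)]
    · rw [Set.indicator_of_notMem (by simpa using hz)]
      simp only [f]
      rw [Set.indicator_of_notMem (by simpa using hz)]
  rw [h1, integral_fun_norm_addHaar volume f, Complex.finrank_real_complex]
  have h2 : (volume : Measure ℂ).real (ball 0 1) = Real.pi := by
    rw [Measure.real, Complex.volume_ball]
    simp
  have h3 : ∫ y in Set.Ioi (0 : ℝ), y ^ (2 - 1) • f y = 1 / (2 * m) := by
    have h4 : ∀ y ∈ Set.Ioi (0 : ℝ), y ^ (2 - 1) • f y =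
        (Set.Iio (1 : ℝ)).indicator (fun r => r ^ (2 * m - 1)) y := by
      intro y hy
      by_cases hy1 : y < 1
      · simp only [f]
        rw [Set.indicator_of_mem (by simpa using hy1), Set.indicator_of_mem (by simpa using hy1)]
        rw [smul_eq_mul, ← pow_mul, ← pow_add]
        congr 1
        omega
      · simp only [f]
        rw [Set.indicator_of_notMem (by simpa using hy1), Set.indicator_of_notMem (by simpa using hy1)]
        simp
    rw [setIntegral_congr_fun measurableSet_Ioi h4, setIntegral_indicator measurableSet_Iio]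
    have h5 : Set.Ioi (0 : ℝ) ∩ Set.Iio 1 = Set.Ioo 0 1 := rfl
    rw [h5, ← integral_Ioc_eq_integral_Ioo, ← intervalIntegral.integral_of_le zero_le_one,
      integral_pow]
    have h6 : 2 * m - 1 + 1 = 2 * m := by omega
    have h7 : ((2 * m - 1 : ℕ) : ℝ) + 1 = 2 * m := by
      have : ((2 * m - 1 + 1 : ℕ) : ℝ) = ((2 * m : ℕ) : ℝ) := by rw [h6]
      push_cast at this
      exact this
    rw [h7, h6]
    have h8 : (0 : ℝ) ^ (2 * m) = 0 := zero_pow (by omega)
    rw [h8]
    simp
  rw [h2, h3]
  have hm0 : (m : ℝ) ≠ 0 := by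
    have : 0 < m := hm
    positivity
  simp only [nsmul_eq_mul, smul_eq_mul]
  push_cast
  field_simp

end Pool.Agent.Helper606.FW
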