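import Pool.Agent.Helper606.FW.Defs
import Pool.Agent.Helper606.FW.P_cls_dslope
import Pool.Agent.Helper606.FW.P_root_diff
import Pool.Agent.Helper606.FW.P_root_deriv

set_option autoImplicit false

namespace Pool.Agent.Helper606.FW
open Complex Metric Set MeasureTheory Filter Topology


theorem root_log2 (m : ℕ) (hm : 10 ^ 7 ≤ m) (Y : ℂ → ℂ) (h : Cls (1 / 8) Y) (z : ℂ)
    (hz : z ∈ ball (0 : ℂ) 1) (hz0 : z ≠ 0) :
    deriv (deriv (rootOp m Y)) z / deriv (rootOp m Y) z =
      (m : ℂ) * z ^ (m - 1) * (deriv (deriv Y) (z ^ m) / deriv Y (z ^ m))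
      - ((m : ℂ) - 1) * (deriv Y (z ^ m) / dslope Y 0 (z ^ m) - 1) / z := by
  have hm1 : 1 ≤ m := le_trans (by norm_num) hm
  have hm0 : (m : ℂ) ≠ 0 := by
    exact_mod_cast (by omega : m ≠ 0)
  have hz1 : ‖z‖ < 1 := by simpa using hz
  set u : ℂ := z ^ m with hu
  have hu1 : ‖u‖ < 1 := by
    rw [hu, norm_pow]
    exact pow_lt_one₀ (norm_nonneg _) hz1 (by omega)
  have hub : u ∈ ball (0:ℂ) 1 := by simpa using hu1
  have hu0 : u ≠ 0 := pow_ne_zero m hz0
  -- Y' near 1
  have hY1 : deriv Y u ≠ 0 := by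
    intro h0
    have := h.der u hub
    rw [h0, zero_sub, norm_neg, norm_one] at this
    norm_num at this
  have hq := cls_dslope (1 / 8) Y h u hu1
  have hq0 : dslope Y 0 u ≠ 0 := by
    intro h0
    rw [h0, zero_sub, norm_neg, norm_one] at hq
    norm_num at hq
  have hqs : dslope Y 0 u ∈ slitPlane := by
    have h1 : ‖dslope Y 0 u - 1‖ < 1 := lt_of_le_of_lt hq (by norm_num)
    have h2 := Complex.mem_slitPlane_of_norm_lt_one h1
    rwa [add_sub_cancel] at h2
  -- derivative of Y and of Y'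
  have hYd : HasDerivAt Y (deriv Y u) u :=
    (h.diff.differentiableAt (isOpen_ball.mem_nhds hub)).hasDerivAt
  have hYd2 : HasDerivAt (deriv Y) (deriv (deriv Y) u) u :=
    ((h.diff.deriv isOpen_ball).differentiableAt (isOpen_ball.mem_nhds hub)).hasDerivAt
  have hqv : ∀ w : ℂ, w ≠ 0 → dslope Y 0 w = Y w / w := by
    intro w hw
    rw [dslope_of_ne _ hw, slope_def_field, h.zero, sub_zero, sub_zero]
  have hqd : HasDerivAt (dslope Y 0) ((deriv Y u - dslope Y 0 u) / u) u := by
    have h1 : HasDerivAt (fun w => Y w / w) ((deriv Y u * u - Y u * 1) / u ^ 2) u :=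
      hYd.div (hasDerivAt_id u) hu0
    have h2 : HasDerivAt (dslope Y 0) ((deriv Y u * u - Y u * 1) / u ^ 2) u := by
      refine h1.congr_of_eventuallyEq ?_
      filter_upwards [isOpen_ne.mem_nhds hu0] with w hw
      exact hqv w hw
    have e : (deriv Y u - dslope Y 0 u) / u = (deriv Y u * u - Y u * 1) / u ^ 2 := by
      rw [hqv u hu0]
      field_simp
    rw [e]
    exact h2
  -- the power map
  have hpow : HasDerivAt (fun w : ℂ => w ^ m) ((m : ℂ) * z ^ (m - 1)) z := hasDerivAt_pow m z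
  set u' : ℂ := (m : ℂ) * z ^ (m - 1) with hu'
  set q : ℂ := dslope Y 0 u with hqdef
  set q' : ℂ := (deriv Y u - q) / u with hq'
  have hQ : HasDerivAt (fun w : ℂ => dslope Y 0 (w ^ m)) (q' * u') z :=
    HasDerivAt.comp (h₂ := dslope Y 0) (h := fun w : ℂ => w ^ m) z hqd hpow
  have hP : HasDerivAt (fun w : ℂ => deriv Y (w ^ m)) (deriv (deriv Y) u * u') z :=
    HasDerivAt.comp (h₂ := deriv Y) (h := fun w : ℂ => w ^ m) z hYd2 hpow
  have hL : HasDerivAt (fun w : ℂ => Complex.log (dslope Y 0 (w ^ m))) (q' * u' / q) z :=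
    hQ.clog hqs
  have hE : HasDerivAt (fun w : ℂ => Complex.exp (Complex.log (dslope Y 0 (w ^ m)) / m))
      (Complex.exp (Complex.log q / m) * (q' * u' / q / m)) z :=
    (hL.div_const (m : ℂ)).cexp
  have hR : HasDerivAt (fun w : ℂ => deriv Y (w ^ m) / dslope Y 0 (w ^ m))
      ((deriv (deriv Y) u * u' * q - deriv Y u * (q' * u')) / q ^ 2) z := hP.div hQ hq0
  have hT := hE.mul hR
  have hT' : HasDerivAt (fun w : ℂ => Complex.exp (Complex.log (dslope Y 0 (w ^ m)) / m) *
      (deriv Y (w ^ m) / dslope Y 0 (w ^ m)))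
      (Complex.exp (Complex.log q / m) * (q' * u' / q / m) * (deriv Y u / q) +
        Complex.exp (Complex.log q / m) *
          ((deriv (deriv Y) u * u' * q - deriv Y u * (q' * u')) / q ^ 2)) z := hT
  have hev : deriv (rootOp m Y) =ᶠ[𝓝 z] fun w : ℂ =>
      Complex.exp (Complex.log (dslope Y 0 (w ^ m)) / m) *
      (deriv Y (w ^ m) / dslope Y 0 (w ^ m)) := by
    filter_upwards [isOpen_ball.mem_nhds hz] with w hw
    exact root_deriv m hm Y h w hw
  rw [hev.deriv_eq, hT'.deriv, root_deriv m hm Y h z hz, ← hu, ← hqdef]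
  have hexp : Complex.exp (Complex.log q / m) ≠ 0 := Complex.exp_ne_zero _
  have hzm : z ^ (m - 1) / u = 1 / z := by
    rw [hu, div_eq_div_iff (pow_ne_zero m hz0) hz0, one_mul, ← pow_succ, Nat.sub_add_cancel hm1]
  have e1 : (Complex.exp (Complex.log q / m) * (q' * u' / q / m) * (deriv Y u / q) +
        Complex.exp (Complex.log q / m) *
          ((deriv (deriv Y) u * u' * q - deriv Y u * (q' * u')) / q ^ 2)) /
        (Complex.exp (Complex.log q / m) * (deriv Y u / q)) =
      u' * (deriv (deriv Y) u / deriv Y u) - ((m : ℂ) - 1) * (q' * u' / q / m) := by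
    field_simp
    ring
  rw [e1]
  congr 1
  have e2 : q' * u' / q / m = (z ^ (m - 1) / u) * (deriv Y u / q - 1) := by
    rw [hq', hu']
    field_simp
  rw [e2, hzm]
  ring

end Pool.Agent.Helper606.FW
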