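import Pool.Agent.Helper606.FW.Defs
import Pool.Agent.Helper606.FW.P_lintegral_pow
import Pool.Agent.Helper606.FW.P_lintegral_zpow
import Pool.Agent.Helper606.FW.P_W_bound
import Pool.Agent.Helper606.FW.P_root_log2

set_option autoImplicit false

namespace Pool.Agent.Helper606.FW
open Complex Metric Set MeasureTheory Filter Topology


theorem root_en_pt (m : ℕ) (hm : 10 ^ 7 ≤ m) (ε : ℝ) (hε0 : 0 ≤ ε) (hε : ε ≤ 1 / 8) (Y : ℂ → ℂ)
    (h : Cls ε Y) (z : ℂ) (hz : z ∈ ball (0 : ℂ) 1) (hz0 : z ≠ 0) :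
    ‖deriv (deriv (rootOp m Y)) z / deriv (rootOp m Y) z‖ ^ 2 ≤
      2 * (‖(m : ℂ) * z ^ (m - 1)‖ ^ 2 * ‖deriv (deriv Y) (z ^ m) / deriv Y (z ^ m)‖ ^ 2) +
        18 * (m : ℝ) ^ 2 * ε ^ 2 * (‖z‖ ^ (m - 1)) ^ 2 := by
  have h8 : Cls (1 / 8) Y := ⟨h.diff, h.zero, fun z hz => (h.der z hz).trans hε⟩
  have hm1 : 1 ≤ m := le_trans (by norm_num) hm
  have hzn : ‖z‖ < 1 := by simpa using hz
  have hzp : 0 < ‖z‖ := norm_pos_iff.2 hz0
  have hzm : ‖z ^ m‖ < 1 := by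
    rw [norm_pow]
    exact pow_lt_one₀ (norm_nonneg _) hzn (by omega)
  rw [root_log2 m hm Y h8 z hz hz0]
  set P := (m : ℂ) * z ^ (m - 1) * (deriv (deriv Y) (z ^ m) / deriv Y (z ^ m)) with hP
  set Q := ((m : ℂ) - 1) * (deriv Y (z ^ m) / dslope Y 0 (z ^ m) - 1) / z with hQ
  have hPn : ‖P‖ ^ 2 = ‖(m : ℂ) * z ^ (m - 1)‖ ^ 2 *
      ‖deriv (deriv Y) (z ^ m) / deriv Y (z ^ m)‖ ^ 2 := by
    rw [hP, norm_mul, mul_pow]
  have hm' : ‖(m : ℂ) - 1‖ ≤ m := by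
    have e : (m : ℂ) - 1 = ((m - 1 : ℝ) : ℂ) := by push_cast; ring
    have h1 : (1 : ℝ) ≤ m := by exact_mod_cast hm1
    rw [e, Complex.norm_real, Real.norm_eq_abs, abs_of_nonneg (by linarith)]
    linarith
  have hQn : ‖Q‖ ≤ 3 * (m : ℝ) * ε * ‖z‖ ^ (m - 1) := by
    have hW := W_bound ε hε0 hε Y h (z ^ m) hzm
    rw [hQ, norm_div, norm_mul, div_le_iff₀ hzp]
    have e : ‖z‖ ^ (m - 1) * ‖z‖ = ‖z ^ m‖ := by
      rw [norm_pow, ← pow_succ]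
      congr 1
      omega
    calc ‖(m : ℂ) - 1‖ * ‖deriv Y (z ^ m) / dslope Y 0 (z ^ m) - 1‖ ≤
          (m : ℝ) * (3 * ε * ‖z ^ m‖) := mul_le_mul hm' hW (norm_nonneg _) (by positivity)
      _ = 3 * (m : ℝ) * ε * ‖z‖ ^ (m - 1) * ‖z‖ := by rw [← e]; ring
  have hQ2 : ‖Q‖ ^ 2 ≤ 9 * (m : ℝ) ^ 2 * ε ^ 2 * (‖z‖ ^ (m - 1)) ^ 2 := by
    calc ‖Q‖ ^ 2 ≤ (3 * (m : ℝ) * ε * ‖z‖ ^ (m - 1)) ^ 2 := pow_le_pow_left₀ (norm_nonneg _) hQn 2
      _ = _ := by ring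
  have hsub : ‖P - Q‖ ^ 2 ≤ 2 * ‖P‖ ^ 2 + 2 * ‖Q‖ ^ 2 := by
    have h1 := norm_sub_le P Q
    have h2 : ‖P - Q‖ ^ 2 ≤ (‖P‖ + ‖Q‖) ^ 2 := pow_le_pow_left₀ (norm_nonneg _) h1 2
    nlinarith [sq_nonneg (‖P‖ - ‖Q‖)]
  rw [← hPn]
  linarith

theorem root_en (m : ℕ) (hm : 10 ^ 7 ≤ m) (ε : ℝ) (hε0 : 0 ≤ ε) (hε : ε ≤ 1 / 8) (Y : ℂ → ℂ)
    (h : Cls ε Y) : en (rootOp m Y) ≤ 2 * m * en Y + ENNReal.ofReal (60 * m * ε ^ 2) := by
  have hm1 : 1 ≤ m := le_trans (by norm_num) hm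
  have hmp : (0 : ℝ) < m := by exact_mod_cast (show 0 < m by omega)
  set G : ℂ → ENNReal := fun u => ENNReal.ofReal (‖deriv (deriv Y) u / deriv Y u‖ ^ 2) with hG
  have hGm : Measurable G :=
    ((((measurable_deriv (deriv Y)).div (measurable_deriv Y)).norm).pow_const 2).ennreal_ofReal
  have hF1 : Measurable (fun z : ℂ => ENNReal.ofReal (‖(m : ℂ) * z ^ (m - 1)‖ ^ 2) * G (z ^ m)) := by
    have h1 : Measurable (fun z : ℂ => ‖(m : ℂ) * z ^ (m - 1)‖ ^ 2) := by fun_prop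
    have h2 : Measurable (fun z : ℂ => z ^ m) := by fun_prop
    exact h1.ennreal_ofReal.mul (hGm.comp h2)
  have hb : ∀ᵐ z ∂((volume : Measure ℂ).restrict (ball (0 : ℂ) 1)),
      ENNReal.ofReal (‖deriv (deriv (rootOp m Y)) z / deriv (rootOp m Y) z‖ ^ 2) ≤
        2 * (ENNReal.ofReal (‖(m : ℂ) * z ^ (m - 1)‖ ^ 2) * G (z ^ m)) +
          ENNReal.ofReal (18 * (m : ℝ) ^ 2 * ε ^ 2) * ENNReal.ofReal ((‖z‖ ^ (m - 1)) ^ 2) := by
    have hne : ∀ᵐ z ∂((volume : Measure ℂ).restrict (ball (0 : ℂ) 1)), z ≠ 0 := by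
      apply ae_restrict_of_ae
      exact compl_mem_ae_iff.2 (measure_singleton 0)
    filter_upwards [ae_restrict_mem measurableSet_ball, hne] with z hz hz0
    have hpt := root_en_pt m hm ε hε0 hε Y h z hz hz0
    refine (ENNReal.ofReal_le_ofReal hpt).trans (le_of_eq ?_)
    rw [ENNReal.ofReal_add (by positivity) (by positivity), ENNReal.ofReal_mul (by norm_num),
      ENNReal.ofReal_mul (by positivity), ENNReal.ofReal_mul (by positivity)]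
    simp only [ENNReal.ofReal_ofNat, hG]
  unfold en
  refine (lintegral_mono_ae hb).trans ?_
  rw [lintegral_add_left (hF1.const_mul 2), lintegral_const_mul _ hF1,
    lintegral_const_mul' _ _ ENNReal.ofReal_ne_top]
  refine add_le_add ?_ ?_
  · calc 2 * ∫⁻ z in ball (0 : ℂ) 1, ENNReal.ofReal (‖(m : ℂ) * z ^ (m - 1)‖ ^ 2) * G (z ^ m) ≤
          2 * ((m : ENNReal) * ∫⁻ z in ball (0 : ℂ) 1, G z) := by
          gcongr
          exact lintegral_pow m hm1 G hGm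
      _ = _ := by rw [mul_assoc]
  · calc ENNReal.ofReal (18 * (m : ℝ) ^ 2 * ε ^ 2) *
          ∫⁻ z in ball (0 : ℂ) 1, ENNReal.ofReal ((‖z‖ ^ (m - 1)) ^ 2) ≤
          ENNReal.ofReal (18 * (m : ℝ) ^ 2 * ε ^ 2) * ENNReal.ofReal (Real.pi / m) := by
          gcongr
          exact lintegral_zpow m hm1
      _ = ENNReal.ofReal (18 * (m : ℝ) ^ 2 * ε ^ 2 * (Real.pi / m)) := by
          rw [← ENNReal.ofReal_mul (by positivity)]
      _ ≤ _ := by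
          apply ENNReal.ofReal_le_ofReal
          have e : 18 * (m : ℝ) ^ 2 * ε ^ 2 * (Real.pi / m) = 18 * Real.pi * (m * ε ^ 2) := by
            field_simp
          rw [e]
          have hpi : Real.pi < 3.15 := Real.pi_lt_d2
          have hnn : 0 ≤ (m : ℝ) * ε ^ 2 := by positivity
          nlinarith

end Pool.Agent.Helper606.FW
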