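import Pool.Agent.Helper606.FW.Defs
import Pool.Agent.Helper606.FW.P_root_cls
import Pool.Agent.Helper606.FW.P_root_en
import Pool.Agent.Helper606.FW.P_aa_facts
import Pool.Agent.Helper606.FW.P_cls_mono
import Pool.Agent.Helper606.FW.P_iter_cls

set_option autoImplicit false

namespace Pool.Agent.Helper606.FW
open Complex Metric Set MeasureTheory Filter Topology


theorem iter_en_arith (m : ℕ) (A B C : ℝ) (hA : 0 ≤ A) (hB : 0 ≤ B) (hC : 0 ≤ C) :
    2 * (m : ENNReal) * (2 * ENNReal.ofReal A + ENNReal.ofReal B) + ENNReal.ofReal C =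
      ENNReal.ofReal (2 * m * (2 * A + B) + C) := by
  rw [ENNReal.ofReal_add (by positivity) hC, ENNReal.ofReal_mul (by positivity), ENNReal.ofReal_mul (by norm_num),
    ENNReal.ofReal_add (by positivity) hB, ENNReal.ofReal_mul (by norm_num), ENNReal.ofReal_natCast]
  norm_num

theorem iter_en_id : en (fun z : ℂ => z) = 0 := by
  unfold en
  have h1 : deriv (fun z : ℂ => z) = fun _ => (1 : ℂ) := by
    funext z
    exact deriv_id z
  rw [h1]
  simp

theorem iter_en (m : ℕ) (hm1 : 10 ^ 7 ≤ m) (hm2 : m ≤ 10 ^ 10) (S : ℕ → (ℂ → ℂ) → (ℂ → ℂ))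
    (hS : ∀ i, Step (aa i) (S i)) (j i : ℕ) :
    en (iter m S j i) ≤ ENNReal.ofReal (12000 * m * (aa i) ^ 2) := by
  induction j generalizing i with
  | zero =>
    show en (fun z : ℂ => z) ≤ _
    rw [iter_en_id]
    exact zero_le
  | succ j ih =>
    show en (rootOp m (S i (iter m S j (i + 1)))) ≤ _
    obtain ⟨ha0, ha1, ha2⟩ := aa_facts i
    obtain ⟨hb0, hb1, -⟩ := aa_facts (i + 1)
    have hG := iter_cls m hm1 hm2 S hS j (i + 1)
    have hG8 : Cls (1 / 8) (iter m S j (i + 1)) := cls_mono _ _ (by norm_num at hb1 ⊢; linarith) _ hG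
    have hY := (hS i).cls (64 * aa (i + 1)) _ (by positivity) (by norm_num at hb1 ⊢; linarith) hG
    have hY' : Cls (9 * aa i) (S i (iter m S j (i + 1))) := cls_mono _ _ (by rw [ha2]; norm_num; linarith) _ hY
    have h1 := root_en m hm1 (9 * aa i) (by positivity) (by norm_num at ha1 ⊢; linarith) _ hY'
    have h2 := (hS i).en_le _ hG8
    have h3 := ih (i + 1)
    have h4 : en (S i (iter m S j (i + 1))) ≤
        2 * ENNReal.ofReal (12000 * m * (aa (i + 1)) ^ 2) + ENNReal.ofReal (200 * (aa i) ^ 2) :=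
      h2.trans (by gcongr)
    have h5 : en (rootOp m (S i (iter m S j (i + 1)))) ≤ 2 * (m : ENNReal) *
        (2 * ENNReal.ofReal (12000 * m * (aa (i + 1)) ^ 2) + ENNReal.ofReal (200 * (aa i) ^ 2)) +
        ENNReal.ofReal (60 * m * (9 * aa i) ^ 2) := h1.trans (by gcongr)
    rw [iter_en_arith m _ _ _ (by positivity) (by positivity) (by positivity)] at h5
    refine h5.trans (ENNReal.ofReal_le_ofReal ?_)
    rw [ha2]
    have hm' : (m : ℝ) ≤ 10 ^ 10 := by exact_mod_cast hm2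
    have hm0 : (0 : ℝ) ≤ m := Nat.cast_nonneg m
    have ht : (0 : ℝ) ≤ m * (aa i) ^ 2 := by positivity
    have hmm : (m : ℝ) * (m * (aa i) ^ 2) ≤ 10 ^ 10 * (m * (aa i) ^ 2) := mul_le_mul_of_nonneg_right hm' ht
    have e1 : 2 * (m : ℝ) * (2 * (12000 * m * (aa i / 10 ^ 6) ^ 2) + 200 * aa i ^ 2) + 60 * m * (9 * aa i) ^ 2 =
        48000 / 10 ^ 12 * ((m : ℝ) * (m * (aa i) ^ 2)) + 5260 * (m * (aa i) ^ 2) := by ring
    rw [e1]
    norm_num at hmm ⊢
    linarith

end Pool.Agent.Helper606.FW
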