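import Pool.Agent.Helper606.FW.Defs

set_option autoImplicit false

namespace Pool.Agent.Helper606.FW
open Complex Metric Set MeasureTheory Filter Topology


theorem lim_cls (ε : ℝ) (F : ℕ → ℂ → ℂ) (f : ℂ → ℂ) (hF : ∀ j, Cls ε (F j))
    (h : ∀ j, ∀ z ∈ ball (0 : ℂ) 1, ‖f z - F j z‖ ≤ 2 * (1 / 2 : ℝ) ^ j) : Cls ε f := by
  have hlim : Tendsto (fun j : ℕ => 2 * (1 / 2 : ℝ) ^ j) atTop (𝓝 0) := by
    have := (tendsto_pow_atTop_nhds_zero_of_lt_one (r := (1 / 2 : ℝ)) (by norm_num)
      (by norm_num)).const_mul 2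
    simpa using this
  have hu : TendstoUniformlyOn F f atTop (ball 0 1) := by
    rw [Metric.tendstoUniformlyOn_iff]
    intro e he
    filter_upwards [hlim.eventually_lt_const he] with n hn z hz
    rw [dist_eq_norm]
    exact (h n z hz).trans_lt hn
  have hlu := hu.tendstoLocallyUniformlyOn
  have hdF : ∀ᶠ n in atTop, DifferentiableOn ℂ (F n) (ball 0 1) :=
    Eventually.of_forall fun n => (hF n).diff
  refine ⟨hlu.differentiableOn hdF isOpen_ball, ?_, ?_⟩
  · have h0 : (0 : ℂ) ∈ ball (0 : ℂ) 1 := mem_ball_self one_pos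
    have h1 := hlu.tendsto_at h0
    have h2 : (fun n => F n 0) = fun _ => (0 : ℂ) := funext fun n => (hF n).zero
    rw [h2] at h1
    exact tendsto_nhds_unique h1 tendsto_const_nhds
  · intro z hz
    have h1 := (hlu.deriv hdF isOpen_ball).tendsto_at hz
    have h2 : Tendsto (fun n => ‖deriv (F n) z - 1‖) atTop (𝓝 ‖deriv f z - 1‖) :=
      (h1.sub_const 1).norm
    exact le_of_tendsto h2 (Eventually.of_forall fun n => (hF n).der z hz)

end Pool.Agent.Helper606.FW
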