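import Pool.Agent.Helper606.FW.Defs

set_option autoImplicit false

namespace Pool.Agent.Helper606.FW
open Complex Metric Set MeasureTheory Filter Topology


theorem lim_en (F : ℕ → ℂ → ℂ) (f : ℂ → ℂ) (hF : ∀ j, Cls (1 / 8) (F j))
    (h : ∀ j, ∀ z ∈ ball (0 : ℂ) 1, ‖f z - F j z‖ ≤ 2 * (1 / 2 : ℝ) ^ j) (B : ENNReal)
    (hB : ∀ j, en (F j) ≤ B) : en f ≤ B := by
  have hpow : Tendsto (fun j : ℕ => 2 * (1 / 2 : ℝ) ^ j) atTop (𝓝 0) := by
    have := (tendsto_pow_atTop_nhds_zero_of_lt_one (r := (1 / 2 : ℝ)) (by norm_num)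
      (by norm_num)).const_mul 2
    simpa using this
  have hunif : TendstoUniformlyOn F f atTop (ball (0 : ℂ) 1) := by
    rw [Metric.tendstoUniformlyOn_iff]
    intro ε hε
    filter_upwards [hpow.eventually_lt_const hε] with j hj z hz
    rw [dist_eq_norm]
    exact (h j z hz).trans_lt hj
  have hloc := hunif.tendstoLocallyUniformlyOn
  have hd1 := hloc.deriv (Eventually.of_forall fun j => (hF j).diff) isOpen_ball
  have hd2 := hd1.deriv (Eventually.of_forall fun j => (hF j).diff.deriv isOpen_ball) isOpen_ball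
  have hpt : ∀ z ∈ ball (0 : ℂ) 1, Tendsto
      (fun j => ENNReal.ofReal (‖deriv (deriv (F j)) z / deriv (F j) z‖ ^ 2)) atTop
      (𝓝 (ENNReal.ofReal (‖deriv (deriv f) z / deriv f z‖ ^ 2))) := by
    intro z hz
    have t1 : Tendsto (fun j => deriv (F j) z) atTop (𝓝 (deriv f z)) := hd1.tendsto_at hz
    have t2 : Tendsto (fun j => deriv (deriv (F j)) z) atTop (𝓝 (deriv (deriv f) z)) :=
      hd2.tendsto_at hz
    have hne : deriv f z ≠ 0 := by
      intro h0
      have t3 : Tendsto (fun j => ‖deriv (F j) z - 1‖) atTop (𝓝 ‖deriv f z - 1‖) :=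
        (t1.sub_const 1).norm
      have h4 : ‖deriv f z - 1‖ ≤ 1 / 8 :=
        le_of_tendsto t3 (Eventually.of_forall fun j => (hF j).der z hz)
      rw [h0] at h4
      norm_num at h4
    exact (ENNReal.continuous_ofReal.tendsto _).comp (((t2.div t1 hne).norm).pow 2)
  have hmeas : ∀ j, Measurable
      (fun z => ENNReal.ofReal (‖deriv (deriv (F j)) z / deriv (F j) z‖ ^ 2)) := by
    intro j
    exact (((measurable_deriv _).div (measurable_deriv _)).norm.pow_const 2).ennreal_ofReal
  have h1 : en f = ∫⁻ z in ball (0 : ℂ) 1, liminf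
      (fun j => ENNReal.ofReal (‖deriv (deriv (F j)) z / deriv (F j) z‖ ^ 2)) atTop := by
    unfold en
    refine setLIntegral_congr_fun measurableSet_ball fun z hz => ?_
    exact (hpt z hz).liminf_eq.symm
  rw [h1]
  refine (lintegral_liminf_le hmeas).trans ?_
  refine Filter.liminf_le_of_le (by isBoundedDefault) fun b hb => ?_
  obtain ⟨j, hj⟩ := hb.exists
  exact hj.trans (hB j)

end Pool.Agent.Helper606.FW
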