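import Pool.Agent.Helper606.FW.Defs

set_option autoImplicit false

namespace Pool.Agent.Helper606.FW
open Complex Metric Set MeasureTheory Filter Topology


theorem lim_exists (F : ℕ → ℕ → ℂ → ℂ)
    (h : ∀ j i, ∀ z ∈ ball (0 : ℂ) 1, ‖F (j + 1) i z - F j i z‖ ≤ (1 / 2 : ℝ) ^ j) :
    ∃ f : ℕ → ℂ → ℂ, ∀ i j, ∀ z ∈ ball (0 : ℂ) 1, ‖f i z - F j i z‖ ≤ 2 * (1 / 2 : ℝ) ^ j := by
  have key : ∀ (i : ℕ) (z : ℂ), ∃ w : ℂ, z ∈ ball (0 : ℂ) 1 → ∀ j : ℕ,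
      ‖w - F j i z‖ ≤ 2 * (1 / 2 : ℝ) ^ j := by
    intro i z
    by_cases hz : z ∈ ball (0 : ℂ) 1
    · have hu : ∀ n : ℕ, dist (F n i z) (F (n + 1) i z) ≤ 1 * (1 / 2 : ℝ) ^ n := by
        intro n
        rw [dist_comm, dist_eq_norm, one_mul]
        exact h n i z hz
      have hc := cauchySeq_of_le_geometric (1 / 2 : ℝ) 1 (by norm_num) hu
      obtain ⟨w, hw⟩ := cauchySeq_tendsto_of_complete hc
      refine ⟨w, fun _ j => ?_⟩
      have h1 := dist_le_of_le_geometric_of_tendsto (1 / 2 : ℝ) 1 (by norm_num) hu hw j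
      rw [dist_comm, dist_eq_norm] at h1
      refine h1.trans (le_of_eq ?_)
      norm_num
      ring
    · exact ⟨0, fun h => absurd h hz⟩
  choose f hf using key
  exact ⟨f, fun i j z hz => hf i z hz j⟩

end Pool.Agent.Helper606.FW
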