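import Pool.Agent.Helper606.FW.Defs
import Pool.Agent.Helper606.FW.P_root_cls
import Pool.Agent.Helper606.FW.P_root_lip
import Pool.Agent.Helper606.FW.P_aa_facts
import Pool.Agent.Helper606.FW.P_cls_mono
import Pool.Agent.Helper606.FW.P_iter_cls
import Pool.Agent.Helper606.FW.P_lim_cls

set_option autoImplicit false

namespace Pool.Agent.Helper606.FW
open Complex Metric Set MeasureTheory Filter Topology


theorem lim_rec (m : ℕ) (hm1 : 10 ^ 7 ≤ m) (hm2 : m ≤ 10 ^ 10) (S : ℕ → (ℂ → ℂ) → (ℂ → ℂ))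
    (hS : ∀ i, Step (aa i) (S i)) (f : ℕ → ℂ → ℂ)
    (hf : ∀ i j, ∀ z ∈ ball (0 : ℂ) 1, ‖f i z - iter m S j i z‖ ≤ 2 * (1 / 2 : ℝ) ^ j) :
    ∀ i, ∀ z ∈ ball (0 : ℂ) 1, f i z = rootOp m (S i (f (i + 1))) z := by
  intro i z hz
  obtain ⟨a1, a2, a3⟩ := aa_facts i
  obtain ⟨b1, b2, b3⟩ := aa_facts (i + 1)
  have ha2 : aa i ≤ 1 / 1000000 := by norm_num at a2 ⊢; exact a2
  have hb2 : aa (i + 1) ≤ 1 / 1000000 := by norm_num at b2 ⊢; exact b2
  have h64 : 64 * aa (i + 1) ≤ 1 / 8 := by linarith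
  have hit : ∀ j, Cls (64 * aa (i + 1)) (iter m S j (i + 1)) := fun j =>
    iter_cls m hm1 hm2 S hS j (i + 1)
  have hfc : Cls (64 * aa (i + 1)) (f (i + 1)) :=
    lim_cls (64 * aa (i + 1)) (fun j => iter m S j (i + 1)) (f (i + 1)) hit (hf (i + 1))
  have hs1 : ∀ F : ℂ → ℂ, Cls (64 * aa (i + 1)) F → Cls (1 / 8) (S i F) := by
    intro F hF
    refine cls_mono _ _ ?_ _ ((hS i).cls (64 * aa (i + 1)) F (by linarith) h64 hF)
    linarith
  have hmr : (1 : ℝ) ≤ (m : ℝ) := by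
    have h1 : 1 ≤ m := by
      have : 1 ≤ 10 ^ 7 := by norm_num
      omega
    exact_mod_cast h1
  have key : ∀ j : ℕ, ‖f i z - rootOp m (S i (f (i + 1))) z‖ ≤ 162 * (1 / 2 : ℝ) ^ j := by
    intro j
    have hpos : (0 : ℝ) < (1 / 2 : ℝ) ^ j := by positivity
    have h1 := hf i (j + 1) z hz
    have h2 : iter m S (j + 1) i z = rootOp m (S i (iter m S j (i + 1))) z := rfl
    rw [h2, pow_succ] at h1
    have h3 := (hS i).lip (f (i + 1)) (iter m S j (i + 1)) (2 * (1 / 2 : ℝ) ^ j) (by positivity)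
      (cls_mono _ _ h64 _ hfc) (cls_mono _ _ h64 _ (hit j)) (hf (i + 1) j)
    have h4 := root_lip m hm1 (S i (f (i + 1))) (S i (iter m S j (i + 1))) (hs1 _ hfc)
      (hs1 _ (hit j)) (20 * (2 * (1 / 2 : ℝ) ^ j)) (by positivity) h3 z hz
    have h5 : 4 * (20 * (2 * (1 / 2 : ℝ) ^ j)) / m ≤ 4 * (20 * (2 * (1 / 2 : ℝ) ^ j)) :=
      div_le_self (by positivity) hmr
    have h6 : f i z - rootOp m (S i (f (i + 1))) z =
        (f i z - rootOp m (S i (iter m S j (i + 1))) z) -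
          (rootOp m (S i (f (i + 1))) z - rootOp m (S i (iter m S j (i + 1))) z) := by ring
    rw [h6]
    refine (norm_sub_le _ _).trans ?_
    linarith
  have hlim : Filter.Tendsto (fun j : ℕ => 162 * (1 / 2 : ℝ) ^ j) Filter.atTop (nhds 0) := by
    have h := (tendsto_pow_atTop_nhds_zero_of_lt_one (r := (1 / 2 : ℝ)) (by norm_num)
      (by norm_num)).const_mul 162
    simpa using h
  have h0 : ‖f i z - rootOp m (S i (f (i + 1))) z‖ ≤ 0 := ge_of_tendsto' hlim key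
  exact sub_eq_zero.1 (norm_le_zero_iff.1 h0)

end Pool.Agent.Helper606.FW
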