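import Pool.Agent.Helper606.FW.Defs
import Pool.Agent.Helper606.FW.P_aa_facts
import Pool.Agent.Helper606.FW.P_cls_mono
import Pool.Agent.Helper606.FW.P_iter_cls
import Pool.Agent.Helper606.FW.P_iter_en
import Pool.Agent.Helper606.FW.P_iter_cauchy
import Pool.Agent.Helper606.FW.P_lim_exists
import Pool.Agent.Helper606.FW.P_lim_cls
import Pool.Agent.Helper606.FW.P_lim_en
import Pool.Agent.Helper606.FW.P_lim_rec

set_option autoImplicit false

namespace Pool.Agent.Helper606.FW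
open Complex Metric Set MeasureTheory Filter Topology


theorem lim_pkg (m : ℕ) (hm1 : 10 ^ 7 ≤ m) (hm2 : m ≤ 10 ^ 10) (S : ℕ → (ℂ → ℂ) → (ℂ → ℂ))
    (hS : ∀ i, Step (aa i) (S i)) :
    ∃ f : ℕ → ℂ → ℂ, (∀ i, Cls (64 * aa i) (f i)) ∧ (∀ i, en (f i) < ⊤) ∧
      ∀ i, ∀ z ∈ ball (0 : ℂ) 1, f i z = rootOp m (S i (f (i + 1))) z := by
  obtain ⟨f, hf⟩ := lim_exists (fun j i => iter m S j i)
    (fun j i => iter_cauchy m hm1 hm2 S hS j i)
  refine ⟨f, fun i => ?_, fun i => ?_, lim_rec m hm1 hm2 S hS f hf⟩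
  · exact lim_cls _ (fun j => iter m S j i) (f i) (fun j => iter_cls m hm1 hm2 S hS j i)
      (fun j => hf i j)
  · have h1 : (64 * aa i : ℝ) ≤ 1 / 8 := by
      have := (aa_facts i).2.1
      norm_num at this ⊢
      linarith
    exact (lim_en (fun j => iter m S j i) (f i)
      (fun j => cls_mono _ _ h1 _ (iter_cls m hm1 hm2 S hS j i)) (fun j => hf i j) _
      (fun j => iter_en m hm1 hm2 S hS j i)).trans_lt ENNReal.ofReal_lt_top

end Pool.Agent.Helper606.FW
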