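import Pool.Agent.Helper606.FW.Defs

set_option autoImplicit false

namespace Pool.Agent.Helper606.FW
open Complex Metric Set MeasureTheory Filter Topology


theorem root_symm (m : ℕ) (Y : ℂ → ℂ) (ω z : ℂ) (hω : ω ^ m = 1) :
    rootOp m Y (ω * z) = ω * rootOp m Y z := by
  unfold rootOp
  have h : (ω * z) ^ m = z ^ m := by rw [mul_pow, hω, one_mul]
  simp only [h]
  ring

end Pool.Agent.Helper606.FW
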