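import Pool.Agent.Helper606.FW.Defs
import Pool.Agent.Helper606.FW.P_cls_lip

set_option autoImplicit false

namespace Pool.Agent.Helper606.FW
open Complex Metric Set MeasureTheory Filter Topology


theorem stepEx_en (a : ℝ) (ha0 : 0 ≤ a) (ha : a ≤ 1 / 10 ^ 6) (F : ℂ → ℂ) (h : Cls (1 / 8) F) :
    en (stepEx a F) ≤ 2 * en F + ENNReal.ofReal (200 * a ^ 2) := by
  have hb : ∀ z ∈ ball (0 : ℂ) 1, ‖F z‖ ≤ 9 / 8 := by
    intro z hz
    have hz1 : ‖z‖ < 1 := by simpa using hz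
    have h1 := cls_lip (1 / 8) F h z 0 hz1 (by simp)
    rw [h.zero] at h1
    simp only [sub_zero, sub_self] at h1
    calc ‖F z‖ = ‖(F z - z) + z‖ := by rw [sub_add_cancel]
      _ ≤ ‖F z - z‖ + ‖z‖ := norm_add_le _ _
      _ ≤ 1 / 8 * ‖z‖ + ‖z‖ := by linarith
      _ ≤ 9 / 8 := by linarith
  have hlow : ∀ z ∈ ball (0 : ℂ) 1, (99 / 100 : ℝ) ≤ ‖1 - (a : ℂ) * F z‖ := by
    intro z hz
    have h1 : ‖(a : ℂ) * F z‖ ≤ 1 / 100 := by
      rw [norm_mul, Complex.norm_real, Real.norm_eq_abs, abs_of_nonneg ha0]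
      have := hb z hz
      nlinarith [norm_nonneg (F z)]
    have h2 := norm_sub_norm_le (1 : ℂ) ((a : ℂ) * F z)
    rw [norm_one] at h2
    linarith
  have hne : ∀ z ∈ ball (0 : ℂ) 1, 1 - (a : ℂ) * F z ≠ 0 := by
    intro z hz h0
    have := hlow z hz
    rw [h0, norm_zero] at this
    linarith
  have hder : ∀ z ∈ ball (0 : ℂ) 1, ‖deriv F z‖ ≤ 9 / 8 ∧ deriv F z ≠ 0 := by
    intro z hz
    have h1 := h.der z hz
    constructor
    · calc ‖deriv F z‖ = ‖(deriv F z - 1) + 1‖ := by rw [sub_add_cancel]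
        _ ≤ ‖deriv F z - 1‖ + ‖(1 : ℂ)‖ := norm_add_le _ _
        _ ≤ 9 / 8 := by rw [norm_one]; linarith
    · intro h0
      rw [h0] at h1
      simp at h1
      norm_num at h1
  have hd : ∀ z ∈ ball (0 : ℂ) 1, HasDerivAt F (deriv F z) z := fun z hz =>
    ((h.diff z hz).differentiableAt (isOpen_ball.mem_nhds hz)).hasDerivAt
  have hdd : ∀ z ∈ ball (0 : ℂ) 1, HasDerivAt (deriv F) (deriv (deriv F) z) z := fun z hz =>
    (((h.diff.deriv isOpen_ball) z hz).differentiableAt (isOpen_ball.mem_nhds hz)).hasDerivAt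
  have hden : ∀ z ∈ ball (0 : ℂ) 1,
      HasDerivAt (fun w => 1 - (a : ℂ) * F w) (-((a : ℂ) * deriv F z)) z := by
    intro z hz
    have h2 : HasDerivAt (fun w => 1 - (a : ℂ) * F w) (0 - (a : ℂ) * deriv F z) z :=
      (hasDerivAt_const z (1 : ℂ)).sub ((hd z hz).const_mul (a : ℂ))
    rwa [zero_sub] at h2
  have hY : ∀ z ∈ ball (0 : ℂ) 1,
      deriv (stepEx a F) z = deriv F z / (1 - (a : ℂ) * F z) ^ 2 := by
    intro z hz
    have h1 : HasDerivAt (stepEx a F) _ z := (hd z hz).div (hden z hz) (hne z hz)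
    rw [h1.deriv]
    congr 1
    ring
  have hquot : ∀ z ∈ ball (0 : ℂ) 1,
      deriv (deriv (stepEx a F)) z / deriv (stepEx a F) z =
        deriv (deriv F) z / deriv F z + 2 * (a : ℂ) * deriv F z / (1 - (a : ℂ) * F z) := by
    intro z hz
    have hev : deriv (stepEx a F) =ᶠ[𝓝 z] fun w => deriv F w / (1 - (a : ℂ) * F w) ^ 2 := by
      filter_upwards [isOpen_ball.mem_nhds hz] with w hw using hY w hw
    have h2 := (hdd z hz).div ((hden z hz).pow 2) (pow_ne_zero 2 (hne z hz))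
    have h3 : deriv (fun w => deriv F w / (1 - (a : ℂ) * F w) ^ 2) z = _ := h2.deriv
    rw [hev.deriv_eq, h3, hY z hz]
    have n1 := hne z hz
    have n2 := (hder z hz).2
    simp only [Pi.pow_apply]
    field_simp
    push_cast
    ring
  have hpt : ∀ z ∈ ball (0 : ℂ) 1,
      ENNReal.ofReal (‖deriv (deriv (stepEx a F)) z / deriv (stepEx a F) z‖ ^ 2) ≤
        2 * ENNReal.ofReal (‖deriv (deriv F) z / deriv F z‖ ^ 2) +
          ENNReal.ofReal (13 * a ^ 2) := by
    intro z hz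
    rw [hquot z hz]
    have h1 : ‖2 * (a : ℂ) * deriv F z / (1 - (a : ℂ) * F z)‖ ≤ 5 / 2 * a := by
      rw [norm_div, norm_mul, norm_mul, Complex.norm_real, Real.norm_eq_abs, abs_of_nonneg ha0]
      have h2 := hlow z hz
      rw [div_le_iff₀ (by linarith)]
      have h3 := (hder z hz).1
      have h4 : ‖(2 : ℂ)‖ = 2 := by simp
      rw [h4]
      nlinarith [mul_nonneg ha0 (sub_nonneg.2 h3), mul_nonneg ha0 (sub_nonneg.2 h2)]
    have h5 := norm_add_le (deriv (deriv F) z / deriv F z)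
      (2 * (a : ℂ) * deriv F z / (1 - (a : ℂ) * F z))
    have h6 : ‖deriv (deriv F) z / deriv F z + 2 * (a : ℂ) * deriv F z / (1 - (a : ℂ) * F z)‖ ^ 2
        ≤ 2 * ‖deriv (deriv F) z / deriv F z‖ ^ 2 + 13 * a ^ 2 := by
      have h7 := norm_nonneg (deriv (deriv F) z / deriv F z)
      have h8 := norm_nonneg (deriv (deriv F) z / deriv F z +
        2 * (a : ℂ) * deriv F z / (1 - (a : ℂ) * F z))
      have h9 : ‖deriv (deriv F) z / deriv F z + 2 * (a : ℂ) * deriv F z / (1 - (a : ℂ) * F z)‖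
          ≤ ‖deriv (deriv F) z / deriv F z‖ + 5 / 2 * a := by linarith
      have h10 := pow_le_pow_left₀ h8 h9 2
      nlinarith [sq_nonneg (‖deriv (deriv F) z / deriv F z‖ - 5 / 2 * a)]
    calc ENNReal.ofReal (‖deriv (deriv F) z / deriv F z +
            2 * (a : ℂ) * deriv F z / (1 - (a : ℂ) * F z)‖ ^ 2)
        ≤ ENNReal.ofReal (2 * ‖deriv (deriv F) z / deriv F z‖ ^ 2 + 13 * a ^ 2) :=
          ENNReal.ofReal_le_ofReal h6
      _ = _ := by
          rw [ENNReal.ofReal_add (by positivity) (by positivity), ENNReal.ofReal_mul (by norm_num)]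
          simp
  unfold en
  calc ∫⁻ z in ball (0 : ℂ) 1,
        ENNReal.ofReal (‖deriv (deriv (stepEx a F)) z / deriv (stepEx a F) z‖ ^ 2)
      ≤ ∫⁻ z in ball (0 : ℂ) 1, (2 * ENNReal.ofReal (‖deriv (deriv F) z / deriv F z‖ ^ 2) +
          ENNReal.ofReal (13 * a ^ 2)) := setLIntegral_mono' measurableSet_ball hpt
    _ = 2 * (∫⁻ z in ball (0 : ℂ) 1, ENNReal.ofReal (‖deriv (deriv F) z / deriv F z‖ ^ 2)) +
          ENNReal.ofReal (13 * a ^ 2) * volume (ball (0 : ℂ) 1) := by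
        rw [lintegral_add_right _ measurable_const, lintegral_const_mul' _ _ (by simp),
          setLIntegral_const]
    _ ≤ _ := by
        gcongr
        rw [Complex.volume_ball]
        simp only [ENNReal.ofReal_one, one_pow, one_mul]
        have hpi : (NNReal.pi : ENNReal) = ENNReal.ofReal Real.pi := by
          rw [← NNReal.coe_real_pi, ENNReal.ofReal_coe_nnreal]
        rw [hpi, ← ENNReal.ofReal_mul (by positivity)]
        apply ENNReal.ofReal_le_ofReal
        nlinarith [Real.pi_lt_four, Real.pi_pos, sq_nonneg a]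

end Pool.Agent.Helper606.FW
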