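import Pool.Agent.Helper606.FW.Defs
import Pool.Agent.Helper606.FW.P_cls_lip

set_option autoImplicit false

namespace Pool.Agent.Helper606.FW
open Complex Metric Set MeasureTheory Filter Topology


theorem stepEx_lip (a : ℝ) (ha0 : 0 ≤ a) (ha : a ≤ 1 / 10 ^ 6) (F G : ℂ → ℂ) (δ : ℝ)
    (hδ : 0 ≤ δ) (hF : Cls (1 / 8) F) (hG : Cls (1 / 8) G)
    (h : ∀ z ∈ ball (0 : ℂ) 1, ‖F z - G z‖ ≤ δ) :
    ∀ z ∈ ball (0 : ℂ) 1, ‖stepEx a F z - stepEx a G z‖ ≤ 20 * δ := by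
  intro z hz
  have hz1 : ‖z‖ < 1 := by simpa using hz
  have hbd : ∀ K : ℂ → ℂ, Cls (1 / 8) K → ‖K z‖ ≤ 9 / 8 := by
    intro K hK
    have h1 := cls_lip (1 / 8) K hK z 0 hz1 (by simp)
    rw [hK.zero] at h1
    simp only [sub_zero] at h1
    calc ‖K z‖ = ‖(K z - z) + z‖ := by congr 1; ring
      _ ≤ ‖K z - z‖ + ‖z‖ := norm_add_le _ _
      _ ≤ 1 / 8 * ‖z‖ + ‖z‖ := by linarith
      _ ≤ 9 / 8 := by linarith
  have hden : ∀ x : ℂ, ‖x‖ ≤ 9 / 8 → 1 / 2 ≤ ‖1 - (a : ℂ) * x‖ := by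
    intro x hx
    have h1 : ‖(a : ℂ) * x‖ ≤ 1 / 2 := by
      rw [norm_mul, Complex.norm_real, Real.norm_of_nonneg ha0]
      calc a * ‖x‖ ≤ (1 / 10 ^ 6) * (9 / 8) := mul_le_mul ha hx (norm_nonneg _) (by norm_num)
        _ ≤ 1 / 2 := by norm_num
    have h2 := norm_sub_norm_le (1 : ℂ) ((a : ℂ) * x)
    rw [norm_one] at h2
    linarith
  have hx := hden (F z) (hbd F hF)
  have hy := hden (G z) (hbd G hG)
  obtain ⟨x, hxx⟩ : ∃ x, x = F z := ⟨_, rfl⟩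
  obtain ⟨y, hyy⟩ : ∃ y, y = G z := ⟨_, rfl⟩
  have hxy := h z hz
  unfold stepEx
  rw [← hxx] at hx hxy ⊢
  rw [← hyy] at hy hxy ⊢
  have hx0 : (1 - (a : ℂ) * x) ≠ 0 := by
    intro h0; rw [h0, norm_zero] at hx; linarith
  have hy0 : (1 - (a : ℂ) * y) ≠ 0 := by
    intro h0; rw [h0, norm_zero] at hy; linarith
  have heq : x / (1 - (a : ℂ) * x) - y / (1 - (a : ℂ) * y)
      = (x - y) / ((1 - (a : ℂ) * x) * (1 - (a : ℂ) * y)) := by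
    rw [div_sub_div _ _ hx0 hy0]
    congr 1
    ring
  rw [heq, norm_div, norm_mul]
  have hp : 1 / 4 ≤ ‖1 - (a : ℂ) * x‖ * ‖1 - (a : ℂ) * y‖ := by nlinarith
  rw [div_le_iff₀ (by linarith)]
  nlinarith

end Pool.Agent.Helper606.FW
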