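import Pool.Agent.Helper606.FW.Defs
import Pool.Agent.Helper606.FW.P_stepEx_cls
import Pool.Agent.Helper606.FW.P_stepEx_en
import Pool.Agent.Helper606.FW.P_stepEx_lip

set_option autoImplicit false

namespace Pool.Agent.Helper606.FW
open Complex Metric Set MeasureTheory Filter Topology


theorem stepEx_step (a : ℝ) (ha0 : 0 ≤ a) (ha : a ≤ 1 / 10 ^ 6) : Step a (stepEx a) where
  cls := fun ε F hε0 hε h => stepEx_cls a ha0 ha ε hε0 hε F h
  en_le := fun F h => stepEx_en a ha0 ha F h
  lip := fun F G δ hδ hF hG h => stepEx_lip a ha0 ha F G δ hδ hF hG h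

end Pool.Agent.Helper606.FW
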