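import Pool.Agent.Helper606.FW.Defs
import Pool.Agent.Helper606.FW.P_cls_lip
import Pool.Agent.Helper606.FW.P_root_diff
import Pool.Agent.Helper606.FW.P_root_symm
import Pool.Agent.Helper606.FW.P_stepEx_cls
import Pool.Agent.Helper606.FW.P_stepEx_step
import Pool.Agent.Helper606.FW.P_aa_facts
import Pool.Agent.Helper606.FW.P_cls_mono
import Pool.Agent.Helper606.FW.P_lim_pkg
import Pool.Agent.Helper606.FW.P_ext_exists
import Pool.Agent.Helper606.FW.P_cls_congr
import Pool.Agent.Helper606.FW.P_closure_eq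
import Pool.Agent.Helper606.FW.P_deriv_one

set_option autoImplicit false

namespace Pool.Agent.Helper606.FW
open Complex Metric Set MeasureTheory Filter Topology


theorem ext_pkg_cont (ε : ℝ) (H : ℂ → ℂ) (h : Pl ε H) : Continuous H := by
  have h1 : LipschitzWith (Real.toNNReal ε) (fun z => H z - z) := by
    apply LipschitzWith.of_dist_le_mul
    intro z w
    rw [dist_eq_norm, dist_eq_norm]
    refine (h z w).trans ?_
    apply mul_le_mul_of_nonneg_right _ (norm_nonneg _)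
    exact Real.le_coe_toNNReal ε
  have h2 : H = fun z => (H z - z) + z := by
    funext z
    ring
  rw [h2]
  exact h1.continuous.add continuous_id

theorem ext_pkg_norm (ε : ℝ) (hε : ε ≤ 1) (F : ℂ → ℂ) (h : Cls ε F) (z : ℂ) (hz : ‖z‖ < 1) :
    ‖F z‖ ≤ 2 := by
  have h1 := cls_lip ε F h z 0 hz (by simp)
  rw [h.zero, sub_zero, sub_zero, sub_zero] at h1
  have h2 : F z = (F z - z) + z := by ring
  rw [h2]
  have h3 : ε * ‖z‖ ≤ 1 := by nlinarith [norm_nonneg z]
  calc ‖(F z - z) + z‖ ≤ ‖F z - z‖ + ‖z‖ := norm_add_le _ _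
    _ ≤ 2 := by linarith

theorem ext_pkg (m : ℕ) (hm1 : 10 ^ 7 ≤ m) (hm2 : m ≤ 10 ^ 10) :
    ∃ h : ℕ → ℂ → ℂ, ∀ i, Cls (64 * aa i) (h i) ∧ Pl (64 * aa i) (h i) ∧
      en (h i) < ⊤ ∧ deriv (h i) 0 = 1 ∧
      (∀ z : ℂ, ‖z‖ ≤ 1 → (h i z) ^ m * (1 - (aa i : ℂ) * h (i + 1) (z ^ m)) = h (i + 1) (z ^ m)) ∧
      (∀ ω z : ℂ, ω ^ m = 1 → ‖z‖ ≤ 1 → h i (ω * z) = ω * h i z) := by
  obtain ⟨f, hf1, hf2, hf3⟩ := lim_pkg m hm1 hm2 (fun i => stepEx (aa i))
    (fun i => stepEx_step (aa i) (aa_facts i).1.le (aa_facts i).2.1)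
  have hext : ∀ i, ∃ H : ℂ → ℂ, (∀ z : ℂ, ‖z‖ < 1 → H z = f i z) ∧ Pl (64 * aa i) H := fun i =>
    ext_exists (64 * aa i) (by have := (aa_facts i).1; linarith) (f i)
      (fun z w hz hw => cls_lip (64 * aa i) (f i) (hf1 i) z w hz hw)
  choose H hH hPl using hext
  have hcon : ∀ i, Continuous (H i) := fun i => ext_pkg_cont _ _ (hPl i)
  have hder := deriv_one m hm1 f hf1 hf3
  have hm0 : m ≠ 0 := by omega
  have hopen : ∀ i, ∀ z ∈ ball (0 : ℂ) 1,
      (H i z) ^ m * (1 - (aa i : ℂ) * H (i + 1) (z ^ m)) = H (i + 1) (z ^ m) := by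
    intro i z hz
    have hz1 : ‖z‖ < 1 := by simpa using hz
    have hzm : ‖z ^ m‖ < 1 := by
      rw [norm_pow]
      exact pow_lt_one₀ (norm_nonneg _) hz1 hm0
    rw [hH i z hz1, hH (i + 1) (z ^ m) hzm, hf3 i z hz]
    have ha := aa_facts i
    have ha' := aa_facts (i + 1)
    have hY : Cls (1 / 8) (stepEx (aa i) (f (i + 1))) := by
      apply cls_mono (2 * (64 * aa (i + 1)) + 8 * aa i)
      · rw [ha.2.2]; nlinarith [ha.1, ha.2.1]
      · exact stepEx_cls (aa i) ha.1.le ha.2.1 (64 * aa (i + 1)) (by linarith [ha'.1])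
          (by linarith [ha'.2.1]) (f (i + 1)) (hf1 (i + 1))
    rw [(root_diff m hm1 _ hY).2.2 z hz]
    have hn := ext_pkg_norm (64 * aa (i + 1)) (by linarith [ha'.2.1]) (f (i + 1)) (hf1 (i + 1))
      (z ^ m) hzm
    have hden : 1 - (aa i : ℂ) * f (i + 1) (z ^ m) ≠ 0 := by
      intro h0
      have h1 : (aa i : ℂ) * f (i + 1) (z ^ m) = 1 := (sub_eq_zero.1 h0).symm
      have h2 : ‖(aa i : ℂ) * f (i + 1) (z ^ m)‖ ≤ 1 / 10 ^ 6 * 2 := by
        rw [norm_mul, Complex.norm_real, Real.norm_of_nonneg ha.1.le]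
        exact mul_le_mul ha.2.1 hn (norm_nonneg _) (by positivity)
      rw [h1, norm_one] at h2
      norm_num at h2
    unfold stepEx
    exact div_mul_cancel₀ _ hden
  refine ⟨H, fun i => ⟨(cls_congr _ _ _ (hf1 i) (hH i)).1, hPl i, ?_, ?_, ?_, ?_⟩⟩
  · rw [(cls_congr _ _ _ (hf1 i) (hH i)).2]
    exact hf2 i
  · rw [← hder i]
    apply Filter.EventuallyEq.deriv_eq
    filter_upwards [ball_mem_nhds (0 : ℂ) one_pos] with z hz
    exact hH i z (by simpa using hz)
  · intro z hz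
    have h1 := closure_eq (fun z => (H i z) ^ m * (1 - (aa i : ℂ) * H (i + 1) (z ^ m)))
      (fun z => H (i + 1) (z ^ m))
      (((hcon i).pow m).mul (continuous_const.sub (continuous_const.mul
        ((hcon (i + 1)).comp (continuous_pow m))))).continuousOn
      ((hcon (i + 1)).comp (continuous_pow m)).continuousOn (hopen i) z (by simpa using hz)
    exact h1
  · intro ω z hω hz
    have hω1 : ‖ω‖ = 1 := by
      have h1 : ‖ω‖ ^ m = 1 := by rw [← norm_pow, hω, norm_one]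
      exact (pow_eq_one_iff_of_nonneg (norm_nonneg _) hm0).1 h1
    have h1 := closure_eq (fun z => H i (ω * z)) (fun z => ω * H i z)
      ((hcon i).comp (continuous_const.mul continuous_id)).continuousOn
      (continuous_const.mul (hcon i)).continuousOn (by
        intro z hz
        have hz1 : ‖z‖ < 1 := by simpa using hz
        have hz2 : ‖ω * z‖ < 1 := by rw [norm_mul, hω1, one_mul]; exact hz1
        show H i (ω * z) = ω * H i z
        rw [hH i z hz1, hH i (ω * z) hz2, hf3 i z hz, hf3 i (ω * z) (by simpa using hz2)]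
        exact root_symm m _ ω z hω) z (by simpa using hz)
    exact h1

end Pool.Agent.Helper606.FW
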