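import Pool.Agent.Helper606.FW.Defs

set_option autoImplicit false

namespace Pool.Agent.Helper606.FW
open Complex Metric Set MeasureTheory Filter Topology


theorem mob_deriv (α z : ℂ) (hα : ‖α‖ < 1) (hz : ‖z‖ ≤ 1) :
    HasDerivAt (mob α) ((1 - (‖α‖ : ℂ) ^ 2) / (1 + (starRingEnd ℂ) α * z) ^ 2) z := by
  have hne : 1 + (starRingEnd ℂ) α * z ≠ 0 := by
    intro h
    have h1 : (starRingEnd ℂ) α * z = -1 := by linear_combination h
    have h2 : ‖(starRingEnd ℂ) α * z‖ = 1 := by rw [h1]; simp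
    rw [norm_mul, RCLike.norm_conj] at h2
    have h3 : ‖α‖ * ‖z‖ ≤ ‖α‖ * 1 := mul_le_mul_of_nonneg_left hz (norm_nonneg _)
    linarith
  have h1 : HasDerivAt (fun z : ℂ => z + α) 1 z := (hasDerivAt_id z).add_const α
  have h2 : HasDerivAt (fun z : ℂ => 1 + (starRingEnd ℂ) α * z) ((starRingEnd ℂ) α) z := by
    simpa using ((hasDerivAt_id z).const_mul ((starRingEnd ℂ) α)).const_add 1
  have h3 := h1.div h2 hne
  have h4 : (‖α‖ : ℂ) ^ 2 = (starRingEnd ℂ) α * α := by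
    rw [mul_comm, Complex.mul_conj, Complex.normSq_eq_norm_sq]
    push_cast
    rfl
  have h5 : (1 * (1 + (starRingEnd ℂ) α * z) - (z + α) * (starRingEnd ℂ) α) =
      1 - (‖α‖ : ℂ) ^ 2 := by
    rw [h4]; ring
  rw [h5] at h3
  exact h3

end Pool.Agent.Helper606.FW
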