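import Pool.Agent.Helper606.FW.Defs
import Pool.Agent.Helper606.FW.P_mob_deriv

set_option autoImplicit false

namespace Pool.Agent.Helper606.FW
open Complex Metric Set MeasureTheory Filter Topology


theorem mob_cont (α : ℂ) (hα : ‖α‖ < 1) : ContinuousOn (mob α) (closedBall 0 1) := by
  intro z hz
  have hz' : ‖z‖ ≤ 1 := by simpa using hz
  exact (mob_deriv α z hα hz').continuousAt.continuousWithinAt

end Pool.Agent.Helper606.FW
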