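import Pool.Agent.Helper606.FW.Defs
import Pool.Agent.Helper606.FW.P_cls_lip

set_option autoImplicit false

namespace Pool.Agent.Helper606.FW
open Complex Metric Set MeasureTheory Filter Topology


theorem preim_spec (a : ℝ) (ha0 : 0 ≤ a) (ha : a ≤ 1 / 10 ^ 6) (F : ℂ → ℂ) (h : Cls (1 / 8) F) :
    ‖preim a F‖ ≤ 2 * a ∧ F (preim a F) = (a : ℂ) := by
  have hex : ∃ α : ℂ, ‖α‖ ≤ 2 * a ∧ F α = (a : ℂ) := by
    set T : ℂ → ℂ := fun α => (a : ℂ) - (F α - α) with hT
    have hlt : ∀ α ∈ closedBall (0 : ℂ) (2 * a), ‖α‖ < 1 := by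
      intro α hα
      rw [mem_closedBall_zero_iff] at hα
      linarith
    have hmap : MapsTo T (closedBall (0 : ℂ) (2 * a)) (closedBall (0 : ℂ) (2 * a)) := by
      intro α hα
      have h1 := cls_lip (1 / 8) F h α 0 (hlt α hα) (by simp)
      rw [h.zero, sub_zero, sub_zero, sub_zero] at h1
      rw [mem_closedBall_zero_iff] at hα ⊢
      have h2 : ‖T α‖ ≤ ‖(a : ℂ)‖ + ‖F α - α‖ := norm_sub_le _ _
      rw [Complex.norm_real, Real.norm_eq_abs, abs_of_nonneg ha0] at h2
      linarith
    have hcon : ContractingWith (1 / 8) (hmap.restrict T _ _) := by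
      refine ⟨by
        rw [← NNReal.coe_lt_coe]; norm_num, ?_⟩
      refine LipschitzWith.of_dist_le_mul ?_
      rintro ⟨α, hα⟩ ⟨β, hβ⟩
      rw [Subtype.dist_eq, Subtype.dist_eq]
      have h1 := cls_lip (1 / 8) F h β α (hlt β hβ) (hlt α hα)
      show dist (T α) (T β) ≤ _ * dist α β
      rw [dist_eq_norm, dist_eq_norm]
      have e : T α - T β = (F β - β) - (F α - α) := by
        simp only [hT]; ring
      rw [e, norm_sub_rev α β]
      refine h1.trans (le_of_eq ?_)
      norm_num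
    obtain ⟨y, hy, hfix, -⟩ := ContractingWith.exists_fixedPoint' (isCompact_closedBall
      (0 : ℂ) (2 * a)).isComplete hmap hcon (x := (0 : ℂ)) (by
        rw [mem_closedBall_zero_iff, norm_zero]; linarith) (edist_ne_top _ _)
    refine ⟨y, by simpa using hy, ?_⟩
    have h3 : (a : ℂ) - (F y - y) = y := hfix
    linear_combination -h3
  unfold preim
  rw [dif_pos hex]
  exact hex.choose_spec

end Pool.Agent.Helper606.FW
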