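import Pool.Agent.Helper606.FW.Defs
import Pool.Agent.Helper606.FW.P_preim_spec
import Pool.Agent.Helper606.FW.P_mob_mem
import Pool.Agent.Helper606.FW.P_mob_deriv

set_option autoImplicit false

namespace Pool.Agent.Helper606.FW
open Complex Metric Set MeasureTheory Filter Topology


theorem stepIn_cls (a : ℝ) (ha0 : 0 ≤ a) (ha : a ≤ 1 / 10 ^ 6) (ε : ℝ) (hε0 : 0 ≤ ε)
    (hε : ε ≤ 1 / 8) (F : ℂ → ℂ) (h : Cls ε F) : Cls (2 * ε + 8 * a) (stepIn a F) := by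
  have h8 : Cls (1 / 8) F := ⟨h.diff, h.zero, fun z hz => (h.der z hz).trans hε⟩
  obtain ⟨hα1, hα2⟩ := preim_spec a ha0 ha F h8
  have hstep : stepIn a F = fun u => F (mob (preim a F) u) - (a : ℂ) := rfl
  rw [hstep]
  generalize preim a F = α at hα1 hα2
  have hαlt : ‖α‖ < 1 := by linarith
  have hs0 : 0 ≤ ‖α‖ := norm_nonneg α
  have hmem : ∀ u ∈ ball (0 : ℂ) 1, mob α u ∈ ball (0 : ℂ) 1 := by
    intro u hu
    rw [mem_ball_zero_iff] at hu ⊢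
    exact mob_mem α u hαlt hu
  have hder : ∀ u ∈ ball (0 : ℂ) 1, HasDerivAt (fun u => F (mob α u) - (a : ℂ))
      (deriv F (mob α u) * ((1 - (‖α‖ : ℂ) ^ 2) / (1 + (starRingEnd ℂ) α * u) ^ 2)) u := by
    intro u hu
    have hFd : DifferentiableAt ℂ F (mob α u) :=
      h.diff.differentiableAt (isOpen_ball.mem_nhds (hmem u hu))
    have hu' : ‖u‖ ≤ 1 := by
      rw [mem_ball_zero_iff] at hu
      exact hu.le
    exact (hFd.hasDerivAt.comp u (mob_deriv α u hαlt hu')).sub_const (a : ℂ)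
  refine ⟨?_, ?_, ?_⟩
  · intro u hu
    exact (hder u hu).differentiableAt.differentiableWithinAt
  · have h0 : mob α 0 = α := by
      simp [mob]
    show F (mob α 0) - (a : ℂ) = 0
    rw [h0, hα2, sub_self]
  · intro u hu
    rw [(hder u hu).deriv]
    have hF := h.der (mob α u) (hmem u hu)
    have hu' : ‖u‖ < 1 := by
      rwa [mem_ball_zero_iff] at hu
    obtain ⟨c, hc⟩ : ∃ c : ℂ, c = (starRingEnd ℂ) α * u := ⟨_, rfl⟩
    rw [← hc]
    have hcn : ‖c‖ ≤ ‖α‖ := by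
      rw [hc, norm_mul, RCLike.norm_conj]
      exact mul_le_of_le_one_right hs0 hu'.le
    have h1c : 1 - ‖α‖ ≤ ‖1 + c‖ := by
      have h2 := norm_sub_norm_le (1 : ℂ) (-c)
      rw [sub_neg_eq_add, norm_neg, norm_one] at h2
      linarith
    have h1c0 : 0 < ‖1 + c‖ := by linarith
    have h1cne : (1 + c) ≠ 0 := norm_pos_iff.mp h1c0
    have hA : ‖(1 - (‖α‖ : ℂ) ^ 2) / (1 + c) ^ 2 - 1‖ ≤ 5 * a := by
      have h2 : (1 - (‖α‖ : ℂ) ^ 2) / (1 + c) ^ 2 - 1 =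
          -((‖α‖ : ℂ) ^ 2 + 2 * c + c ^ 2) / (1 + c) ^ 2 := by
        rw [div_sub_one (pow_ne_zero 2 h1cne)]
        congr 1
        ring
      rw [h2, norm_div, norm_neg, norm_pow, div_le_iff₀ (by positivity)]
      have h3 : ‖(‖α‖ : ℂ) ^ 2 + 2 * c + c ^ 2‖ ≤ ‖α‖ ^ 2 + 2 * ‖c‖ + ‖c‖ ^ 2 := by
        refine (norm_add_le _ _).trans (add_le_add ((norm_add_le _ _).trans
          (add_le_add ?_ ?_)) ?_)
        · rw [norm_pow, Complex.norm_real, norm_norm]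
        · rw [norm_mul]
          simp
        · rw [norm_pow]
      have h4 : ‖α‖ ^ 2 + 2 * ‖c‖ + ‖c‖ ^ 2 ≤ 2 * ‖α‖ + 2 * ‖α‖ ^ 2 := by
        have : ‖c‖ ^ 2 ≤ ‖α‖ ^ 2 := pow_le_pow_left₀ (norm_nonneg c) hcn 2
        linarith
      have h5 : 2 * ‖α‖ + 2 * ‖α‖ ^ 2 ≤ 4 * a + 8 * a ^ 2 := by
        have : ‖α‖ ^ 2 ≤ (2 * a) ^ 2 := pow_le_pow_left₀ hs0 hα1 2
        nlinarith
      have h6 : (1 - 2 * a) ^ 2 ≤ ‖1 + c‖ ^ 2 :=
        pow_le_pow_left₀ (by linarith) (by linarith) 2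
      have h7 : 4 * a + 8 * a ^ 2 ≤ 5 * a * (1 - 2 * a) ^ 2 := by
        nlinarith [mul_nonneg ha0 (sub_nonneg.mpr ha), mul_nonneg ha0 ha0,
          mul_nonneg (mul_nonneg ha0 ha0) ha0]
      have h8 : 5 * a * (1 - 2 * a) ^ 2 ≤ 5 * a * ‖1 + c‖ ^ 2 :=
        mul_le_mul_of_nonneg_left h6 (by linarith)
      linarith
    generalize (1 - (‖α‖ : ℂ) ^ 2) / (1 + c) ^ 2 = A' at hA
    generalize deriv F (mob α u) = D at hF
    have h2 : D * A' - 1 = (D - 1) * A' + (A' - 1) := by ring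
    have h3 : ‖A'‖ ≤ 1 + 5 * a := by
      have h4 : A' = (A' - 1) + 1 := by ring
      calc ‖A'‖ = ‖(A' - 1) + 1‖ := by rw [← h4]
        _ ≤ ‖A' - 1‖ + ‖(1 : ℂ)‖ := norm_add_le _ _
        _ ≤ 5 * a + 1 := by
          rw [norm_one]
          linarith
        _ = 1 + 5 * a := by ring
    calc ‖D * A' - 1‖ = ‖(D - 1) * A' + (A' - 1)‖ := by rw [h2]
      _ ≤ ‖(D - 1) * A'‖ + ‖A' - 1‖ := norm_add_le _ _
      _ ≤ ε * (1 + 5 * a) + 5 * a := by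
          rw [norm_mul]
          exact add_le_add (mul_le_mul hF h3 (norm_nonneg _) hε0) hA
      _ ≤ 2 * ε + 8 * a := by
          have h4 : ε * (5 * a) ≤ ε * 1 := mul_le_mul_of_nonneg_left (by linarith) hε0
          nlinarith

end Pool.Agent.Helper606.FW
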