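import Pool.Agent.Helper606.FW.Defs
import Pool.Agent.Helper606.FW.P_mob_mem
import Pool.Agent.Helper606.FW.P_mob_inv
import Pool.Agent.Helper606.FW.P_mob_deriv

set_option autoImplicit false

namespace Pool.Agent.Helper606.FW
open Complex Metric Set MeasureTheory Filter Topology


theorem lm_det (c : ℂ) : (c • (1 : ℂ →L[ℝ] ℂ)).det = ‖c‖ ^ 2 := by
  have h1 : ((c • (1 : ℂ →L[ℝ] ℂ) : ℂ →L[ℝ] ℂ) : ℂ →ₗ[ℝ] ℂ) = Algebra.lmul ℝ ℂ c := by
    ext
    simp
  rw [ContinuousLinearMap.det, h1, ← Algebra.norm_apply, Algebra.norm_complex_apply, Complex.normSq_eq_norm_sq]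

theorem lm_left (α z : ℂ) (hα : ‖α‖ < 1) (hz : ‖z‖ ≤ 1) : mob (-α) (mob α z) = z := by
  have h := mob_inv (-α) z (by rwa [norm_neg]) hz
  rwa [neg_neg] at h

theorem lintegral_mob (α : ℂ) (hα : ‖α‖ < 1) (G : ℂ → ENNReal) (hG : Measurable G) :
    ∫⁻ z in ball (0 : ℂ) 1, ENNReal.ofReal (‖deriv (mob α) z‖ ^ 2) * G (mob α z) ≤
      ∫⁻ z in ball (0 : ℂ) 1, G z := by
  have hinj : InjOn (mob α) (ball (0 : ℂ) 1) := by
    intro x hx y hy hxy
    rw [mem_ball_zero_iff] at hx hy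
    rw [← lm_left α x hα hx.le, hxy, lm_left α y hα hy.le]
  have hd : ∀ z ∈ ball (0 : ℂ) 1, HasFDerivWithinAt (mob α) ((deriv (mob α) z) • (1 : ℂ →L[ℝ] ℂ))
      (ball (0 : ℂ) 1) z := by
    intro z hz
    rw [mem_ball_zero_iff] at hz
    have h1 := mob_deriv α z hα hz.le
    rw [← h1.deriv] at h1
    exact h1.complexToReal_fderiv.hasFDerivWithinAt
  have h2 := lintegral_image_eq_lintegral_abs_det_fderiv_mul volume measurableSet_ball hd hinj G
  have h3 : ∫⁻ z in ball (0 : ℂ) 1, ENNReal.ofReal (‖deriv (mob α) z‖ ^ 2) * G (mob α z) =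
      ∫⁻ z in mob α '' ball (0 : ℂ) 1, G z := by
    rw [h2]
    refine lintegral_congr fun z => ?_
    rw [lm_det, abs_of_nonneg (by positivity)]
  rw [h3]
  refine lintegral_mono_set ?_
  rintro _ ⟨z, hz, rfl⟩
  rw [mem_ball_zero_iff] at hz ⊢
  exact mob_mem α z hα hz

end Pool.Agent.Helper606.FW
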