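import Pool.Agent.Helper606.FW.Defs
import Pool.Agent.Helper606.FW.P_preim_spec
import Pool.Agent.Helper606.FW.P_mob_mem
import Pool.Agent.Helper606.FW.P_mob_deriv
import Pool.Agent.Helper606.FW.P_lintegral_mob

set_option autoImplicit false

namespace Pool.Agent.Helper606.FW
open Complex Metric Set MeasureTheory Filter Topology


theorem h396_den (α u : ℂ) (_hα : ‖α‖ < 1) (hu : ‖u‖ < 1) :
    1 - ‖α‖ ≤ ‖1 + (starRingEnd ℂ) α * u‖ := by
  have h1 : ‖(1 : ℂ)‖ - ‖-((starRingEnd ℂ) α * u)‖ ≤ ‖(1 : ℂ) - -((starRingEnd ℂ) α * u)‖ :=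
    norm_sub_norm_le _ _
  rw [norm_one, norm_neg, norm_mul, Complex.norm_conj, sub_neg_eq_add] at h1
  have h2 : ‖α‖ * ‖u‖ ≤ ‖α‖ * 1 := mul_le_mul_of_nonneg_left hu.le (norm_nonneg _)
  linarith

theorem h396_point (α : ℂ) (b : ℂ) (hα : ‖α‖ < 1) (F : ℂ → ℂ) (h : Cls (1 / 8) F) (u : ℂ)
    (hu : u ∈ ball (0 : ℂ) 1) :
    deriv (deriv (fun u => F (mob α u) - b)) u / deriv (fun u => F (mob α u) - b) u =
      deriv (mob α) u * (deriv (deriv F) (mob α u) / deriv F (mob α u)) +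
        (-(2 * (starRingEnd ℂ) α) / (1 + (starRingEnd ℂ) α * u)) := by
  have hmem : ∀ v ∈ ball (0 : ℂ) 1, mob α v ∈ ball (0 : ℂ) 1 := by
    intro v hv
    rw [mem_ball_zero_iff] at hv ⊢
    exact mob_mem α v hα hv
  have hA : ∀ v ∈ ball (0 : ℂ) 1, HasDerivAt (mob α)
      ((1 - (‖α‖ : ℂ) ^ 2) / (1 + (starRingEnd ℂ) α * v) ^ 2) v := by
    intro v hv
    rw [mem_ball_zero_iff] at hv
    exact mob_deriv α v hα hv.le
  have hF1 : ∀ v ∈ ball (0 : ℂ) 1, HasDerivAt F (deriv F v) v := by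
    intro v hv
    exact (h.diff.differentiableAt (isOpen_ball.mem_nhds hv)).hasDerivAt
  have hF2 : ∀ v ∈ ball (0 : ℂ) 1, HasDerivAt (deriv F) (deriv (deriv F) v) v := by
    intro v hv
    exact ((h.diff.deriv isOpen_ball).differentiableAt (isOpen_ball.mem_nhds hv)).hasDerivAt
  have hY1 : ∀ v ∈ ball (0 : ℂ) 1, HasDerivAt (fun u => F (mob α u) - b)
      (deriv F (mob α v) * ((1 - (‖α‖ : ℂ) ^ 2) / (1 + (starRingEnd ℂ) α * v) ^ 2)) v := by
    intro v hv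
    exact ((hF1 _ (hmem v hv)).comp v (hA v hv)).sub_const b
  have hden : (1 + (starRingEnd ℂ) α * u) ≠ 0 := by
    intro h0
    have h1 := h396_den α u hα (mem_ball_zero_iff.1 hu)
    rw [h0, norm_zero] at h1
    linarith
  have hnum : (1 - (‖α‖ : ℂ) ^ 2) ≠ 0 := by
    have h1 : (0 : ℝ) < 1 - ‖α‖ ^ 2 := by nlinarith [norm_nonneg α]
    have h2 : (((1 - ‖α‖ ^ 2 : ℝ)) : ℂ) ≠ 0 := by exact_mod_cast h1.ne'
    push_cast at h2
    exact h2
  have hF0 : deriv F (mob α u) ≠ 0 := by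
    intro h0
    have h1 := h.der (mob α u) (hmem u hu)
    rw [h0, zero_sub, norm_neg, norm_one] at h1
    norm_num at h1
  have hev : deriv (fun u => F (mob α u) - b) =ᶠ[𝓝 u] fun v =>
      deriv F (mob α v) * ((1 - (‖α‖ : ℂ) ^ 2) / (1 + (starRingEnd ℂ) α * v) ^ 2) := by
    filter_upwards [isOpen_ball.mem_nhds hu] with v hv
    exact (hY1 v hv).deriv
  have hD : HasDerivAt (fun v : ℂ => 1 + (starRingEnd ℂ) α * v) ((starRingEnd ℂ) α) u := by
    have h1 := ((hasDerivAt_id u).const_mul ((starRingEnd ℂ) α)).const_add 1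
    simpa using h1
  have hD2 : HasDerivAt (fun v : ℂ => (1 - (‖α‖ : ℂ) ^ 2) / (1 + (starRingEnd ℂ) α * v) ^ 2)
      ((0 * (1 + (starRingEnd ℂ) α * u) ^ 2 - (1 - (‖α‖ : ℂ) ^ 2) *
        ((2 : ℕ) * (1 + (starRingEnd ℂ) α * u) ^ (2 - 1) * (starRingEnd ℂ) α)) /
        ((1 + (starRingEnd ℂ) α * u) ^ 2) ^ 2) u :=
    (hasDerivAt_const u _).div (hD.pow 2) (pow_ne_zero 2 hden)
  have hY2 : HasDerivAt (fun v => deriv F (mob α v) *
      ((1 - (‖α‖ : ℂ) ^ 2) / (1 + (starRingEnd ℂ) α * v) ^ 2)) _ u :=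
    ((hF2 _ (hmem u hu)).comp u (hA u hu)).mul hD2
  have hd2 := hev.deriv_eq.trans hY2.deriv
  rw [hd2, (hY1 u hu).deriv, (hA u hu).deriv]
  generalize (starRingEnd ℂ) α = c at hden ⊢
  simp only [Function.comp_apply]
  generalize deriv (deriv F) (mob α u) = f2
  generalize deriv F (mob α u) = f1 at hF0 ⊢
  generalize (1 - (‖α‖ : ℂ) ^ 2) = q at hnum ⊢
  obtain ⟨p, hp⟩ : ∃ p, p = 1 + c * u := ⟨_, rfl⟩
  rw [← hp] at hden ⊢
  have h21 : (2 : ℕ) - 1 = 1 := rfl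
  rw [h21]
  push_cast
  field_simp
  ring

theorem h396_sq (x y : ℂ) : ‖x + y‖ ^ 2 ≤ 2 * ‖x‖ ^ 2 + 2 * ‖y‖ ^ 2 := by
  have h1 := norm_add_le x y
  have h2 : ‖x + y‖ ^ 2 ≤ (‖x‖ + ‖y‖) ^ 2 := pow_le_pow_left₀ (norm_nonneg _) h1 2
  nlinarith [sq_nonneg (‖x‖ - ‖y‖)]

theorem h396_tail (a : ℝ) (ha0 : 0 ≤ a) (ha : a ≤ 1 / 10 ^ 6) (α u : ℂ) (hα : ‖α‖ ≤ 2 * a)
    (hu : ‖u‖ < 1) : ‖-(2 * (starRingEnd ℂ) α) / (1 + (starRingEnd ℂ) α * u)‖ ≤ 5 * a := by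
  have ha1 : a ≤ 1 / 1000 := by
    refine ha.trans ?_
    norm_num
  have h1 := h396_den α u (by linarith) hu
  have h2 : (0 : ℝ) < ‖1 + (starRingEnd ℂ) α * u‖ := by linarith
  rw [norm_div, norm_neg, norm_mul, Complex.norm_conj, div_le_iff₀ h2]
  have h3 : ‖(2 : ℂ)‖ = 2 := by norm_num
  rw [h3]
  nlinarith

theorem stepIn_en (a : ℝ) (ha0 : 0 ≤ a) (ha : a ≤ 1 / 10 ^ 6) (F : ℂ → ℂ) (h : Cls (1 / 8) F) :
    en (stepIn a F) ≤ 2 * en F + ENNReal.ofReal (200 * a ^ 2) := by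
  obtain ⟨hα, _⟩ := preim_spec a ha0 ha F h
  obtain ⟨α, hαdef⟩ : ∃ α, α = preim a F := ⟨_, rfl⟩
  have ha1 : a ≤ 1 / 1000 := by
    refine ha.trans ?_
    norm_num
  rw [← hαdef] at hα
  have hα1 : ‖α‖ < 1 := by linarith
  obtain ⟨G, hG⟩ : ∃ G : ℂ → ENNReal,
      G = fun z => ENNReal.ofReal (‖deriv (deriv F) z / deriv F z‖ ^ 2) := ⟨_, rfl⟩
  have hGm : Measurable G := by
    rw [hG]
    exact (((measurable_deriv _).div (measurable_deriv _)).norm.pow_const 2).ennreal_ofReal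
  have henF : en F = ∫⁻ z in ball (0 : ℂ) 1, G z := by
    rw [hG]
    rfl
  have hpt : ∀ u ∈ ball (0 : ℂ) 1,
      ENNReal.ofReal (‖deriv (deriv (stepIn a F)) u / deriv (stepIn a F) u‖ ^ 2) ≤
        2 * (ENNReal.ofReal (‖deriv (mob α) u‖ ^ 2) * G (mob α u)) +
          ENNReal.ofReal (50 * a ^ 2) := by
    intro u hu
    have h1 := h396_point α (a : ℂ) hα1 F h u hu
    have h2 : stepIn a F = fun u => F (mob α u) - (a : ℂ) := by
      unfold stepIn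
      rw [hαdef]
    rw [h2, h1, hG]
    have h3 := h396_sq (deriv (mob α) u * (deriv (deriv F) (mob α u) / deriv F (mob α u)))
      (-(2 * (starRingEnd ℂ) α) / (1 + (starRingEnd ℂ) α * u))
    have h4 := h396_tail a ha0 ha α u hα (mem_ball_zero_iff.1 hu)
    have h5 : ‖-(2 * (starRingEnd ℂ) α) / (1 + (starRingEnd ℂ) α * u)‖ ^ 2 ≤ (5 * a) ^ 2 :=
      pow_le_pow_left₀ (norm_nonneg _) h4 2
    have h6 : ‖deriv (mob α) u * (deriv (deriv F) (mob α u) / deriv F (mob α u)) +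
        -(2 * (starRingEnd ℂ) α) / (1 + (starRingEnd ℂ) α * u)‖ ^ 2 ≤
        2 * (‖deriv (mob α) u‖ ^ 2 * ‖deriv (deriv F) (mob α u) / deriv F (mob α u)‖ ^ 2) +
          50 * a ^ 2 := by
      rw [norm_mul, mul_pow] at h3
      linarith
    refine (ENNReal.ofReal_le_ofReal h6).trans (le_of_eq ?_)
    rw [ENNReal.ofReal_add (by positivity) (by positivity), ENNReal.ofReal_mul (by norm_num),
      ENNReal.ofReal_mul (by positivity), ENNReal.ofReal_ofNat]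
  have hint : en (stepIn a F) ≤ ∫⁻ u in ball (0 : ℂ) 1,
      (2 * (ENNReal.ofReal (‖deriv (mob α) u‖ ^ 2) * G (mob α u)) +
          ENNReal.ofReal (50 * a ^ 2)) :=
    setLIntegral_mono' measurableSet_ball hpt
  refine hint.trans ?_
  rw [lintegral_add_right _ measurable_const, lintegral_const_mul' _ _ (by norm_num),
    setLIntegral_const]
  refine add_le_add ?_ ?_
  · rw [henF]
    exact mul_le_mul_right (lintegral_mob α hα1 G hGm) 2
  · rw [Complex.volume_ball, ENNReal.ofReal_one, one_pow, one_mul]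
    have h7 : ((NNReal.pi : NNReal) : ENNReal) = ENNReal.ofReal Real.pi := by
      rw [← NNReal.coe_real_pi, ENNReal.ofReal_coe_nnreal]
    rw [h7, ← ENNReal.ofReal_mul (by positivity)]
    refine ENNReal.ofReal_le_ofReal ?_
    nlinarith [Real.pi_le_four, sq_nonneg a, Real.pi_pos]

end Pool.Agent.Helper606.FW
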