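import Pool.Agent.Helper606.FW.Defs
import Pool.Agent.Helper606.FW.P_cls_lip
import Pool.Agent.Helper606.FW.P_preim_spec
import Pool.Agent.Helper606.FW.P_mob_mem

set_option autoImplicit false

namespace Pool.Agent.Helper606.FW
open Complex Metric Set MeasureTheory Filter Topology


theorem fkw_moblip (a : ℝ) (ha0 : 0 ≤ a) (ha : a ≤ 1 / 10 ^ 6) (α β z : ℂ)
    (hα : ‖α‖ ≤ 2 * a) (hβ : ‖β‖ ≤ 2 * a) (hz : ‖z‖ < 1) :
    ‖mob α z - mob β z‖ ≤ 3 * ‖α - β‖ := by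
  have hlow : ∀ γ : ℂ, ‖γ‖ ≤ 2 * a → 1 - 2 * a ≤ ‖1 + (starRingEnd ℂ) γ * z‖ := by
    intro γ hγ
    have h1 : ‖(starRingEnd ℂ) γ * z‖ ≤ 2 * a := by
      rw [norm_mul, RCLike.norm_conj]
      calc ‖γ‖ * ‖z‖ ≤ (2 * a) * 1 :=
            mul_le_mul hγ hz.le (norm_nonneg _) (by linarith)
        _ = 2 * a := mul_one _
    have h2 : ‖(1 : ℂ)‖ ≤ ‖1 + (starRingEnd ℂ) γ * z‖ + ‖(starRingEnd ℂ) γ * z‖ := by
      have := norm_sub_le (1 + (starRingEnd ℂ) γ * z) ((starRingEnd ℂ) γ * z)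
      rwa [add_sub_cancel_right] at this
    rw [norm_one] at h2
    linarith
  have ha1 : a ≤ 1 / 1000 := ha.trans (by norm_num)
  have hA := hlow α hα
  have hB := hlow β hβ
  have hA0 : 1 + (starRingEnd ℂ) α * z ≠ 0 := by
    intro h0
    rw [h0, norm_zero] at hA
    linarith
  have hB0 : 1 + (starRingEnd ℂ) β * z ≠ 0 := by
    intro h0
    rw [h0, norm_zero] at hB
    linarith
  have hform : mob α z - mob β z =
      ((α - β) + z ^ 2 * ((starRingEnd ℂ) β - (starRingEnd ℂ) α) +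
        z * ((α - β) * (starRingEnd ℂ) β + β * ((starRingEnd ℂ) β - (starRingEnd ℂ) α))) /
      ((1 + (starRingEnd ℂ) α * z) * (1 + (starRingEnd ℂ) β * z)) := by
    unfold mob
    rw [div_sub_div _ _ hA0 hB0]
    congr 1
    ring
  have hc : ‖(starRingEnd ℂ) β - (starRingEnd ℂ) α‖ = ‖α - β‖ := by
    rw [← map_sub, RCLike.norm_conj, norm_sub_rev]
  set d := ‖α - β‖ with hd
  have hd0 : 0 ≤ d := norm_nonneg _
  have hN : ‖(α - β) + z ^ 2 * ((starRingEnd ℂ) β - (starRingEnd ℂ) α) +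
        z * ((α - β) * (starRingEnd ℂ) β + β * ((starRingEnd ℂ) β - (starRingEnd ℂ) α))‖ ≤
      (2 + 4 * a) * d := by
    have t1 : ‖z ^ 2 * ((starRingEnd ℂ) β - (starRingEnd ℂ) α)‖ ≤ d := by
      rw [norm_mul, norm_pow, hc]
      have : ‖z‖ ^ 2 ≤ 1 := pow_le_one₀ (norm_nonneg _) hz.le
      nlinarith
    have t2 : ‖(α - β) * (starRingEnd ℂ) β‖ ≤ 2 * a * d := by
      rw [norm_mul, RCLike.norm_conj, ← hd]
      nlinarith
    have t3 : ‖β * ((starRingEnd ℂ) β - (starRingEnd ℂ) α)‖ ≤ 2 * a * d := by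
      rw [norm_mul, hc]
      nlinarith
    have t4 : ‖z * ((α - β) * (starRingEnd ℂ) β + β * ((starRingEnd ℂ) β - (starRingEnd ℂ) α))‖
        ≤ 4 * a * d := by
      rw [norm_mul]
      have t5 : ‖(α - β) * (starRingEnd ℂ) β + β * ((starRingEnd ℂ) β - (starRingEnd ℂ) α)‖
          ≤ 4 * a * d := by
        refine (norm_add_le _ _).trans ?_
        linarith
      calc _ ≤ 1 * (4 * a * d) := mul_le_mul hz.le t5 (norm_nonneg _) zero_le_one
        _ = 4 * a * d := one_mul _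
    refine (norm_add_le _ _).trans ?_
    have t6 := norm_add_le (α - β) (z ^ 2 * ((starRingEnd ℂ) β - (starRingEnd ℂ) α))
    rw [← hd] at t6
    linarith
  rw [hform, norm_div, norm_mul]
  have hD : (1 - 2 * a) * (1 - 2 * a) ≤
      ‖1 + (starRingEnd ℂ) α * z‖ * ‖1 + (starRingEnd ℂ) β * z‖ :=
    mul_le_mul hA hB (by linarith) (norm_nonneg _)
  have hDpos : 0 < ‖1 + (starRingEnd ℂ) α * z‖ * ‖1 + (starRingEnd ℂ) β * z‖ :=
    lt_of_lt_of_le (mul_pos (by linarith) (by linarith)) hD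
  rw [div_le_iff₀ hDpos]
  refine hN.trans ?_
  have e1 : (2 + 4 * a) ≤ 3 * ((1 - 2 * a) * (1 - 2 * a)) := by nlinarith
  calc (2 + 4 * a) * d ≤ (3 * ((1 - 2 * a) * (1 - 2 * a))) * d :=
        mul_le_mul_of_nonneg_right e1 hd0
    _ = 3 * d * ((1 - 2 * a) * (1 - 2 * a)) := by ring
    _ ≤ _ := mul_le_mul_of_nonneg_left hD (by linarith)

theorem stepIn_lip (a : ℝ) (ha0 : 0 ≤ a) (ha : a ≤ 1 / 10 ^ 6) (F G : ℂ → ℂ) (δ : ℝ)
    (hδ : 0 ≤ δ) (hF : Cls (1 / 8) F) (hG : Cls (1 / 8) G)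
    (h : ∀ z ∈ ball (0 : ℂ) 1, ‖F z - G z‖ ≤ δ) :
    ∀ z ∈ ball (0 : ℂ) 1, ‖stepIn a F z - stepIn a G z‖ ≤ 20 * δ := by
  intro z hz
  have hz1 : ‖z‖ < 1 := by simpa using hz
  obtain ⟨hα, hFα⟩ := preim_spec a ha0 ha F hF
  obtain ⟨hβ, hGβ⟩ := preim_spec a ha0 ha G hG
  have hS : stepIn a F z - stepIn a G z = F (mob (preim a F) z) - G (mob (preim a G) z) := by
    unfold stepIn
    ring
  rw [hS]
  set α := preim a F
  set β := preim a G
  have ha1 : a ≤ 1 / 1000 := ha.trans (by norm_num)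
  have hα1 : ‖α‖ < 1 := lt_of_le_of_lt hα (by linarith)
  have hβ1 : ‖β‖ < 1 := lt_of_le_of_lt hβ (by linarith)
  have h1 := cls_lip (1 / 8) F hF α β hα1 hβ1
  have h2 : ‖F β - G β‖ ≤ δ := h β (by simpa using hβ1)
  have h3 : ‖α - β‖ ≤ ‖(F α - α) - (F β - β)‖ + ‖F β - G β‖ := by
    have e : α - β = -((F α - α) - (F β - β)) + -(F β - G β) := by
      rw [hFα, hGβ]
      ring
    calc ‖α - β‖ = ‖-((F α - α) - (F β - β)) + -(F β - G β)‖ := by rw [← e]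
      _ ≤ ‖-((F α - α) - (F β - β))‖ + ‖-(F β - G β)‖ := norm_add_le _ _
      _ = _ := by rw [norm_neg, norm_neg]
  have h4 : ‖α - β‖ ≤ 8 / 7 * δ := by linarith
  have hm := fkw_moblip a ha0 ha α β z hα hβ hz1
  have hu1 := mob_mem α z hα1 hz1
  have hv1 := mob_mem β z hβ1 hz1
  set u := mob α z
  set v := mob β z
  have h5 := cls_lip (1 / 8) F hF u v hu1 hv1
  have h6 : ‖F v - G v‖ ≤ δ := h v (by simpa using hv1)
  have h7 : ‖F u - G v‖ ≤ (‖(F u - u) - (F v - v)‖ + ‖u - v‖) + ‖F v - G v‖ := by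
    have e : F u - G v = (((F u - u) - (F v - v)) + (u - v)) + (F v - G v) := by ring
    calc ‖F u - G v‖ = ‖(((F u - u) - (F v - v)) + (u - v)) + (F v - G v)‖ := by rw [← e]
      _ ≤ ‖((F u - u) - (F v - v)) + (u - v)‖ + ‖F v - G v‖ := norm_add_le _ _
      _ ≤ _ := add_le_add_left (norm_add_le _ _) _
  linarith

end Pool.Agent.Helper606.FW
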