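import Pool.Agent.Helper606.FW.Defs
import Pool.Agent.Helper606.FW.P_stepIn_cls
import Pool.Agent.Helper606.FW.P_stepIn_en
import Pool.Agent.Helper606.FW.P_stepIn_lip

set_option autoImplicit false

namespace Pool.Agent.Helper606.FW
open Complex Metric Set MeasureTheory Filter Topology


theorem stepIn_step (a : ℝ) (ha0 : 0 ≤ a) (ha : a ≤ 1 / 10 ^ 6) : Step a (stepIn a) := by
  exact ⟨fun ε F h1 h2 h3 => stepIn_cls a ha0 ha ε h1 h2 F h3, fun F h => stepIn_en a ha0 ha F h,
    fun F G δ hδ hF hG h => stepIn_lip a ha0 ha F G δ hδ hF hG h⟩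

end Pool.Agent.Helper606.FW
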