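import Pool.Agent.Helper606.FW.Defs
import Pool.Agent.Helper606.FW.P_cls_lip
import Pool.Agent.Helper606.FW.P_root_diff
import Pool.Agent.Helper606.FW.P_root_symm
import Pool.Agent.Helper606.FW.P_preim_spec
import Pool.Agent.Helper606.FW.P_mob_mem
import Pool.Agent.Helper606.FW.P_mob_circle
import Pool.Agent.Helper606.FW.P_stepIn_cls
import Pool.Agent.Helper606.FW.P_stepIn_step
import Pool.Agent.Helper606.FW.P_aa_facts
import Pool.Agent.Helper606.FW.P_cls_mono
import Pool.Agent.Helper606.FW.P_lim_pkg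
import Pool.Agent.Helper606.FW.P_ext_exists
import Pool.Agent.Helper606.FW.P_cls_congr
import Pool.Agent.Helper606.FW.P_closure_eq
import Pool.Agent.Helper606.FW.P_mob_cont

set_option autoImplicit false

namespace Pool.Agent.Helper606.FW
open Complex Metric Set MeasureTheory Filter Topology


theorem pl_cont_aux (ε : ℝ) (H : ℂ → ℂ) (h : Pl ε H) : Continuous H := by
  have h1 : LipschitzWith (Real.toNNReal ε) (fun z => H z - z) := by
    refine LipschitzWith.of_dist_le_mul (fun z w => ?_)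
    rw [dist_eq_norm, dist_eq_norm]
    refine (h z w).trans ?_
    exact mul_le_mul_of_nonneg_right (Real.le_coe_toNNReal ε) (norm_nonneg _)
  have h2 : Continuous (fun z => (H z - z) + z) := h1.continuous.add continuous_id
  have h3 : (fun z => (H z - z) + z) = H := by funext z; ring
  rw [h3] at h2
  exact h2

theorem int_pkg (m : ℕ) (hm1 : 10 ^ 7 ≤ m) (hm2 : m ≤ 10 ^ 10) :
    ∃ (f : ℕ → ℂ → ℂ) (α : ℕ → ℂ), ∀ i, Cls (64 * aa i) (f i) ∧ Pl (64 * aa i) (f i) ∧
      en (f i) < ⊤ ∧ ‖α i‖ ≤ 2 * aa i ∧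
      (∀ z : ℂ, ‖z‖ ≤ 1 → (f i z) ^ m + (aa i : ℂ) = f (i + 1) (mob (α i) (z ^ m))) ∧
      (∀ ω z : ℂ, ω ^ m = 1 → ‖z‖ ≤ 1 → f i (ω * z) = ω * f i z) := by
  have hm0 : m ≠ 0 := by
    have : (0 : ℕ) < 10 ^ 7 := by norm_num
    omega
  obtain ⟨F, hF1, hF2, hF3⟩ := lim_pkg m hm1 hm2 (fun i => stepIn (aa i))
    (fun i => stepIn_step (aa i) (aa_facts i).1.le (aa_facts i).2.1)
  have hext : ∀ i, ∃ H : ℂ → ℂ, (∀ z : ℂ, ‖z‖ < 1 → H z = F i z) ∧ Pl (64 * aa i) H := by
    intro i
    refine ext_exists (64 * aa i) ?_ (F i) (cls_lip (64 * aa i) (F i) (hF1 i))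
    have := (aa_facts i).1
    linarith
  choose H hH1 hH2 using hext
  have hF8 : ∀ i, Cls (1 / 8) (F (i + 1)) := by
    intro i
    refine cls_mono (64 * aa (i + 1)) (1 / 8) ?_ _ (hF1 (i + 1))
    have := (aa_facts (i + 1)).2.1
    norm_num at this ⊢
    linarith
  have hpre : ∀ i, ‖preim (aa i) (F (i + 1))‖ ≤ 2 * aa i :=
    fun i => (preim_spec (aa i) (aa_facts i).1.le (aa_facts i).2.1 _ (hF8 i)).1
  have hpre1 : ∀ i, ‖preim (aa i) (F (i + 1))‖ < 1 := by
    intro i
    have h1 := hpre i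
    have h2 := (aa_facts i).2.1
    norm_num at h2
    linarith
  have hY : ∀ i, Cls (1 / 8) (stepIn (aa i) (F (i + 1))) := by
    intro i
    have h2 := (aa_facts i).2.1
    have h3 := (aa_facts (i + 1)).2.1
    have h4 := (aa_facts (i + 1)).1
    have h5 := (aa_facts i).1
    norm_num at h2 h3
    refine cls_mono (2 * (64 * aa (i + 1)) + 8 * aa i) (1 / 8) ?_ _
      (stepIn_cls (aa i) h5.le (aa_facts i).2.1 (64 * aa (i + 1)) ?_ ?_ _ (hF1 (i + 1)))
    · linarith
    · linarith
    · linarith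
  have hcont : ∀ i, Continuous (H i) := fun i => pl_cont_aux _ _ (hH2 i)
  refine ⟨H, fun i => preim (aa i) (F (i + 1)), fun i => ⟨?_, hH2 i, ?_, hpre i, ?_, ?_⟩⟩
  · exact (cls_congr (64 * aa i) (F i) (H i) (hF1 i) (hH1 i)).1
  · rw [(cls_congr (64 * aa i) (F i) (H i) (hF1 i) (hH1 i)).2]
    exact hF2 i
  · have hcl := closure_eq (fun z => (H i z) ^ m + (aa i : ℂ))
      (fun z => H (i + 1) (mob (preim (aa i) (F (i + 1))) (z ^ m))) ?_ ?_ ?_
    · intro z hz
      exact hcl z (by simpa [mem_closedBall, dist_zero_right] using hz)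
    · exact (((hcont i).pow m).add continuous_const).continuousOn
    · refine (hcont (i + 1)).comp_continuousOn ?_
      refine (mob_cont _ (hpre1 i)).comp (continuous_pow m).continuousOn ?_
      intro z hz
      simp only [mem_closedBall, dist_zero_right] at hz ⊢
      rw [norm_pow]
      exact pow_le_one₀ (norm_nonneg _) hz
    · intro z hz
      have hz1 : ‖z‖ < 1 := by simpa [mem_ball, dist_zero_right] using hz
      have hzm : ‖z ^ m‖ < 1 := by
        rw [norm_pow]
        exact pow_lt_one₀ (norm_nonneg _) hz1 hm0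
      have h1 := (root_diff m hm1 _ (hY i)).2.2 z hz
      have h2 : H i z = rootOp m (stepIn (aa i) (F (i + 1))) z := by
        rw [hH1 i z hz1]
        exact hF3 i z hz
      rw [h2, h1, hH1 (i + 1) _ (mob_mem _ _ (hpre1 i) hzm)]
      simp only [stepIn]
      ring
  · intro ω z hω hz
    have hωn : ‖ω‖ = 1 := Complex.norm_eq_one_of_pow_eq_one hω hm0
    have hcl := closure_eq (fun z => H i (ω * z)) (fun z => ω * H i z) ?_ ?_ ?_
    · exact hcl z (by simpa [mem_closedBall, dist_zero_right] using hz)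
    · exact ((hcont i).comp (continuous_const.mul continuous_id)).continuousOn
    · exact (continuous_const.mul (hcont i)).continuousOn
    · intro z hz
      have hz1 : ‖z‖ < 1 := by simpa [mem_ball, dist_zero_right] using hz
      have hωz : ‖ω * z‖ < 1 := by rw [norm_mul, hωn, one_mul]; exact hz1
      have hωz' : ω * z ∈ ball (0 : ℂ) 1 := by simpa [mem_ball, dist_zero_right] using hωz
      rw [hH1 i _ hωz, hH1 i _ hz1, hF3 i _ hωz', hF3 i _ hz, root_symm m _ ω z hω]

end Pool.Agent.Helper606.FW
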