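import Pool.Agent.Helper606.FW.Defs
import Pool.Agent.Helper606.FW.P_pl_homeo

set_option autoImplicit false

namespace Pool.Agent.Helper606.FW
open Complex Metric Set MeasureTheory Filter Topology


theorem jordan (f : ℂ → ℂ) (hf : Pl (1 / 8) f) : IsJordanCurve (f '' sphere 0 1) := by
  obtain ⟨e, he⟩ := pl_homeo (1 / 8) (by norm_num) (by norm_num) f hf
  refine ⟨fun ζ => e (ζ : ℂ), e.continuous.comp continuous_subtype_val, ?_, ?_⟩
  · intro a b hab
    exact Subtype.ext (e.injective hab)
  · ext w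
    constructor
    · rintro ⟨ζ, rfl⟩
      refine ⟨(ζ : ℂ), ?_, (he _).symm⟩
      rw [mem_sphere, dist_zero_right]
      exact Circle.norm_coe ζ
    · rintro ⟨z, hz, rfl⟩
      rw [mem_sphere, dist_zero_right] at hz
      exact ⟨⟨z, mem_sphere_zero_iff_norm.2 hz⟩, he z⟩

end Pool.Agent.Helper606.FW
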