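import Pool.Agent.Helper606.FW.Defs
import Pool.Agent.Helper606.FW.P_int_pkg
import Pool.Agent.Helper606.FW.P_ext_pkg
import Pool.Agent.Helper606.FW.P_disc_bdd
import Pool.Agent.Helper606.FW.P_assemble
import Pool.Agent.Helper606.FW.P_assemble_FF

set_option autoImplicit false

namespace Pool.Agent.Helper606.FW
open Complex Metric Set MeasureTheory Filter Topology


theorem main : ∃ η : Set ℂ, IsWeilPetersson η 1 ∧ (∀ n : ℕ, BddAbove (discSet n η)) ∧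
    (∀ (C : ℝ) (N : ℕ), ∃ n ≥ N, C < FF n η) ∧
    ¬ ∃ L : ℝ, Tendsto (fun n => FF n η) atTop (𝓝 L) := by
  obtain ⟨m, hm1, hm2⟩ : ∃ m : ℕ, 10 ^ 7 ≤ m ∧ m ≤ 10 ^ 10 := ⟨10 ^ 8, by norm_num, by norm_num⟩
  obtain ⟨f, α, hf⟩ := int_pkg m hm1 hm2
  obtain ⟨h, hh⟩ := ext_pkg m hm1 hm2
  obtain ⟨heq, hWP⟩ := assemble m hm1 f h α hf hh
  obtain ⟨hb, hF⟩ := assemble_FF m hm1 h hh
  rw [← heq] at hb hF
  have hunb : ∀ (C : ℝ) (N : ℕ), ∃ n ≥ N, C < FF n (f 0 '' sphere 0 1) := by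
    intro C N
    obtain ⟨k, hk⟩ := pow_unbounded_of_one_lt C (by norm_num : (1 : ℝ) < 10)
    refine ⟨m ^ (max k N + 1), ?_, ?_⟩
    · have h1 : max k N + 1 < m ^ (max k N + 1) :=
        Nat.lt_pow_self (lt_of_lt_of_le (by norm_num) hm1)
      have h2 : N ≤ max k N := le_max_right _ _
      omega
    · refine lt_of_lt_of_le (lt_of_lt_of_le hk ?_) (hF (max k N))
      exact pow_le_pow_right₀ (by norm_num) (le_max_left _ _)
  refine ⟨f 0 '' sphere 0 1, hWP, fun n => disc_bdd n _ hb, hunb, ?_⟩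
  rintro ⟨L, hL⟩
  obtain ⟨B, hB⟩ := hL.bddAbove_range
  obtain ⟨n, -, hn⟩ := hunb B 0
  exact absurd (hB ⟨n, rfl⟩) (not_le.mpr hn)

end Pool.Agent.Helper606.FW
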